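import Pool.Agent.Lib.LU2_h15.Stage3A

/-! # LU2, C4b: stage 3, the dimension of the new local ring -/

set_option autoImplicit false

namespace Pool.Agent.LU2

universe u

section General

variable {k K : Type u} [Field k] [Field K] [Algebra k K]

theorem PI_prime (V : ValuationSubring K) (R : Subalgebra k K) (hR : ∀ f ∈ R, f ∈ V) :
    (PI V R hR).IsPrime := by
  constructor
  · intro h
    have h1 : (1 : R) ∈ PI V R hR := by rw [h]; trivial
    have h2 : V.valuation ((1 : R) : K) < 1 := h1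
    simp at h2
  · intro x y hxy
    have hxy' : V.valuation ((x : K) * y) < 1 := hxy
    by_contra h
    push Not at h
    have hx : V.valuation (x : K) = 1 :=
      le_antisymm ((V.valuation_le_one_iff _).2 (hR x x.2)) (not_lt.1 h.1)
    have hy : V.valuation (y : K) = 1 :=
      le_antisymm ((V.valuation_le_one_iff _).2 (hR y y.2)) (not_lt.1 h.2)
    rw [map_mul, hx, hy, one_mul] at hxy'
    exact lt_irrefl _ hxy'

theorem mem_primeCompl {V : ValuationSubring K} {R : Subalgebra k K} {hR : ∀ f ∈ R, f ∈ V}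
    [(PI V R hR).IsPrime] (x : R) :
    x ∈ (PI V R hR).primeCompl ↔ V.valuation (x : K) = 1 := by
  change ¬ (V.valuation (x : K) < 1) ↔ _
  rw [not_lt]
  exact ⟨fun h => le_antisymm ((V.valuation_le_one_iff _).2 (hR x x.2)) h, fun h => h.ge⟩

/-- `locV V R` is the local ring of `R` at the center of `V`. -/
theorem isLocalization_locV (V : ValuationSubring K) (R R' : Subalgebra k K)
    (hR : ∀ f ∈ R, f ∈ V) (hle : R ≤ R') (hR' : locV V R = R') [(PI V R hR).IsPrime] :
    @IsLocalization.AtPrime R _ R' _ (Subalgebra.inclusion hle).toAlgebra (PI V R hR) _ := by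
  let _ := (Subalgebra.inclusion hle).toAlgebra
  have hmap : ∀ x : R, ((algebraMap R R' x : R') : K) = x := fun x => rfl
  refine ⟨?_, ?_, ?_⟩
  · intro y
    have hy : V.valuation ((y : R) : K) = 1 := (mem_primeCompl _).1 y.2
    have hy0 : ((y : R) : K) ≠ 0 := by
      intro h
      rw [h, map_zero] at hy
      exact zero_ne_one hy
    have hinv : ((y : R) : K)⁻¹ ∈ R' := hR' ▸ locV_inv (le_locV _ (y : R).2) hy
    refine IsUnit.of_mul_eq_one ⟨_, hinv⟩ ?_
    ext
    simp only [MulMemClass.coe_mul, OneMemClass.coe_one, hmap]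
    exact mul_inv_cancel₀ hy0
  · intro f
    have hf : (f : K) ∈ locV V R := hR' ▸ f.2
    obtain ⟨a, ha, b, hb, hb1, hfab⟩ := hf
    have hb0 : b ≠ 0 := by rintro rfl; simp at hb1
    refine ⟨⟨⟨a, ha⟩, ⟨⟨b, hb⟩, (mem_primeCompl _).2 hb1⟩⟩, ?_⟩
    ext
    simp only [MulMemClass.coe_mul, hmap]
    rw [hfab]
    exact div_mul_cancel₀ _ hb0
  · intro x y hxy
    refine ⟨1, ?_⟩
    have : (x : K) = y := by
      have h := congrArg (fun t : R' => (t : K)) hxy
      simpa only [hmap] using h
    rw [Subtype.ext this]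

theorem locV_locV_of_le {V V₁ : ValuationSubring K} (hle : V ≤ V₁) (R : Subalgebra k K) :
    locV V₁ (locV V R) = locV V₁ R := by
  refine le_antisymm (locV_le ?_ fun _ hf h1 => locV_inv hf h1) (locV_mono (le_locV _))
  rintro f ⟨a, ha, b, hb, hb1, rfl⟩
  exact ⟨a, ha, b, hb, val_eq_one_of_le hle hb1, rfl⟩

/-- Noetherianity of the local ring. -/
theorem locV_noeth (V : ValuationSubring K) (R : Subalgebra k K) (hR : ∀ f ∈ R, f ∈ V)
    (hfg : R.FG) : IsNoetherianRing (locV V R) := by
  have : Algebra.FiniteType k R := (Subalgebra.fg_iff_finiteType R).1 hfg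
  have : IsNoetherianRing R := Algebra.FiniteType.isNoetherianRing k R
  have hp := PI_prime V R hR
  let _ := (Subalgebra.inclusion (le_locV (V := V) R)).toAlgebra
  have hloc := isLocalization_locV V R _ hR (le_locV R) rfl
  exact IsLocalization.isNoetherianRing (PI V R hR).primeCompl (locV V R) inferInstance

theorem locV_local (V : ValuationSubring K) (R : Subalgebra k K) (hR : ∀ f ∈ R, f ∈ V) :
    IsLocalRing (locV V R) := by
  have hp := PI_prime V R hR
  let _ := (Subalgebra.inclusion (le_locV (V := V) R)).toAlgebra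
  have hloc := isLocalization_locV V R _ hR (le_locV R) rfl
  exact IsLocalization.AtPrime.isLocalRing (locV V R) (PI V R hR)

/-- Height plus dimension of the quotient. -/
theorem height_add_dim_le {R : Type*} [CommRing R] (P : Ideal R) [hP : P.IsPrime] :
    (P.height : WithBot ℕ∞) + ringKrullDim (R ⧸ P) ≤ ringKrullDim R := by
  have : Nonempty (PrimeSpectrum R) := ⟨⟨P, hP⟩⟩
  have h1 : ringKrullDim (R ⧸ P) = (Order.coheight (⟨P, hP⟩ : PrimeSpectrum R) : WithBot ℕ∞) := by
    rw [ringKrullDim_quotient, Order.coheight_eq_krullDim_Ici]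
    have : PrimeSpectrum.zeroLocus (P : Set R) = Set.Ici (⟨P, hP⟩ : PrimeSpectrum R) := by
      ext q
      rfl
    rw [this]
  have h2 : P.height = Order.height (⟨P, hP⟩ : PrimeSpectrum R) := by
    exact PrimeSpectrum.height_eq_orderHeight ⟨P, hP⟩
  rw [h1, h2, ringKrullDim, Order.krullDim_eq_iSup_height_add_coheight_of_nonempty]
  exact_mod_cast le_iSup (fun a : PrimeSpectrum R => Order.height a + Order.coheight a) ⟨P, hP⟩

/-- The dimension of a local ring whose maximal ideal has `n` generators. -/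
theorem dim_le_of_gen (V : ValuationSubring K) (R : Subalgebra k K) (hR : ∀ f ∈ R, f ∈ V)
    (hfg : R.FG) {n : ℕ} {z : Fin n → K} (hz : ∀ i, z i ∈ locV V R)
    (hpos : ∀ i, V.valuation (z i) < 1)
    (hgen : ∀ f ∈ locV V R, V.valuation f < 1 →
      ∃ a : Fin n → K, (∀ i, a i ∈ locV V R) ∧ f = ∑ i, a i * z i) :
    ringKrullDim (locV V R) ≤ n := by
  classical
  have := locV_noeth V R hR hfg
  have := locV_local V R hR
  have hval : ∀ f : locV V R, f ∈ IsLocalRing.maximalIdeal (locV V R) →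
      V.valuation (f : K) < 1 := by
    intro f hf
    rw [IsLocalRing.mem_maximalIdeal, mem_nonunits_iff] at hf
    by_contra h
    apply hf
    have h1 : V.valuation (f : K) = 1 :=
      le_antisymm ((V.valuation_le_one_iff _).2 (locV_mem hR f f.2)) (not_lt.1 h)
    have hf0 : (f : K) ≠ 0 := by
      intro h
      rw [h, map_zero] at h1
      exact zero_ne_one h1
    exact IsUnit.of_mul_eq_one ⟨_, locV_inv f.2 h1⟩ (Subtype.ext (mul_inv_cancel₀ hf0))
  let zz : Fin n → locV V R := fun i => ⟨z i, hz i⟩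
  have hm : IsLocalRing.maximalIdeal (locV V R) ≤ Ideal.span (Set.range zz) := by
    intro f hf
    obtain ⟨a, ha, he⟩ := hgen f f.2 (hval f hf)
    have : f = ∑ i, (⟨a i, ha i⟩ : locV V R) * zz i := by
      ext
      simp only [AddSubmonoidClass.coe_finsetSum, MulMemClass.coe_mul, zz]
      exact he
    rw [this]
    exact Ideal.sum_mem _ fun i _ => Ideal.mul_mem_left _ _ (Ideal.subset_span ⟨i, rfl⟩)
  have hm' : Ideal.span (Set.range zz) ≤ IsLocalRing.maximalIdeal (locV V R) := by
    rw [Ideal.span_le]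
    rintro _ ⟨i, rfl⟩
    change zz i ∈ IsLocalRing.maximalIdeal (locV V R)
    rw [IsLocalRing.mem_maximalIdeal, mem_nonunits_iff]
    intro hu
    obtain ⟨y, hy⟩ := hu.exists_right_inv
    have h1 : z i * (y : K) = 1 := congrArg (fun t : locV V R => (t : K)) hy
    have h2 : V.valuation (z i * (y : K)) < 1 := by
      rw [map_mul]
      exact mul_lt_of_lt_of_le_one (hpos i) ((V.valuation_le_one_iff _).2 (locV_mem hR y y.2))
    rw [h1, map_one] at h2
    exact lt_irrefl _ h2
  have hmm : IsLocalRing.maximalIdeal (locV V R) = Ideal.span (Set.range zz) :=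
    le_antisymm hm hm'
  have hcard : (Set.range zz).ncard ≤ n := by
    rw [← Set.image_univ, ]
    refine (Set.ncard_image_le Set.finite_univ).trans ?_
    rw [Set.ncard_univ, Nat.card_eq_fintype_card, Fintype.card_fin]
  have h3 : (IsLocalRing.maximalIdeal (locV V R)).height ≤ (n : ℕ∞) := by
    refine (Ideal.height_le_spanFinrank _ (Ideal.IsPrime.ne_top inferInstance)).trans ?_
    rw [hmm]
    exact_mod_cast (Submodule.spanFinrank_span_le_ncard_of_finite (Set.finite_range zz)).trans hcard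
  rw [← IsLocalRing.maximalIdeal_height_eq_ringKrullDim]
  exact_mod_cast h3

end General

section

variable {k K : Type u} [Field k] [Field K] [Algebra k K] {V V₁ : ValuationSubring K}
  {A A₁ A₂ : Subalgebra k K} {T U : Finset K} {g₁ g₂ b : K} {m m' : ℕ} {z : Fin m → K}
  {z' : Fin m' → K}

variable (hle : V ≤ V₁) (h1 : Stage1 V V₁ A A₁ T g₁ z b) (h2 : Stage2 V V₁ A₁ A₂ U g₂ z')
  {S : ℕ} (hS : ∀ f ∈ A₂, V₁.valuation f < 1 →
      ∃ a : Fin m → K, (∀ i, a i ∈ A₂) ∧ b * g₂ ^ S * f = ∑ i, a i * z i) (N : ℕ)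

include hle h1 h2 in
theorem newz_mem (i : Fin (m + m')) :
    newz z z' (bet b g₂ z' S N) i ∈ newA A₂ z (bet b g₂ z' S N) := by
  refine Fin.addCases (fun i => ?_) (fun j => ?_) i
  · rw [newz, Fin.append_left]
    exact zbet_mem N i
  · rw [newz, Fin.append_right]
    exact newA_le N (h2.zmem j)

include hle h1 h2 in
theorem newz_pos (i : Fin (m + m')) :
    V.valuation (newz z z' (bet b g₂ z' S N) i) < 1 := by
  refine Fin.addCases (fun i => ?_) (fun j => ?_) i
  · rw [newz, Fin.append_left]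
    exact zbet_lt hle h1 h2 S N i
  · rw [newz, Fin.append_right]
    exact h2.zpos j

include hle h1 h2 in
theorem newz_ne (i : Fin (m + m')) : newz z z' (bet b g₂ z' S N) i ≠ 0 := by
  refine Fin.addCases (fun i => ?_) (fun j => ?_) i
  · rw [newz, Fin.append_left]
    exact div_ne_zero (h1.zne i) (bet_ne h1 h2 S N)
  · rw [newz, Fin.append_right]
    intro h
    have := h2.zval j
    rw [h, map_zero] at this
    exact zero_ne_one this

include hle h1 h2 in
/-- The height of the center of `V₁`. -/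
theorem height_new (hR : ∀ f ∈ locV V (newA A₂ z (bet b g₂ z' S N)), f ∈ V₁) :
    ((PI V₁ (locV V (newA A₂ z (bet b g₂ z' S N))) hR).height : WithBot ℕ∞) = m := by
  have hp := PI_prime V₁ _ hR
  have e1 : locV V₁ (locV V (newA A₂ z (bet b g₂ z' S N))) = locV V₁ A₁ := by
    rw [locV_locV_of_le hle, (isChart_new hle h1 h2 N).locV_eq (bet_val h1 h2 S N),
      h2.chart.locV_eq h2.gval]
  have hle' : locV V (newA A₂ z (bet b g₂ z' S N)) ≤ locV V₁ A₁ := e1 ▸ le_locV _
  let _ := (Subalgebra.inclusion hle').toAlgebra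
  have hloc := isLocalization_locV V₁ _ _ hR hle' e1
  rw [← IsLocalization.AtPrime.ringKrullDim_eq_height
    (PI V₁ (locV V (newA A₂ z (bet b g₂ z' S N))) hR) (locV V₁ A₁)]
  exact h1.dim

include hle h1 h2 in
/-- The quotient by the center of `V₁`. -/
theorem quot_new (hR : ∀ f ∈ locV V (newA A₂ z (bet b g₂ z' S N)), f ∈ V₁) :
    ringKrullDim (locV V (newA A₂ z (bet b g₂ z' S N)) ⧸
      PI V₁ (locV V (newA A₂ z (bet b g₂ z' S N))) hR) = m' := by
  obtain ⟨hR₂, hdim⟩ := h2.dim
  rw [← hdim]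
  have hmono : locV V A₂ ≤ locV V (newA A₂ z (bet b g₂ z' S N)) := locV_mono (newA_le N)
  have hVn := newA_mem (S := S) hle h1 h2 N
  let f : locV V A₂ →+* (locV V (newA A₂ z (bet b g₂ z' S N)) ⧸
      PI V₁ (locV V (newA A₂ z (bet b g₂ z' S N))) hR) :=
    (Ideal.Quotient.mk _).comp (Subalgebra.inclusion hmono).toRingHom
  have hker : RingHom.ker f = PI V₁ (locV V A₂) hR₂ := by
    ext x
    rw [RingHom.mem_ker]
    change Ideal.Quotient.mk _ _ = 0 ↔ _
    rw [Ideal.Quotient.eq_zero_iff_mem]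
    rfl
  have hsurj : Function.Surjective f := by
    intro y
    obtain ⟨⟨y, hy⟩, rfl⟩ := Ideal.Quotient.mk_surjective y
    obtain ⟨a, ha, c, hc, hc1, rfl⟩ := hy
    obtain ⟨r, hr, q, hq, har⟩ := newA_split (bet b g₂ z' S N) a ha
    obtain ⟨s, hs, q', hq', hcs⟩ := newA_split (bet b g₂ z' S N) c hc
    have hc0 : c ≠ 0 := by rintro rfl; simp at hc1
    have hsum : ∀ q : Fin m → K, (∀ i, q i ∈ newA A₂ z (bet b g₂ z' S N)) →
        V₁.valuation (∑ i, q i * (z i / bet b g₂ z' S N)) < 1 := by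
      intro q hq
      refine Valuation.map_sum_lt _ one_ne_zero fun i _ => ?_
      rw [map_mul]
      exact mul_lt_of_le_one_of_lt ((V₁.valuation_le_one_iff _).2 (hle (hVn _ (hq i))))
        (zbet_lt₁ h1 h2 S N i)
    have hs1 : V.valuation s = 1 := by
      have h3 : s = c - ∑ i, q' i * (z i / bet b g₂ z' S N) := by rw [hcs]; ring
      rw [h3, Valuation.map_sub_eq_of_lt_left]
      · exact hc1
      · rw [hc1]
        exact val_lt_one_of_le hle (hsum q' hq')
    have hs0 : s ≠ 0 := by rintro rfl; simp at hs1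
    refine ⟨⟨r / s, r, hr, s, hs, hs1, rfl⟩, ?_⟩
    change Ideal.Quotient.mk _ _ = Ideal.Quotient.mk _ _
    rw [Ideal.Quotient.eq]
    change V₁.valuation (r / s - a / c) < 1
    have h3 : r / s - a / c = (r * (∑ i, q' i * (z i / bet b g₂ z' S N)) -
        s * ∑ i, q i * (z i / bet b g₂ z' S N)) / (s * c) := by
      rw [div_sub_div _ _ hs0 hc0]
      congr 1
      have h4 : r * c = r * (s + ∑ i, q' i * (z i / bet b g₂ z' S N)) := by rw [← hcs]
      have h5 : s * a = s * (r + ∑ i, q i * (z i / bet b g₂ z' S N)) := by rw [← har]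
      rw [h4, h5]
      ring
    rw [h3, map_div₀, map_mul, val_eq_one_of_le hle hs1, val_eq_one_of_le hle hc1, one_mul,
      div_one]
    refine Valuation.map_sub_lt _ ?_ ?_
    · rw [map_mul]
      exact mul_lt_of_le_one_of_lt ((V₁.valuation_le_one_iff _).2
        (hle (Stage2.le₂ h1 h2 _ hr))) (hsum q' hq')
    · rw [map_mul]
      exact mul_lt_of_le_one_of_lt ((V₁.valuation_le_one_iff _).2
        (hle (Stage2.le₂ h1 h2 _ hs))) (hsum q hq)
  have e := (Ideal.quotEquivOfEq hker).symm.trans (RingHom.quotientKerEquivOfSurjective hsurj)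
  exact ringKrullDim_eq_of_ringEquiv e.symm

include hle h1 h2 hS in
theorem dim_new :
    ringKrullDim (locV V (newA A₂ z (bet b g₂ z' S N))) = ((m + m' : ℕ) : WithBot ℕ∞) := by
  have hVn := newA_mem (S := S) hle h1 h2 N
  refine le_antisymm ?_ ?_
  · exact dim_le_of_gen V _ hVn
      ((isChart_new hle h1 h2 N).fg (Stage2.fg h1 h2))
      (fun i => le_locV _ (newz_mem (S := S) hle h1 h2 N i))
      (newz_pos (S := S) hle h1 h2 N) (gen_new hle h1 h2 hS N)
  · have hR : ∀ f ∈ locV V (newA A₂ z (bet b g₂ z' S N)), f ∈ V₁ := fun f hf =>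
      hle (locV_mem hVn f hf)
    have hp := PI_prime V₁ _ hR
    have h3 := height_add_dim_le (PI V₁ (locV V (newA A₂ z (bet b g₂ z' S N))) hR)
    rw [height_new hle h1 h2 N hR, quot_new hle h1 h2 N hR] at h3
    push_cast
    exact h3

include hle h1 h2 hS in
theorem isPar_new :
    IsPar V (locV V (newA A₂ z (bet b g₂ z' S N))) (newz z z' (bet b g₂ z' S N)) where
  mem i := le_locV _ (newz_mem (S := S) hle h1 h2 N i)
  ne := newz_ne hle h1 h2 N
  pos := newz_pos hle h1 h2 N
  gen := gen_new hle h1 h2 hS N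
  dim := dim_new hle h1 h2 hS N

end

end Pool.Agent.LU2
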