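import Pool.Agent.Lib.LU2_h15.AbhA

/-! # LU2, C6c: the defect of the restriction to a subfield -/

set_option autoImplicit false

namespace Pool.Agent.LU2

universe u

variable {k K : Type u} [Field k] [Field K] [Algebra k K]

section comap

variable {V : ValuationSubring K} {L : IntermediateField k K}

theorem comap_le_iff (f : L) :
    (V.comap (algebraMap L K)).valuation f ≤ 1 ↔ V.valuation (f : K) ≤ 1 := by
  rw [ValuationSubring.valuation_le_one_iff, ValuationSubring.valuation_le_one_iff]
  rfl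

theorem comap_ge_iff (f : L) :
    1 ≤ (V.comap (algebraMap L K)).valuation f ↔ 1 ≤ V.valuation (f : K) := by
  by_cases hf : f = 0
  · subst hf
    simp
  have h := comap_le_iff (V := V) f⁻¹
  have h1 : (V.comap (algebraMap L K)).valuation f ≠ 0 := by rwa [Valuation.ne_zero_iff]
  have h2 : V.valuation (f : K) ≠ 0 := by
    rw [Valuation.ne_zero_iff]
    intro h3
    exact hf (Subtype.ext h3)
  rw [map_inv₀] at h
  have h3 : ((f⁻¹ : L) : K) = (f : K)⁻¹ := rfl
  rw [h3, map_inv₀, inv_le_one₀ (zero_lt_iff.2 h1), inv_le_one₀ (zero_lt_iff.2 h2)] at h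
  exact h

theorem comap_lt_iff (f : L) :
    (V.comap (algebraMap L K)).valuation f < 1 ↔ V.valuation (f : K) < 1 := by
  rw [← not_le, ← not_le, comap_ge_iff]

theorem comap_eq_iff (f : L) :
    (V.comap (algebraMap L K)).valuation f = 1 ↔ V.valuation (f : K) = 1 := by
  rw [le_antisymm_iff, le_antisymm_iff, comap_le_iff, comap_ge_iff]

/-- A power of the value of an algebraic element is the value of an element of the subfield. -/
theorem exists_pow_val [Algebra.IsAlgebraic L K] {x : K} (hx : x ≠ 0) :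
    ∃ (n : ℕ) (a : L), 0 < n ∧ a ≠ 0 ∧ V.valuation (x ^ n) = V.valuation (a : K) := by
  obtain ⟨p, hp0, hp⟩ := Algebra.IsAlgebraic.isAlgebraic (R := L) x
  rw [Polynomial.aeval_eq_sum_range] at hp
  have hp' : ∑ i ∈ p.support, ((p.coeff i : L) : K) * x ^ i = 0 := by
    rw [← hp]
    rw [← Polynomial.aeval_eq_sum_range, Polynomial.aeval_def, Polynomial.eval₂_eq_sum,
      Polynomial.sum]
    rfl
  have h1 : ¬ ∀ i ∈ p.support, ∀ j ∈ p.support,
      V.valuation (((p.coeff i : L) : K) * x ^ i) = V.valuation (((p.coeff j : L) : K) * x ^ j) →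
        i = j := by
    intro h
    refine val_sum_ne V.valuation p.support (Polynomial.support_nonempty.2 hp0) _ ?_ h hp'
    intro i hi
    refine mul_ne_zero ?_ (pow_ne_zero _ hx)
    intro h2
    exact (Polynomial.mem_support_iff.1 hi) (Subtype.ext h2)
  push Not at h1
  obtain ⟨i, hi, j, hj, hij, hne⟩ := h1
  have key : ∀ i j : ℕ, p.coeff i ≠ 0 → p.coeff j ≠ 0 →
      V.valuation (((p.coeff i : L) : K) * x ^ i) = V.valuation (((p.coeff j : L) : K) * x ^ j) →
      i < j → ∃ (n : ℕ) (a : L), 0 < n ∧ a ≠ 0 ∧ V.valuation (x ^ n) = V.valuation (a : K) := by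
    intro i j hi hj hij hlt
    refine ⟨j - i, p.coeff i / p.coeff j, by omega, div_ne_zero hi hj, ?_⟩
    have hv1 : V.valuation (((p.coeff j : L) : K)) ≠ 0 := by
      rw [Valuation.ne_zero_iff]
      intro h2
      exact hj (Subtype.ext h2)
    have hv2 : V.valuation (x ^ i) ≠ 0 := by
      rw [Valuation.ne_zero_iff]
      exact pow_ne_zero _ hx
    have h3 : ((p.coeff i / p.coeff j : L) : K) = ((p.coeff i : L) : K) / ((p.coeff j : L) : K) :=
      rfl
    rw [h3, map_div₀, eq_div_iff hv1]
    have h4 : x ^ j = x ^ i * x ^ (j - i) := by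
      rw [← pow_add, Nat.add_sub_cancel' hlt.le]
    rw [map_mul, map_mul, h4, map_mul] at hij
    have h5 : V.valuation (x ^ i) * V.valuation ((p.coeff i : L) : K) =
        V.valuation (x ^ i) * (V.valuation (x ^ (j - i)) * V.valuation ((p.coeff j : L) : K)) := by
      rw [mul_comm, hij]
      rw [mul_comm (V.valuation ((p.coeff j : L) : K)), mul_assoc]
    exact (mul_left_cancel₀ hv2 h5).symm
  rcases lt_or_gt_of_ne hne with h | h
  · exact key i j (Polynomial.mem_support_iff.1 hi) (Polynomial.mem_support_iff.1 hj) hij h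
  · exact key j i (Polynomial.mem_support_iff.1 hj) (Polynomial.mem_support_iff.1 hi) hij.symm h

theorem IndVal.comap [Algebra.IsAlgebraic L K] {r : ℕ} {x : Fin r → K} (hx : IndVal V x) :
    ∃ y : Fin r → L, IndVal (V.comap (algebraMap L K)) y := by
  choose n a hn ha hv using fun i => exists_pow_val (V := V) (L := L) (hx.1 i)
  refine ⟨a, ha, ?_⟩
  intro e he
  rw [comap_eq_iff, Finsupp.prod_fintype _ _ (by intro i; simp)] at he
  have h1 : ((∏ i, a i ^ e i : L) : K) = ∏ i, (a i : K) ^ e i := by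
    have := map_prod (algebraMap L K) (fun i => a i ^ e i) Finset.univ
    rw [show ((∏ i, a i ^ e i : L) : K) = algebraMap L K (∏ i, a i ^ e i) from rfl, this]
    refine Finset.prod_congr rfl fun i _ => ?_
    rw [map_zpow₀]
    rfl
  rw [h1] at he
  have h2 := hx.fun_eq (fun i => (n i : ℤ) * e i) (by
    rw [← he, map_prod, map_prod]
    refine Finset.prod_congr rfl fun i _ => ?_
    rw [zpow_mul, zpow_natCast, map_zpow₀, map_zpow₀, hv i])
  ext i
  have h3 := congrFun h2 i
  simp only [Pi.zero_apply, mul_eq_zero] at h3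
  rcases h3 with h3 | h3
  · have := hn i
    omega
  · rw [h3]
    rfl

end comap

theorem exists_res_self (V : ValuationSubring K) (hk : ∀ c : k, algebraMap k K c ∈ V) :
    ∃ (K₁ : Type u) (_ : Field K₁) (_ : Algebra k K₁) (φ : V →+* K₁),
      IsRes (k := k) V V φ (⊤ : ValuationSubring K₁) := by
  letI : Algebra k (IsLocalRing.ResidueField V) :=
    ((IsLocalRing.residue V).comp ((algebraMap k K).codRestrict V hk)).toAlgebra
  refine ⟨IsLocalRing.ResidueField V, inferInstance, inferInstance, IsLocalRing.residue V,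
    le_refl V, hk, IsLocalRing.residue_surjective, ?_, ?_⟩
  · intro c h
    rfl
  · intro x
    exact ⟨fun _ => x.2, fun _ => ValuationSubring.mem_top _⟩

section resid

variable {V : ValuationSubring K} {K₁ : Type u} [Field K₁] [Algebra k K₁] {φ : V →+* K₁}

/-- The residue field of the restriction to `L`. -/
def resSub (hres : IsRes (k := k) V V φ (⊤ : ValuationSubring K₁)) (L : IntermediateField k K) :
    IntermediateField k K₁ where
  carrier := {y | ∃ w : V, (w : K) ∈ L ∧ φ w = y}
  mul_mem' := by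
    rintro _ _ ⟨a, ha, rfl⟩ ⟨b, hb, rfl⟩
    exact ⟨a * b, L.mul_mem ha hb, map_mul _ _ _⟩
  add_mem' := by
    rintro _ _ ⟨a, ha, rfl⟩ ⟨b, hb, rfl⟩
    exact ⟨a + b, L.add_mem ha hb, map_add _ _ _⟩
  algebraMap_mem' := by
    intro c
    exact ⟨⟨_, hres.const c⟩, L.algebraMap_mem c, hres.map_const c (hres.const c)⟩
  inv_mem' := by
    rintro _ ⟨a, ha, rfl⟩
    by_cases h0 : φ a = 0
    · exact ⟨0, L.zero_mem, by rw [h0, map_zero, inv_zero]⟩
    · have h1 := (hres.ne_zero_iff a).1 h0
      have ha0 : (a : K) ≠ 0 := by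
        intro h
        rw [h] at h1
        simp at h1
      have hinv : (a : K)⁻¹ ∈ V := by
        rw [← V.valuation_le_one_iff, map_inv₀, h1, inv_one]
      refine ⟨⟨(a : K)⁻¹, hinv⟩, L.inv_mem ha, ?_⟩
      refine eq_inv_of_mul_eq_one_left ?_
      rw [← map_mul]
      have h2 : (⟨(a : K)⁻¹, hinv⟩ : V) * a = 1 := Subtype.ext (inv_mul_cancel₀ ha0)
      rw [h2, map_one]

theorem resSub_algebraic (hres : IsRes (k := k) V V φ (⊤ : ValuationSubring K₁))
    (L : IntermediateField k K) [Algebra.IsAlgebraic L K] :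
    Algebra.IsAlgebraic (resSub hres L) K₁ := by
  refine ⟨fun y => ?_⟩
  obtain ⟨z, rfl⟩ := hres.surj y
  obtain ⟨p, hp0, hp⟩ := Algebra.IsAlgebraic.isAlgebraic (R := L) (z : K)
  have hp' : ∑ i ∈ p.support, ((p.coeff i : L) : K) * (z : K) ^ i = 0 := by
    rw [← hp, Polynomial.aeval_def, Polynomial.eval₂_eq_sum, Polynomial.sum]
    rfl
  obtain ⟨i0, hi0, hmax⟩ := p.support.exists_max_image (fun i => V.valuation ((p.coeff i : L) : K))
    (Polynomial.support_nonempty.2 hp0)
  have hc0 : ((p.coeff i0 : L) : K) ≠ 0 := by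
    intro h
    exact (Polynomial.mem_support_iff.1 hi0) (Subtype.ext h)
  have hq : ∀ i, ((p.coeff i : L) : K) / ((p.coeff i0 : L) : K) ∈ V := by
    intro i
    rw [← V.valuation_le_one_iff, map_div₀]
    refine div_le_one_of_le₀ ?_ zero_le
    by_cases hi : i ∈ p.support
    · exact hmax i hi
    · rw [Polynomial.notMem_support_iff.1 hi]
      simp
  let c : ℕ → resSub hres L := fun i => ⟨φ ⟨_, hq i⟩, ⟨_, hq i⟩, (p.coeff i / p.coeff i0).2, rfl⟩
  refine ⟨∑ i ∈ p.support, Polynomial.monomial i (c i), ?_, ?_⟩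
  · intro h
    have h1 := congrArg (fun q => Polynomial.coeff q i0) h
    simp only [Polynomial.finset_sum_coeff, Polynomial.coeff_zero] at h1
    rw [Finset.sum_eq_single i0] at h1
    · rw [Polynomial.coeff_monomial, if_pos rfl] at h1
      have h2 : φ ⟨_, hq i0⟩ = 0 := congrArg Subtype.val h1
      have h3 : (⟨_, hq i0⟩ : V) = 1 := Subtype.ext (div_self hc0)
      rw [h3, map_one] at h2
      exact one_ne_zero h2
    · intro j _ hj
      rw [Polynomial.coeff_monomial, if_neg hj]
    · intro h2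
      exact absurd hi0 h2
  · rw [map_sum]
    have h1 : ∀ i, Polynomial.aeval (φ z) (Polynomial.monomial i (c i)) =
        φ (⟨_, hq i⟩ * z ^ i) := by
      intro i
      rw [Polynomial.aeval_monomial, map_mul, map_pow]
      rfl
    rw [Finset.sum_congr rfl fun i _ => h1 i, ← map_sum]
    have h2 : (∑ i ∈ p.support, (⟨_, hq i⟩ * z ^ i : V)) = 0 := by
      apply Subtype.ext
      have h3 : ((∑ i ∈ p.support, (⟨_, hq i⟩ * z ^ i : V) : V) : K) =
          ∑ i ∈ p.support, ((p.coeff i : L) : K) / ((p.coeff i0 : L) : K) * (z : K) ^ i := by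
        have := map_sum V.subtype (fun i => (⟨_, hq i⟩ * z ^ i : V)) p.support
        exact this
      rw [h3]
      have h4 : ∀ i, ((p.coeff i : L) : K) / ((p.coeff i0 : L) : K) * (z : K) ^ i =
          ((p.coeff i0 : L) : K)⁻¹ * (((p.coeff i : L) : K) * (z : K) ^ i) := by
        intro i
        rw [div_eq_mul_inv]
        ring
      rw [Finset.sum_congr rfl fun i _ => h4 i, ← Finset.mul_sum, hp', mul_zero]
      rfl
    rw [h2, map_zero]

theorem IndRes.comap (hres : IsRes (k := k) V V φ (⊤ : ValuationSubring K₁))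
    (L : IntermediateField k K) [Algebra.IsAlgebraic L K] {d : ℕ} {z : Fin d → K}
    (hz : IndRes k V z) : ∃ y : Fin d → L, IndRes k (V.comap (algebraMap L K)) y := by
  let Z : Fin d → V := fun i => ⟨z i, hz.1 i⟩
  have h1 : AlgebraicIndependent k (fun i => φ (Z i)) := (hres.indRes₂ Z hz).algInd
  have h2 : (d : Cardinal) ≤ Algebra.trdeg k K₁ := by
    have := h1.lift_cardinalMk_le_trdeg
    simpa using this
  haveI := resSub_algebraic hres L
  have h2' : Algebra.trdeg k K₁ = Algebra.trdeg k (resSub hres L) := by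
    rw [← trdeg_add_eq k (resSub hres L) (A := K₁),
      trdeg_eq_zero (R := resSub hres L) (A := K₁), add_zero]
  rw [h2'] at h2
  obtain ⟨y, hy⟩ := exists_algInd h2
  choose w hw1 hw2 using fun i => (y i).2
  have h3 : AlgebraicIndependent k (fun i => φ (w i)) := by
    have h4 := hy.map' (f := (resSub hres L).val) Subtype.val_injective
    have h5 : (fun i => φ (w i)) = (resSub hres L).val ∘ y := funext hw2
    rw [h5]
    exact h4
  have h6 := hres.indRes w h3
  refine ⟨fun i => ⟨(w i : K), hw1 i⟩, fun i => (w i).2, ?_⟩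
  intro P hP
  rw [comap_lt_iff] at hP
  refine h6.2 P ?_
  have h7 : ((MvPolynomial.aeval (fun i => (⟨(w i : K), hw1 i⟩ : L)) P : L) : K) =
      MvPolynomial.aeval (fun i => (w i : K)) P := by
    have := MvPolynomial.map_aeval (fun i => (⟨(w i : K), hw1 i⟩ : L)) (algebraMap L K) P
    rw [show ((MvPolynomial.aeval (fun i => (⟨(w i : K), hw1 i⟩ : L)) P : L) : K) =
      algebraMap L K (MvPolynomial.aeval (fun i => (⟨(w i : K), hw1 i⟩ : L)) P) from rfl, this,
      MvPolynomial.aeval_def, ← IsScalarTower.algebraMap_eq]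
    rfl
  rwa [h7] at hP

end resid

/-- The defect of the restriction to a subfield over which the field is algebraic. -/
theorem DefLE.comap {V : ValuationSubring K} (hk : ∀ c : k, algebraMap k K c ∈ V)
    (L : IntermediateField k K) [Algebra.IsAlgebraic L K] {δ : ℕ} (h : DefLE k V δ) :
    DefLE k (V.comap (algebraMap L K)) δ := by
  obtain ⟨r, d, h1, ⟨x, hx⟩, z, hz⟩ := h
  obtain ⟨K₁, i1, i2, φ, hres⟩ := exists_res_self V hk
  refine ⟨r, d, ?_, hx.comap, IndRes.comap hres L hz⟩
  exact (trdeg_le_of_injective L.val Subtype.val_injective).trans h1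

end Pool.Agent.LU2
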