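import Pool.Agent.Lib.LU2_h15.AbhB
import Pool.Agent.Lib.LU2_h15.AbhC

/-! # LU2, C6d: the defect of the restriction to an arbitrary subfield (relative Abhyankar) -/

set_option autoImplicit false

namespace Pool.Agent.LU2

universe u

variable {k K : Type u} [Field k] [Field K] [Algebra k K]

section

variable {V : ValuationSubring K} {K₁ : Type u} [Field K₁] [Algebra k K₁] {φ : V →+* K₁}

/-- The value of a polynomial with coefficients in `L` at elements with independent residues over
the residue field of `L`. -/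
theorem exists_val_eq (hres : IsRes (k := k) V V φ (⊤ : ValuationSubring K₁))
    (L : IntermediateField k K) {τ : ℕ} {z : Fin τ → V}
    (hz : AlgebraicIndependent (resSub hres L) (fun i => φ (z i))) {Q : MvPolynomial (Fin τ) L}
    (hQ : Q ≠ 0) : ∃ a : L, a ≠ 0 ∧
      V.valuation (MvPolynomial.aeval (fun i => (z i : K)) Q) = V.valuation (a : K) := by
  obtain ⟨m0, hm0, hmax⟩ := Q.support.exists_max_image
    (fun m => V.valuation ((Q.coeff m : L) : K)) (MvPolynomial.support_nonempty.2 hQ)
  have hc0' : Q.coeff m0 ≠ 0 := MvPolynomial.mem_support_iff.1 hm0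
  have hc0 : ((Q.coeff m0 : L) : K) ≠ 0 := by
    intro h
    exact hc0' (Subtype.ext h)
  have hq : ∀ m, ((Q.coeff m : L) : K) / ((Q.coeff m0 : L) : K) ∈ V := by
    intro m
    rw [← V.valuation_le_one_iff, map_div₀]
    refine div_le_one_of_le₀ ?_ zero_le
    by_cases hm : m ∈ Q.support
    · exact hmax m hm
    · rw [MvPolynomial.notMem_support_iff.1 hm]
      simp
  refine ⟨Q.coeff m0, hc0', ?_⟩
  let c : (Fin τ →₀ ℕ) → resSub hres L :=
    fun m => ⟨φ ⟨_, hq m⟩, ⟨_, hq m⟩, (Q.coeff m / Q.coeff m0).2, rfl⟩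
  let b : V := ∑ m ∈ Q.support, (⟨_, hq m⟩ : V) * ∏ i, z i ^ m i
  have hb1 : (b : K) * ((Q.coeff m0 : L) : K) = MvPolynomial.aeval (fun i => (z i : K)) Q := by
    have h3 : (b : K) = ∑ m ∈ Q.support,
        ((Q.coeff m : L) : K) / ((Q.coeff m0 : L) : K) * ∏ i, (z i : K) ^ m i := by
      have h4 := map_sum V.subtype (fun m => (⟨_, hq m⟩ : V) * ∏ i, z i ^ m i) Q.support
      have h5 : (b : K) = V.subtype (∑ m ∈ Q.support, (⟨_, hq m⟩ : V) * ∏ i, z i ^ m i) := rfl
      rw [h5, h4]
      refine Finset.sum_congr rfl fun m _ => ?_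
      rw [map_mul, map_prod]
      congr 1
    rw [h3, MvPolynomial.aeval_def, MvPolynomial.eval₂_eq', Finset.sum_mul]
    refine Finset.sum_congr rfl fun m _ => ?_
    have h6 : algebraMap L K (Q.coeff m) = ((Q.coeff m : L) : K) := rfl
    rw [h6]
    field_simp
  have hb2 : φ b = MvPolynomial.aeval (fun i => φ (z i))
      (∑ m ∈ Q.support, MvPolynomial.monomial m (c m)) := by
    rw [map_sum, map_sum]
    refine Finset.sum_congr rfl fun m _ => ?_
    rw [MvPolynomial.aeval_monomial, map_mul, map_prod, Finsupp.prod_fintype _ _ (by simp)]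
    congr 1
    refine Finset.prod_congr rfl fun i _ => ?_
    rw [map_pow]
  have hne : (∑ m ∈ Q.support, MvPolynomial.monomial m (c m)) ≠ 0 := by
    intro h
    have h1 := congrArg (fun q => MvPolynomial.coeff m0 q) h
    simp only [MvPolynomial.coeff_sum, MvPolynomial.coeff_zero] at h1
    rw [Finset.sum_eq_single m0] at h1
    · rw [MvPolynomial.coeff_monomial, if_pos rfl] at h1
      have h2 : φ ⟨_, hq m0⟩ = 0 := congrArg Subtype.val h1
      have h3 : (⟨_, hq m0⟩ : V) = 1 := Subtype.ext (div_self hc0)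
      rw [h3, map_one] at h2
      exact one_ne_zero h2
    · intro j _ hj
      rw [MvPolynomial.coeff_monomial, if_neg hj]
    · intro h2
      exact absurd hm0 h2
  have hb3 : φ b ≠ 0 := by
    intro h
    rw [hb2] at h
    rw [algebraicIndependent_iff] at hz
    exact hne (hz _ h)
  have hb4 := (hres.ne_zero_iff b).1 hb3
  rw [← hb1, map_mul, hb4, one_mul]

/-- Relative version of `algInd_of_ind`. -/
theorem algInd_over (hres : IsRes (k := k) V V φ (⊤ : ValuationSubring K₁))
    (L : IntermediateField k K) {ρ τ : ℕ} {x : Fin ρ → K} (hx0 : ∀ i, x i ≠ 0)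
    (hx : ∀ (e : Fin ρ → ℤ) (a : L), a ≠ 0 →
      V.valuation (∏ i, x i ^ e i) = V.valuation (a : K) → e = 0)
    {z : Fin τ → V} (hz : AlgebraicIndependent (resSub hres L) (fun i => φ (z i))) :
    AlgebraicIndependent L (Sum.elim x (fun i => (z i : K))) := by
  have hz1 : AlgebraicIndependent L (fun i => (z i : K)) := by
    rw [algebraicIndependent_iff]
    intro Q hQ
    by_contra h
    obtain ⟨a, ha, hv⟩ := exists_val_eq hres L hz h
    rw [hQ, map_zero, eq_comm, Valuation.zero_iff] at hv
    exact ha (Subtype.ext hv)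
  rw [AlgebraicIndependent.sumElim_iff]
  refine ⟨hz1, ?_⟩
  rw [algebraicIndependent_iff]
  intro P hP
  by_contra hP0
  have hcoef : ∀ c : Algebra.adjoin L (Set.range (fun i => (z i : K))), c ≠ 0 →
      ∃ a : L, a ≠ 0 ∧ V.valuation (c : K) = V.valuation (a : K) := by
    intro c hc
    have h1 : (c : K) ∈ (MvPolynomial.aeval (R := L) (fun i => (z i : K))).range :=
      (SetLike.ext_iff.1 (Algebra.adjoin_range_eq_range_aeval L (fun i => (z i : K))) _).1 c.2
    obtain ⟨Q, hQ⟩ := h1
    have hQ' : MvPolynomial.aeval (fun i => (z i : K)) Q = (c : K) := hQ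
    rw [← hQ']
    refine exists_val_eq hres L hz ?_
    rintro rfl
    rw [map_zero] at hQ'
    exact hc (Subtype.ext hQ'.symm)
  rw [MvPolynomial.aeval_def, MvPolynomial.eval₂_eq'] at hP
  refine val_sum_ne V.valuation P.support ?_ _ ?_ ?_ hP
  · exact MvPolynomial.support_nonempty.2 hP0
  · intro a ha
    have h1 := MvPolynomial.mem_support_iff.1 ha
    refine mul_ne_zero ?_ ?_
    · intro h2
      exact h1 (Subtype.ext h2)
    · exact Finset.prod_ne_zero_iff.2 fun i _ => pow_ne_zero _ (hx0 i)
  · intro a ha b hb hab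
    obtain ⟨α, hα, h3⟩ := hcoef _ (MvPolynomial.mem_support_iff.1 ha)
    obtain ⟨β, hβ, h4⟩ := hcoef _ (MvPolynomial.mem_support_iff.1 hb)
    have h3' : V.valuation (algebraMap (Algebra.adjoin L (Set.range (fun i => (z i : K)))) K
        (P.coeff a)) = V.valuation (α : K) := h3
    have h4' : V.valuation (algebraMap (Algebra.adjoin L (Set.range (fun i => (z i : K)))) K
        (P.coeff b)) = V.valuation (β : K) := h4
    rw [map_mul, map_mul, h3', h4'] at hab
    have hb0 : V.valuation (∏ i, x i ^ b i) ≠ 0 := by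
      rw [Valuation.ne_zero_iff]
      exact Finset.prod_ne_zero_iff.2 fun i _ => pow_ne_zero _ (hx0 i)
    have hα0 : V.valuation (α : K) ≠ 0 := by
      rw [Valuation.ne_zero_iff]
      intro h
      exact hα (Subtype.ext h)
    have h5 := hx (fun i => (a i : ℤ) - b i) (β / α) (div_ne_zero hβ hα) (by
      have h6 : ∏ i, x i ^ ((a i : ℤ) - b i) = (∏ i, x i ^ a i) / ∏ i, x i ^ b i := by
        rw [← Finset.prod_div_distrib]
        refine Finset.prod_congr rfl fun i _ => ?_
        rw [zpow_sub₀ (hx0 i), zpow_natCast, zpow_natCast]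
      have h7 : ((β / α : L) : K) = (β : K) / (α : K) := rfl
      rw [h6, h7, map_div₀, map_div₀, div_eq_div_iff hb0 hα0, mul_comm, hab, mul_comm])
    ext i
    have h7 := congrFun h5 i
    simp only [Pi.zero_apply] at h7
    omega

end

/-- The values of the elements of `L`. -/
noncomputable def nuL (V : ValuationSubring K) (L : IntermediateField k K) :
    Additive Lˣ →ₗ[ℤ] Additive (V.ValueGroup)ˣ :=
  (nu V).comp (MonoidHom.toAdditive (Units.map (algebraMap L K : L →* K))).toIntLinearMap

/-- Independent values relative to a subfield. -/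
theorem split_val_over {V : ValuationSubring K} (L : IntermediateField k K) {r : ℕ}
    {x : Fin r → K} (hx : IndVal V x) :
    ∃ r₁ ρ : ℕ, r₁ + ρ = r ∧ (∃ w : Fin r₁ → L, IndVal (V.comap (algebraMap L K)) w) ∧
      ∃ y : Fin ρ → K, (∀ i, y i ≠ 0) ∧ ∀ (e : Fin ρ → ℤ) (a : L), a ≠ 0 →
        V.valuation (∏ i, y i ^ e i) = V.valuation (a : K) → e = 0 := by
  let X : Fin r → Additive Kˣ := fun i => Additive.ofMul (Units.mk0 (x i) (hx.1 i))
  have hX : LinearIndependent ℤ (fun i => nu V (X i)) := (indVal_iff X).1 hx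
  let C : (Fin r → ℤ) →ₗ[ℤ] Additive Kˣ := Fintype.linearCombination ℤ X
  let R : Submodule ℤ (Additive (V.ValueGroup)ˣ) := LinearMap.range (nuL V L)
  let T : (Fin r → ℤ) →ₗ[ℤ] (Additive (V.ValueGroup)ˣ ⧸ R) := (R.mkQ.comp (nu V)).comp C
  have hrank : Module.finrank ℤ (LinearMap.range T) + Module.finrank ℤ (LinearMap.ker T) = r := by
    rw [← (LinearMap.quotKerEquivRange T).finrank_eq, Submodule.finrank_quotient_add_finrank]
    simp
  have hker : LinearMap.ker ((nu V).comp C) = ⊥ := by
    rw [LinearMap.ker_eq_bot']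
    intro m hm
    have h4 := Fintype.linearIndependent_iff.1 hX m (by
      have h5 : (nu V).comp C m = ∑ i, m i • nu V (X i) := by
        rw [LinearMap.comp_apply]
        show nu V (Fintype.linearCombination ℤ X m) = _
        rw [Fintype.linearCombination_apply, map_sum]
        refine Finset.sum_congr rfl fun i _ => ?_
        rw [map_smul]
      rw [← h5]
      exact hm)
    exact funext h4
  refine ⟨Module.finrank ℤ (LinearMap.ker T), Module.finrank ℤ (LinearMap.range T),
    by omega, ?_, ?_⟩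
  · obtain ⟨f, hf⟩ := exists_linearIndependent_of_le_finrank
      (le_refl (Module.finrank ℤ (LinearMap.ker T)))
    have h1 : ∀ i, ∃ a : Additive Lˣ, nuL V L a = nu V (C (f i)) := by
      intro i
      have h2 : T (f i) = 0 := (f i).2
      have h3 : nu V (C (f i)) ∈ R := (Submodule.Quotient.mk_eq_zero R).1 h2
      exact h3
    choose a ha using h1
    have h5 := (hf.map' (LinearMap.ker T).subtype (Submodule.ker_subtype _)).map'
      ((nu V).comp C) hker
    let A : Fin (Module.finrank ℤ (LinearMap.ker T)) → Additive Kˣ :=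
      fun i => Additive.ofMul (Units.map (algebraMap L K : L →* K) (Additive.toMul (a i)))
    have h6 : LinearIndependent ℤ (fun i => nu V (A i)) := by
      have h7 : (fun i => nu V (A i)) =
          (nu V).comp C ∘ ((LinearMap.ker T).subtype ∘ f) := funext ha
      rw [h7]
      exact h5
    have h8 : IndVal V (fun i => ((Additive.toMul (A i) : Kˣ) : K)) := (indVal_iff A).2 h6
    refine ⟨fun i => ((Additive.toMul (a i) : Lˣ) : L), fun i => Units.ne_zero _, ?_⟩
    intro e he
    rw [comap_eq_iff, Finsupp.prod_fintype _ _ (by intro i; simp)] at he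
    refine DFunLike.coe_injective (h8.fun_eq e ?_)
    rw [← he]
    congr 1
    have h9 := map_prod (algebraMap L K)
      (fun i => (((Additive.toMul (a i) : Lˣ) : L)) ^ e i) Finset.univ
    refine Eq.trans ?_ h9.symm
    refine Finset.prod_congr rfl fun i _ => ?_
    rw [map_zpow₀]
    rfl
  · obtain ⟨f, hf⟩ := exists_linearIndependent_of_le_finrank
      (le_refl (Module.finrank ℤ (LinearMap.range T)))
    choose g hg using fun i => (f i).2
    have h1 := hf.map' (LinearMap.range T).subtype (Submodule.ker_subtype _)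
    refine ⟨fun i => ((Additive.toMul (C (g i)) : Kˣ) : K), fun i => Units.ne_zero _, ?_⟩
    intro e a ha he
    have h2 : ∑ i, e i • T (g i) = 0 := by
      have h3 : ∑ i, e i • T (g i) = R.mkQ (nu V (∑ i, e i • C (g i))) := by
        rw [map_sum, map_sum]
        refine Finset.sum_congr rfl fun i _ => ?_
        rw [map_smul, map_smul]
        rfl
      rw [h3, Submodule.mkQ_apply, Submodule.Quotient.mk_eq_zero]
      refine ⟨Additive.ofMul (Units.mk0 a ha), ?_⟩
      refine Additive.toMul.injective (Units.ext ?_)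
      have h4 : ((Additive.toMul (∑ i, e i • C (g i)) : Kˣ) : K) =
          ∏ i, ((Additive.toMul (C (g i)) : Kˣ) : K) ^ e i := by
        rw [toMul_sum, Units.coe_prod]
        refine Finset.prod_congr rfl fun i _ => ?_
        rw [toMul_zsmul, Units.val_zpow_eq_zpow_val]
      have h5 : V.valuation (a : K) =
          V.valuation (((Additive.toMul (∑ i, e i • C (g i)) : Kˣ) : K)) := by
        rw [h4]
        exact he.symm
      exact h5
    have h3 := Fintype.linearIndependent_iff.1 h1 e (by
      rw [← h2]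
      refine Finset.sum_congr rfl fun i _ => ?_
      rw [hg i]
      rfl)
    exact funext h3

/-- The defect of the restriction to an arbitrary subfield. -/
theorem DefLE.comap_any {V : ValuationSubring K} (hk : ∀ c : k, algebraMap k K c ∈ V)
    (hfin : Algebra.trdeg k K < Cardinal.aleph0) (L : IntermediateField k K) {δ : ℕ}
    (h : DefLE k V δ) : DefLE k (V.comap (algebraMap L K)) δ := by
  obtain ⟨r, d, h1, ⟨x, hx⟩, z, hz⟩ := h
  obtain ⟨K₁, i1, i2, φ, hres⟩ := exists_res_self V hk
  -- transcendence degrees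
  obtain ⟨n, hn⟩ := Cardinal.lt_aleph0.1 hfin
  have hadd := trdeg_add_eq k L (A := K)
  obtain ⟨nL, hnL⟩ := Cardinal.lt_aleph0.1
    (lt_of_le_of_lt (self_le_add_right _ _) (hadd.trans_lt hfin))
  obtain ⟨t, ht⟩ := Cardinal.lt_aleph0.1
    (lt_of_le_of_lt (self_le_add_left _ _) (hadd.trans_lt hfin))
  have hadd' : nL + t = n := by
    rw [hnL, ht, hn] at hadd
    exact_mod_cast hadd
  -- residues
  have hx00 : IndVal V (fun i : Fin 0 => (i.elim0 : K)) := by
    refine ⟨fun i => i.elim0, fun e _ => ?_⟩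
    ext i
    exact i.elim0
  obtain ⟨n₁, hn₁, -, -⟩ := hres.trdeg_le hn hx00
  have hadd₁ := trdeg_add_eq k (resSub hres L) (A := K₁)
  have hfin₁ : Algebra.trdeg k K₁ < Cardinal.aleph0 := by
    rw [hn₁]
    exact Cardinal.natCast_lt_aleph0
  obtain ⟨d₁, hd₁⟩ := Cardinal.lt_aleph0.1
    (lt_of_le_of_lt (self_le_add_right _ _) (hadd₁.trans_lt hfin₁))
  obtain ⟨τ, hτ⟩ := Cardinal.lt_aleph0.1
    (lt_of_le_of_lt (self_le_add_left _ _) (hadd₁.trans_lt hfin₁))
  have hadd₁' : d₁ + τ = n₁ := by
    rw [hd₁, hτ, hn₁] at hadd₁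
    exact_mod_cast hadd₁
  have hd : d ≤ n₁ := by
    let Z : Fin d → V := fun i => ⟨z i, hz.1 i⟩
    have h2 : AlgebraicIndependent k (fun i => φ (Z i)) := (hres.indRes₂ Z hz).algInd
    have h3 := h2.lift_cardinalMk_le_trdeg
    rw [hn₁] at h3
    have h4 : (d : Cardinal.{u}) ≤ (n₁ : Cardinal.{u}) := by simpa using h3
    exact_mod_cast h4
  -- independent residues in `L`
  obtain ⟨y, hy⟩ := exists_algInd hd₁.ge
  choose w hw1 hw2 using fun i => (y i).2
  have h3 : AlgebraicIndependent k (fun i => φ (w i)) := by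
    have h4 := hy.map' (f := (resSub hres L).val) Subtype.val_injective
    have h5 : (fun i => φ (w i)) = (resSub hres L).val ∘ y := funext hw2
    rw [h5]
    exact h4
  have h6 := hres.indRes w h3
  have hresL : IndRes k (V.comap (algebraMap L K)) (fun i => (⟨(w i : K), hw1 i⟩ : L)) := by
    refine ⟨fun i => (w i).2, ?_⟩
    intro P hP
    rw [comap_lt_iff] at hP
    refine h6.2 P ?_
    have h7 : ((MvPolynomial.aeval (fun i => (⟨(w i : K), hw1 i⟩ : L)) P : L) : K) =
        MvPolynomial.aeval (fun i => (w i : K)) P := by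
      have := MvPolynomial.map_aeval (fun i => (⟨(w i : K), hw1 i⟩ : L)) (algebraMap L K) P
      rw [show ((MvPolynomial.aeval (fun i => (⟨(w i : K), hw1 i⟩ : L)) P : L) : K) =
        algebraMap L K (MvPolynomial.aeval (fun i => (⟨(w i : K), hw1 i⟩ : L)) P) from rfl, this,
        MvPolynomial.aeval_def, ← IsScalarTower.algebraMap_eq]
      rfl
    rwa [h7] at hP
  -- independent residues over the residue field of `L`
  obtain ⟨y', hy'⟩ := exists_algInd (k := resSub hres L) (E := K₁) hτ.ge
  choose Z' hZ' using fun i => hres.surj (y' i)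
  have hZ : AlgebraicIndependent (resSub hres L) (fun i => φ (Z' i)) := by
    have : (fun i => φ (Z' i)) = y' := funext hZ'
    rw [this]
    exact hy'
  -- values
  obtain ⟨r₁, ρ, hr, ⟨w', hw'⟩, x', hx'0, hx'⟩ := split_val_over L hx
  have hind := (algInd_over hres L hx'0 hx' hZ).lift_cardinalMk_le_trdeg
  rw [ht] at hind
  have hind' : ρ + τ ≤ t := by
    have h4 : ((ρ + τ : ℕ) : Cardinal.{u}) ≤ (t : Cardinal.{u}) := by simpa using hind
    exact_mod_cast h4
  have hn' : n ≤ r + d + δ := by
    rw [hn] at h1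
    exact_mod_cast h1
  refine ⟨r₁, d₁, ?_, ⟨w', hw'⟩, _, hresL⟩
  rw [hnL]
  exact_mod_cast (by omega : nL ≤ r₁ + d₁ + δ)

end Pool.Agent.LU2
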