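import Pool.Agent.Lib.LU2_h15.Stages

/-! # LU2, C6a: the Abhyankar inequality -/

set_option autoImplicit false

namespace Pool.Agent.LU2

universe u

variable {k K : Type u} [Field k] [Field K] [Algebra k K]

/-- A sum of elements with pairwise different values is not zero. -/
theorem val_sum_ne {Γ₀ : Type*} [LinearOrderedCommGroupWithZero Γ₀] (v : Valuation K Γ₀)
    {ι : Type*} (s : Finset ι) (hs : s.Nonempty) (f : ι → K) (h0 : ∀ i ∈ s, f i ≠ 0)
    (hinj : ∀ i ∈ s, ∀ j ∈ s, v (f i) = v (f j) → i = j) : ∑ i ∈ s, f i ≠ 0 := by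
  classical
  obtain ⟨i0, hi0, hmax⟩ := s.exists_max_image (fun i => v (f i)) hs
  have hne : v (f i0) ≠ 0 := (Valuation.ne_zero_iff v).2 (h0 i0 hi0)
  have h1 : v (∑ i ∈ s.erase i0, f i) < v (f i0) := by
    refine Valuation.map_sum_lt v hne ?_
    intro i hi
    obtain ⟨hi1, hi2⟩ := Finset.mem_erase.1 hi
    refine lt_of_le_of_ne (hmax i hi2) ?_
    intro h
    exact hi1 (hinj i hi2 i0 hi0 h)
  intro h2
  rw [← Finset.add_sum_erase s f hi0] at h2
  have h3 : v (f i0 + ∑ i ∈ s.erase i0, f i) = v (f i0) :=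
    Valuation.map_add_eq_of_lt_left v h1
  rw [h2, map_zero] at h3
  exact hne h3.symm

theorem IndVal.fun_eq {V : ValuationSubring K} {ι : Type*} [Fintype ι] {x : ι → K}
    (h : IndVal V x) (e : ι → ℤ) (he : V.valuation (∏ i, x i ^ e i) = 1) : e = 0 := by
  have h1 := h.2 (Finsupp.equivFunOnFinite.symm e) (by
    rw [Finsupp.prod_fintype _ _ (by intro i; simp)]
    exact he)
  funext i
  have := DFunLike.congr_fun h1 i
  simpa using this

theorem aeval_mem_V {V : ValuationSubring K} (hk : ∀ c : k, algebraMap k K c ∈ V) {ι : Type*}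
    {z : ι → K} (hz : ∀ i, z i ∈ V) (P : MvPolynomial ι k) : MvPolynomial.aeval z P ∈ V := by
  have h1 : MvPolynomial.aeval z P ∈ Algebra.adjoin k (Set.range z) := by
    rw [Algebra.adjoin_range_eq_range_aeval]
    exact ⟨P, rfl⟩
  let VA : Subalgebra k K := { V.toSubring with algebraMap_mem' := hk }
  have h2 : Algebra.adjoin k (Set.range z) ≤ VA := by
    refine Algebra.adjoin_le ?_
    rintro _ ⟨i, rfl⟩
    exact hz i
  exact h2 h1

theorem IndRes.val_eq {V : ValuationSubring K} (hk : ∀ c : k, algebraMap k K c ∈ V) {ι : Type*}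
    {z : ι → K} (hz : IndRes k V z) {P : MvPolynomial ι k} (hP : P ≠ 0) :
    V.valuation (MvPolynomial.aeval z P) = 1 := by
  refine le_antisymm ((V.valuation_le_one_iff _).2 (aeval_mem_V hk hz.1 P)) ?_
  by_contra h
  push Not at h
  exact hP (hz.2 P h)

theorem IndRes.algInd {V : ValuationSubring K} {ι : Type*}
    {z : ι → K} (hz : IndRes k V z) : AlgebraicIndependent k z := by
  rw [algebraicIndependent_iff]
  intro P hP
  exact hz.2 P (by rw [hP]; simp)

/-- Elements with independent values and elements with independent residues are together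
algebraically independent. -/
theorem algInd_of_ind {V : ValuationSubring K} (hk : ∀ c : k, algebraMap k K c ∈ V) {r d : ℕ}
    {x : Fin r → K} (hx : IndVal V x) {z : Fin d → K} (hz : IndRes k V z) :
    AlgebraicIndependent k (Sum.elim x z) := by
  rw [AlgebraicIndependent.sumElim_iff]
  refine ⟨hz.algInd, ?_⟩
  rw [algebraicIndependent_iff]
  intro P hP
  by_contra hP0
  have hcoef : ∀ c : Algebra.adjoin k (Set.range z), c ≠ 0 → V.valuation (c : K) = 1 := by
    intro c hc
    have h1 : (c : K) ∈ (MvPolynomial.aeval (R := k) z).range :=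
      (SetLike.ext_iff.1 (Algebra.adjoin_range_eq_range_aeval k z) _).1 c.2
    obtain ⟨Q, hQ⟩ := h1
    have hQ' : MvPolynomial.aeval z Q = (c : K) := hQ
    rw [← hQ']
    refine hz.val_eq hk ?_
    rintro rfl
    rw [map_zero] at hQ'
    exact hc (Subtype.ext hQ'.symm)
  rw [MvPolynomial.aeval_def, MvPolynomial.eval₂_eq'] at hP
  refine val_sum_ne V.valuation P.support ?_ _ ?_ ?_ hP
  · exact MvPolynomial.support_nonempty.2 hP0
  · intro a ha
    have h1 : (P.coeff a : Algebra.adjoin k (Set.range z)) ≠ 0 := MvPolynomial.mem_support_iff.1 ha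
    refine mul_ne_zero ?_ ?_
    · intro h2
      exact h1 (Subtype.ext h2)
    · exact Finset.prod_ne_zero_iff.2 fun i _ => pow_ne_zero _ (hx.1 i)
  · intro a ha b hb hab
    have h1 : (P.coeff a : Algebra.adjoin k (Set.range z)) ≠ 0 := MvPolynomial.mem_support_iff.1 ha
    have h2 : (P.coeff b : Algebra.adjoin k (Set.range z)) ≠ 0 := MvPolynomial.mem_support_iff.1 hb
    have h3 : V.valuation (algebraMap (Algebra.adjoin k (Set.range z)) K (P.coeff a)) = 1 :=
      hcoef _ h1
    have h4 : V.valuation (algebraMap (Algebra.adjoin k (Set.range z)) K (P.coeff b)) = 1 :=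
      hcoef _ h2
    rw [map_mul, map_mul, h3, h4, one_mul, one_mul] at hab
    have hb0 : V.valuation (∏ i, x i ^ b i) ≠ 0 := by
      rw [Valuation.ne_zero_iff]
      exact Finset.prod_ne_zero_iff.2 fun i _ => pow_ne_zero _ (hx.1 i)
    have h5 := hx.fun_eq (fun i => (a i : ℤ) - b i) (by
      have h6 : ∏ i, x i ^ ((a i : ℤ) - b i) = (∏ i, x i ^ a i) / ∏ i, x i ^ b i := by
        rw [← Finset.prod_div_distrib]
        refine Finset.prod_congr rfl fun i _ => ?_
        rw [zpow_sub₀ (hx.1 i), zpow_natCast, zpow_natCast]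
      rw [h6, map_div₀, hab, div_self hb0])
    ext i
    have h7 := congrFun h5 i
    simp only [Pi.zero_apply] at h7
    omega

theorem abhyankar {V : ValuationSubring K} (hk : ∀ c : k, algebraMap k K c ∈ V) {r d : ℕ}
    {x : Fin r → K} (hx : IndVal V x) {z : Fin d → K} (hz : IndRes k V z) :
    ((r + d : ℕ) : Cardinal) ≤ Algebra.trdeg k K := by
  have h := (algInd_of_ind hk hx hz).lift_cardinalMk_le_trdeg
  simpa using h

theorem DefLE.mono {V : ValuationSubring K} {δ δ' : ℕ} (hδ : δ ≤ δ') (h : DefLE k V δ) :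
    DefLE k V δ' := by
  obtain ⟨r, d, h1, h2⟩ := h
  refine ⟨r, d, h1.trans ?_, h2⟩
  exact_mod_cast (by omega : r + d + δ ≤ r + d + δ')

/-! ### residue maps -/

section res

variable {V V₁ : ValuationSubring K} {K₁ : Type u} [Field K₁] [Algebra k K₁]
    {φ : V₁ →+* K₁} {V₂ : ValuationSubring K₁}

theorem IsRes.const₁ (hres : IsRes (k := k) V V₁ φ V₂) (c : k) : algebraMap k K c ∈ V₁ :=
  hres.le (hres.const c)

theorem IsRes.const₂ (hres : IsRes (k := k) V V₁ φ V₂) (c : k) : algebraMap k K₁ c ∈ V₂ := by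
  rw [← hres.map_const c (hres.const₁ c), hres.mem]
  exact hres.const c

theorem IsRes.eq_zero_iff (hres : IsRes (k := k) V V₁ φ V₂) (x : V₁) :
    φ x = 0 ↔ V₁.valuation (x : K) < 1 := by
  have h1 : (RingHom.ker φ).IsMaximal := RingHom.ker_isMaximal_of_surjective φ hres.surj
  have h2 := IsLocalRing.eq_maximalIdeal h1
  rw [← RingHom.mem_ker, h2, ValuationSubring.valuation_lt_one_iff]

theorem IsRes.ne_zero_iff (hres : IsRes (k := k) V V₁ φ V₂) (x : V₁) :
    φ x ≠ 0 ↔ V₁.valuation (x : K) = 1 := by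
  have h1 := (V₁.valuation_le_one_iff (x : K)).2 x.2
  rw [Ne, hres.eq_zero_iff, not_lt]
  exact ⟨fun h => le_antisymm h1 h, fun h => h.ge⟩

theorem IsRes.val_le_iff (hres : IsRes (k := k) V V₁ φ V₂) (x : V₁) :
    V₂.valuation (φ x) ≤ 1 ↔ V.valuation (x : K) ≤ 1 := by
  rw [V₂.valuation_le_one_iff, V.valuation_le_one_iff, hres.mem]

theorem IsRes.le_val_iff (hres : IsRes (k := k) V V₁ φ V₂) (x : V₁)
    (hx : V₁.valuation (x : K) = 1) : 1 ≤ V₂.valuation (φ x) ↔ 1 ≤ V.valuation (x : K) := by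
  have hx0 : (x : K) ≠ 0 := by
    intro h
    rw [h] at hx
    simp at hx
  have hinv : (x : K)⁻¹ ∈ V₁ := by
    rw [← V₁.valuation_le_one_iff, map_inv₀, hx, inv_one]
  have h1 : φ ⟨(x : K)⁻¹, hinv⟩ = (φ x)⁻¹ := by
    refine eq_inv_of_mul_eq_one_left ?_
    rw [← map_mul]
    have h2 : (⟨(x : K)⁻¹, hinv⟩ : V₁) * x = 1 := Subtype.ext (inv_mul_cancel₀ hx0)
    rw [h2, map_one]
  have h2 := hres.val_le_iff ⟨(x : K)⁻¹, hinv⟩
  rw [h1, map_inv₀, map_inv₀] at h2
  have h3 : V₂.valuation (φ x) ≠ 0 := by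
    rw [Valuation.ne_zero_iff]
    exact (hres.ne_zero_iff x).2 hx
  have h4 : V.valuation (x : K) ≠ 0 := by rwa [Valuation.ne_zero_iff]
  rw [inv_le_one₀ (zero_lt_iff.2 h3), inv_le_one₀ (zero_lt_iff.2 h4)] at h2
  exact h2

theorem IsRes.val_eq_iff (hres : IsRes (k := k) V V₁ φ V₂) (x : V₁)
    (hx : V₁.valuation (x : K) = 1) : V₂.valuation (φ x) = 1 ↔ V.valuation (x : K) = 1 := by
  rw [le_antisymm_iff, le_antisymm_iff, hres.val_le_iff, hres.le_val_iff x hx]

theorem val_lt_of_le' (hle : V ≤ V₁) {f : K} (h : V₁.valuation f < 1) :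
    V.valuation f < 1 := by
  by_contra h1
  push Not at h1
  have h0 : f ≠ 0 := by rintro rfl; simp at h1
  have h2 : f⁻¹ ∈ V := by
    rw [← V.valuation_le_one_iff, map_inv₀]
    exact inv_le_one_of_one_le₀ h1
  have h3 := (V₁.valuation_le_one_iff _).2 (hle h2)
  rw [map_inv₀, inv_le_one₀ (zero_lt_iff.2 ((Valuation.ne_zero_iff _).2 h0))] at h3
  exact absurd h (not_lt.2 h3)

theorem IsRes.val_lt_iff (hres : IsRes (k := k) V V₁ φ V₂) (x : V₁) :
    V₂.valuation (φ x) < 1 ↔ V.valuation (x : K) < 1 := by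
  rcases lt_or_eq_of_le ((V₁.valuation_le_one_iff (x : K)).2 x.2) with h | h
  · have h1 := (hres.eq_zero_iff x).2 h
    rw [h1, map_zero]
    exact ⟨fun _ => val_lt_of_le' hres.le h, fun _ => zero_lt_one⟩
  · rw [← not_le, ← not_le, hres.le_val_iff x h]

theorem IsRes.aeval_eq (hres : IsRes (k := k) V V₁ φ V₂) {ι : Type*} (z : ι → V₁)
    (P : MvPolynomial ι k) (hm : MvPolynomial.aeval (fun i => (z i : K)) P ∈ V₁) :
    φ ⟨MvPolynomial.aeval (fun i => (z i : K)) P, hm⟩ =
      MvPolynomial.aeval (fun i => φ (z i)) P := by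
  let c : k →+* V₁ := (algebraMap k K).codRestrict V₁ hres.const₁
  have h1 : V₁.subtype (MvPolynomial.eval₂ c z P) =
      MvPolynomial.aeval (fun i => (z i : K)) P := by
    rw [MvPolynomial.eval₂_comp_left, MvPolynomial.aeval_def]
    rfl
  have h2 : (⟨MvPolynomial.aeval (fun i => (z i : K)) P, hm⟩ : V₁) =
      MvPolynomial.eval₂ c z P := Subtype.ext h1.symm
  have h3 : φ.comp c = algebraMap k K₁ := by
    ext a
    exact hres.map_const a (hres.const₁ a)
  rw [h2, MvPolynomial.eval₂_comp_left, h3, MvPolynomial.aeval_def]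
  rfl

/-- Algebraically independent elements of the residue field lift. -/
theorem IsRes.indRes (hres : IsRes (k := k) V V₁ φ V₂) {ι : Type*} (z : ι → V₁)
    (h : AlgebraicIndependent k (fun i => φ (z i))) : IndRes k V₁ (fun i => (z i : K)) := by
  refine ⟨fun i => (z i).2, ?_⟩
  intro P hP
  have hm : MvPolynomial.aeval (fun i => (z i : K)) P ∈ V₁ :=
    aeval_mem_V hres.const₁ (fun i => (z i).2) P
  have h1 := (hres.eq_zero_iff ⟨_, hm⟩).2 hP
  rw [hres.aeval_eq z P hm] at h1
  rw [algebraicIndependent_iff] at h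
  exact h P h1

/-- Independent residues for `V` give independent residues for `V₂`. -/
theorem IsRes.indRes₂ (hres : IsRes (k := k) V V₁ φ V₂) {ι : Type*} (z : ι → V₁)
    (h : IndRes k V (fun i => (z i : K))) : IndRes k V₂ (fun i => φ (z i)) := by
  refine ⟨fun i => (hres.mem _).2 (h.1 i), ?_⟩
  intro P hP
  have hm : MvPolynomial.aeval (fun i => (z i : K)) P ∈ V₁ :=
    aeval_mem_V hres.const₁ (fun i => (z i).2) P
  rw [← hres.aeval_eq z P hm, hres.val_lt_iff] at hP
  exact h.2 P hP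

end res

/-- Algebraically independent families of any number of elements up to the transcendence degree. -/
theorem exists_algInd {E : Type u} [Field E] [Algebra k E] {n : ℕ}
    (h : (n : Cardinal) ≤ Algebra.trdeg k E) : ∃ y : Fin n → E, AlgebraicIndependent k y := by
  obtain ⟨ι, x, hx⟩ := exists_isTranscendenceBasis' k E
  rw [← hx.cardinalMk_eq_trdeg] at h
  have h1 : Cardinal.lift.{u} (Cardinal.mk (Fin n)) ≤ Cardinal.lift.{0} (Cardinal.mk ι) := by
    simpa using h
  obtain ⟨f⟩ := Cardinal.lift_mk_le'.1 h1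
  exact ⟨fun i => x (f i), hx.1.comp f f.injective⟩

theorem indVal_one {V : ValuationSubring K} (hV : V ≠ ⊤) : ∃ x : Fin 1 → K, IndVal V x := by
  obtain ⟨f, hf⟩ : ∃ f : K, f ∉ V := by
    by_contra h
    push Not at h
    exact hV (eq_top_iff.2 fun x _ => h x)
  have hv : 1 < V.valuation f := by
    rw [← not_le, V.valuation_le_one_iff]
    exact hf
  have hf0 : f ≠ 0 := by
    rintro rfl
    exact hf V.zero_mem
  refine ⟨fun _ => f, fun _ => hf0, ?_⟩
  intro e he
  rw [Finsupp.prod_fintype _ _ (by intro i; simp)] at he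
  simp only [Finset.univ_unique, Fin.default_eq_zero, Fin.isValue, Finset.prod_singleton,
    map_zpow₀] at he
  have h1 : e 0 = 0 := by
    by_contra h2
    rcases lt_or_gt_of_ne h2 with h3 | h3
    · have := zpow_lt_one_of_neg₀ hv h3
      exact absurd he this.ne
    · have := one_lt_zpow₀ hv h3
      exact absurd he this.ne'
  ext
  exact h1

/-- The transcendence degree of the residue field of a nontrivial valuation drops. -/
theorem trdeg_res_lt {V V₁ : ValuationSubring K} {K₁ : Type u} [Field K₁] [Algebra k K₁]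
    {φ : V₁ →+* K₁} {V₂ : ValuationSubring K₁} (hres : IsRes (k := k) V V₁ φ V₂) (h1 : V₁ ≠ ⊤)
    (hfin : Algebra.trdeg k K < Cardinal.aleph0) : Algebra.trdeg k K₁ < Algebra.trdeg k K := by
  obtain ⟨n, hn⟩ := Cardinal.lt_aleph0.1 hfin
  by_contra h
  push Not at h
  rw [hn] at h
  obtain ⟨y, hy⟩ := exists_algInd h
  choose z hz using fun i => hres.surj (y i)
  have hy' : AlgebraicIndependent k (fun i => φ (z i)) := by
    have : (fun i => φ (z i)) = y := funext hz
    rw [this]
    exact hy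
  obtain ⟨x, hx⟩ := indVal_one h1
  have h2 := abhyankar hres.const₁ hx (hres.indRes z hy')
  rw [hn] at h2
  have h3 : 1 + n ≤ n := by exact_mod_cast h2
  omega

end Pool.Agent.LU2
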