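import Pool.Agent.Lib.LU2_h15.Stage3B

/-! # LU2, C4c: stage 3, the monomials -/

set_option autoImplicit false

namespace Pool.Agent.LU2

universe u

variable {k K : Type u} [Field k] [Field K] [Algebra k K] {V V₁ : ValuationSubring K}
  {A A₁ A₂ : Subalgebra k K} {T U : Finset K} {g₁ g₂ b : K} {m m' : ℕ} {z : Fin m → K}
  {z' : Fin m' → K}

theorem prod_zpow_mem (R : Subalgebra k K) {n : ℕ} {x : Fin n → K} (hx : ∀ j, x j ∈ R)
    {e : Fin n → ℤ} (he : ∀ j, 0 ≤ e j) : ∏ j, x j ^ e j ∈ R := by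
  refine R.prod_mem fun j _ => ?_
  obtain ⟨a, ha⟩ := Int.eq_ofNat_of_zero_le (he j)
  rw [ha, zpow_natCast]
  exact R.pow_mem (hx j) _

theorem unit_zpow_mem {V : ValuationSubring K} {R : Subalgebra k K} {w : K}
    (hw : w ∈ locV V R) (h1 : V.valuation w = 1) (s : ℤ) :
    w ^ s ∈ locV V R ∧ V.valuation (w ^ s) = 1 := by
  constructor
  · obtain ⟨a, rfl | rfl⟩ := Int.eq_nat_or_neg s
    · rw [zpow_natCast]
      exact Subalgebra.pow_mem _ hw _
    · rw [zpow_neg, zpow_natCast, ← inv_pow]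
      exact Subalgebra.pow_mem _ (locV_inv hw h1) _
  · rw [map_zpow₀, h1, one_zpow]

theorem prod_zpow_sum {n : ℕ} {x : K} (hx : x ≠ 0) (f : Fin n → ℤ) :
    ∏ i, x ^ f i = x ^ ∑ i, f i := by
  classical
  have h : ∀ s : Finset (Fin n), ∏ i ∈ s, x ^ f i = x ^ ∑ i ∈ s, f i := by
    intro s
    induction s using Finset.induction_on with
    | empty => simp
    | insert i s hi ih => rw [Finset.prod_insert hi, Finset.sum_insert hi, ih, zpow_add₀ hx]
  exact h _

theorem prod_zpow_add {n : ℕ} {x : Fin n → K} (hx : ∀ j, x j ≠ 0) (e f : Fin n → ℤ) :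
    ∏ j, x j ^ (e j + f j) = (∏ j, x j ^ e j) * ∏ j, x j ^ f j := by
  rw [← Finset.prod_mul_distrib]
  exact Finset.prod_congr rfl fun j _ => zpow_add₀ (hx j) _ _

section

variable (hle : V ≤ V₁) (h1 : Stage1 V V₁ A A₁ T g₁ z b) (h2 : Stage2 V V₁ A₁ A₂ U g₂ z')
  {S : ℕ} (hS : ∀ f ∈ A₂, V₁.valuation f < 1 →
      ∃ a : Fin m → K, (∀ i, a i ∈ A₂) ∧ b * g₂ ^ S * f = ∑ i, a i * z i) (N : ℕ)

include h2 in
theorem z'_ne (j : Fin m') : z' j ≠ 0 := by
  intro h
  have := h2.zval j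
  rw [h, map_zero] at this
  exact zero_ne_one this

include hle h1 h2 hS in
/-- The main computation: an approximate monomial is a monomial. -/
theorem expand {t d w wd : K} {e ed : Fin m' → ℤ} (hd : d ∈ locV V A₂)
    (htd : t * d ∈ locV V A₂) (hw : w ∈ locV V A₂) (hw1 : V.valuation w = 1)
    (he : ∀ j, 0 ≤ e j) (_hed : ∀ j, 0 ≤ ed j) (hN : ∀ j, e j + ed j ≤ N)
    (hwd : wd ∈ locV V (newA A₂ z (bet b g₂ z' S N))) (hwd1 : V.valuation wd = 1)
    (hdd : d = (∏ j, z' j ^ ed j) * wd)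
    (hval : V₁.valuation (t - (∏ j, z' j ^ e j) * w) < 1) :
    ∃ w' ∈ locV V (newA A₂ z (bet b g₂ z' S N)), V.valuation w' = 1 ∧
      t = (∏ j, z' j ^ e j) * w' := by
  have hVn := newA_mem (S := S) hle h1 h2 N
  have hmono : locV V A₂ ≤ locV V (newA A₂ z (bet b g₂ z' S N)) := locV_mono (newA_le N)
  have hz'ne := z'_ne h2
  have hdV : ∀ f ∈ locV V A₂, f ∈ V := locV_mem (Stage2.le₂ h1 h2)
  have hpe : ∀ f : Fin m' → ℤ, (∀ j, 0 ≤ f j) → ∏ j, z' j ^ f j ∈ A₂ := fun f hf =>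
    prod_zpow_mem A₂ h2.zmem hf
  have hmem : (t - (∏ j, z' j ^ e j) * w) * d ∈ locV V A₂ := by
    rw [sub_mul]
    exact Subalgebra.sub_mem _ htd
      (Subalgebra.mul_mem _ (Subalgebra.mul_mem _ (le_locV _ (hpe e he)) hw) hd)
  have hlt : V₁.valuation ((t - (∏ j, z' j ^ e j) * w) * d) < 1 := by
    rw [map_mul]
    exact mul_lt_of_lt_of_le_one hval ((V₁.valuation_le_one_iff _).2 (hle (hdV d hd)))
  obtain ⟨a, ha, hae⟩ := pos_new hle h1 h2 hS N _ hmem hlt
  have hwd0 : wd ≠ 0 := by rintro rfl; simp at hwd1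
  have hp0 : ∀ f : Fin m' → ℤ, (∏ j, z' j ^ f j) ≠ 0 := fun f =>
    Finset.prod_ne_zero_iff.2 fun j _ => zpow_ne_zero _ (hz'ne j)
  have hd0 : d ≠ 0 := by rw [hdd]; exact mul_ne_zero (hp0 ed) hwd0
  have hpN : (∏ j, z' j) ^ N = (∏ j, z' j ^ e j) * (∏ j, z' j ^ ed j) *
      ∏ j, z' j ^ ((N : ℤ) - e j - ed j) := by
    rw [← prod_zpow_add hz'ne, ← prod_zpow_add hz'ne, ← Finset.prod_pow]
    refine Finset.prod_congr rfl fun j _ => ?_
    rw [← zpow_natCast]
    congr 1
    ring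
  have hsmall : V.valuation (∑ i, a i * (z i / bet b g₂ z' S N)) < 1 := by
    refine Valuation.map_sum_lt _ one_ne_zero fun i _ => ?_
    rw [map_mul]
    exact mul_lt_of_le_one_of_lt ((V.valuation_le_one_iff _).2 (hdV _ (ha i)))
      (zbet_lt hle h1 h2 S N i)
  have hq : ∏ j, z' j ^ ((N : ℤ) - e j - ed j) ∈ A₂ :=
    hpe _ fun j => by have := hN j; omega
  refine ⟨w + (∏ j, z' j ^ ((N : ℤ) - e j - ed j)) * wd⁻¹ *
    ∑ i, a i * (z i / bet b g₂ z' S N), ?_, ?_, ?_⟩
  · refine Subalgebra.add_mem _ (hmono hw) (Subalgebra.mul_mem _ (Subalgebra.mul_mem _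
      (hmono (le_locV _ hq)) (locV_inv hwd hwd1)) (Subalgebra.sum_mem _ fun i _ =>
        Subalgebra.mul_mem _ (hmono (ha i)) (le_locV _ (zbet_mem N i))))
  · rw [Valuation.map_add_eq_of_lt_left]
    · exact hw1
    · rw [hw1, map_mul]
      refine mul_lt_of_le_one_of_lt ?_ hsmall
      rw [map_mul, map_inv₀, hwd1, inv_one, mul_one]
      exact (V.valuation_le_one_iff _).2 (Stage2.le₂ h1 h2 _ hq)
  · have h3 : t = (∏ j, z' j ^ e j) * w +
        (t - (∏ j, z' j ^ e j) * w) * d / d := by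
      rw [mul_div_assoc, div_self hd0]
      ring
    rw [h3, hae, hpN]
    have h4 : (∏ j, z' j ^ e j) * (∏ j, z' j ^ ed j) *
        (∏ j, z' j ^ ((N : ℤ) - e j - ed j)) * (∑ i, a i * (z i / bet b g₂ z' S N)) / d =
        (∏ j, z' j ^ e j) * ((∏ j, z' j ^ ((N : ℤ) - e j - ed j)) * wd⁻¹ *
          ∑ i, a i * (z i / bet b g₂ z' S N)) := by
      rw [hdd]
      have := hp0 ed
      field_simp
    rw [h4]
    ring

theorem prod_newz (β : K) (e : Fin m → ℤ) (e' : Fin m' → ℤ) :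
    ∏ i, newz z z' β i ^ (Fin.append e e' : Fin (m + m') → ℤ) i =
      (∏ i, (z i / β) ^ e i) * ∏ j, z' j ^ e' j := by
  rw [Fin.prod_univ_add]
  simp only [newz, Fin.append_left, Fin.append_right]

/-- Monomials in the `z'` only. -/
theorem mono_of_z' {R : Subalgebra k K} {β t w : K} {e : Fin m' → ℤ} (hw : w ∈ R)
    (hw1 : V.valuation w = 1) (ht : t = (∏ j, z' j ^ e j) * w)
    (ha : V.valuation t ≤ 1 → ∀ j, 0 ≤ e j) (hb : 1 ≤ V.valuation t → ∀ j, e j ≤ 0) :
    Mono V R (newz z z' β) t := by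
  refine ⟨Fin.append 0 e, w, hw, hw1, ?_, ?_, ?_⟩
  · rw [prod_newz]
    simp only [Pi.zero_apply, zpow_zero, Finset.prod_const_one, one_mul]
    exact ht
  · intro h i
    refine Fin.addCases (fun i => ?_) (fun j => ?_) i
    · rw [Fin.append_left]
      exact le_rfl
    · rw [Fin.append_right]
      exact ha h j
  · intro h i
    refine Fin.addCases (fun i => ?_) (fun j => ?_) i
    · rw [Fin.append_left]
      exact le_rfl
    · rw [Fin.append_right]
      exact hb h j

/-- Stage 3. -/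
theorem stage3 (hle : V ≤ V₁) (h1 : Stage1 V V₁ A A₁ T g₁ z b)
    (h2 : Stage2 V V₁ A₁ A₂ U g₂ z') (hb : b ∈ U)
    (hU : ∀ t, (t = g₁ ∨ t ∈ T) → ∃ e : Fin m → ℤ, ∃ c ∈ A₁, ∃ d ∈ A₁, c ∈ U ∧ d ∈ U ∧
      V₁.valuation c = 1 ∧ V₁.valuation d = 1 ∧ t = (∏ i, z i ^ e i) * (c / d) ∧
      (V₁.valuation t ≤ 1 → ∀ i, 0 ≤ e i) ∧ (1 ≤ V₁.valuation t → ∀ i, e i ≤ 0))
    (hU' : ∀ t, (t = g₁ ∨ t ∈ T) → V₁.valuation t = 1 → t ∈ U ∧ t⁻¹ ∈ U)
    (hg₂ : g₂ ∈ A₁) : LUat V A T := by
  classical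
  obtain ⟨S, hS⟩ := exists_S hle h1 h2
  have hmono := h2.mono
  choose! e w hw hw1 hval hpos hneg using hmono
  -- the bound
  let N₀ : ℕ := (insert g₂ U).sup fun t => Finset.univ.sup fun j => (e t j).toNat
  have hN₀ : ∀ t, (t = g₂ ∨ t ∈ U) → ∀ j, e t j ≤ N₀ := by
    intro t ht j
    have h3 : (e t j).toNat ≤ N₀ := by
      refine le_trans ?_ (Finset.le_sup (f := fun t => Finset.univ.sup fun j => (e t j).toNat)
        (Finset.mem_insert.2 ht))
      exact Finset.le_sup (f := fun j => (e t j).toNat) (Finset.mem_univ j)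
    omega
  obtain ⟨N, hNdef⟩ : ∃ N : ℕ, N = N₀ + N₀ := ⟨_, rfl⟩
  have hVn := newA_mem (S := S) hle h1 h2 N
  have hz'ne := z'_ne h2
  have hA₁V : ∀ c ∈ A₁, V.valuation c ≤ 1 := fun c hc =>
    (V.valuation_le_one_iff _).2 (h1.le c hc)
  have hA12 := h2.chart.le
  -- elements of `A₁ ∩ U` that are `V₁`-units
  have hci : ∀ c, (c = g₂ ∨ c ∈ U) → c ∈ A₁ →
      ∃ w' ∈ locV V (newA A₂ z (bet b g₂ z' S N)), V.valuation w' = 1 ∧
        c = (∏ j, z' j ^ e c j) * w' := by
    intro c hc hcA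
    have he := hpos c hc (hA₁V c hcA)
    refine expand hle h1 h2 hS N (t := c) (d := 1) (w := w c) (wd := 1) (e := e c)
      (ed := 0) (Subalgebra.one_mem _) (by rw [mul_one]; exact le_locV _ (hA12 hcA))
      (hw c hc) (hw1 c hc) he (fun _ => le_rfl) (fun j => ?_) (Subalgebra.one_mem _) (map_one _)
      (by simp) (hval c hc)
    have := hN₀ c hc j
    simp only [Pi.zero_apply]
    omega
  have hcpos : ∀ c, (c = g₂ ∨ c ∈ U) → c ∈ A₁ → ∀ j, 0 ≤ e c j := fun c hc hcA =>
    hpos c hc (hA₁V c hcA)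
  have hcM : ∀ c, (c = g₂ ∨ c ∈ U) → c ∈ A₁ →
      Mono V (locV V (newA A₂ z (bet b g₂ z' S N))) (newz z z' (bet b g₂ z' S N)) c := by
    intro c hc hcA
    obtain ⟨w', hw', hw1', he'⟩ := hci c hc hcA
    exact mono_of_z' hw' hw1' he' (hpos c hc) (hneg c hc)
  -- `β`
  obtain ⟨wb, hwb, hwb1, hbe⟩ := hci b (Or.inr hb) h1.bmem
  obtain ⟨wg, hwg, hwg1, hge⟩ := hci g₂ (Or.inl rfl) hg₂
  have hβ : bet b g₂ z' S N = (∏ j, z' j ^ (e b j + S * e g₂ j + N)) * (wb * wg ^ S) := by
    have h3 : ∏ j, z' j ^ (e b j + S * e g₂ j + N) =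
        (∏ j, z' j ^ e b j) * (∏ j, z' j ^ e g₂ j) ^ S * (∏ j, z' j) ^ N := by
      rw [← Finset.prod_pow, ← Finset.prod_pow, ← Finset.prod_mul_distrib,
        ← Finset.prod_mul_distrib]
      refine Finset.prod_congr rfl fun j _ => ?_
      rw [zpow_add₀ (hz'ne j), zpow_add₀ (hz'ne j), zpow_natCast, mul_comm (S : ℤ), zpow_mul,
        zpow_natCast]
    rw [h3, bet]
    nth_rewrite 1 [hbe]
    nth_rewrite 1 [hge]
    ring
  have hwβ : wb * wg ^ S ∈ locV V (newA A₂ z (bet b g₂ z' S N)) :=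
    Subalgebra.mul_mem _ hwb (Subalgebra.pow_mem _ hwg _)
  have hwβ1 : V.valuation (wb * wg ^ S) = 1 := by
    rw [map_mul, map_pow, hwb1, hwg1, one_pow, one_mul]
  have hB0 : ∀ j, (N : ℤ) ≤ e b j + S * e g₂ j + N := by
    intro j
    have h3 := hcpos b (Or.inr hb) h1.bmem j
    have h4 := hcpos g₂ (Or.inl rfl) hg₂ j
    have h5 : 0 ≤ (S : ℤ) * e g₂ j := mul_nonneg (Int.natCast_nonneg _) h4
    omega
  have hβV : V.valuation (bet b g₂ z' S N) ≤ 1 :=
    (V.valuation_le_one_iff _).2 (Stage2.le₂ h1 h2 _ (bet_mem h1 h2 S N))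
  -- Mono of β: from the product
  have hβM : Mono V (locV V (newA A₂ z (bet b g₂ z' S N))) (newz z z' (bet b g₂ z' S N))
      (bet b g₂ z' S N) := by
    have hbV : V.valuation b ≤ 1 := hA₁V b h1.bmem
    have hgV : V.valuation g₂ ≤ 1 := hA₁V g₂ hg₂
    have hne := newz_ne (S := S) hle h1 h2 N
    have hz'M : ∀ s : Finset (Fin m'), Mono V (locV V (newA A₂ z (bet b g₂ z' S N)))
        (newz z z' (bet b g₂ z' S N)) (∏ j ∈ s, z' j) ∧ V.valuation (∏ j ∈ s, z' j) ≤ 1 := by
      intro s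
      induction s using Finset.induction_on with
      | empty => simpa using Mono.one
      | insert j s hj ih =>
        rw [Finset.prod_insert hj]
        have h3 : Mono V (locV V (newA A₂ z (bet b g₂ z' S N)))
            (newz z z' (bet b g₂ z' S N)) (z' j) := by
          have := Mono.par (isPar_new hle h1 h2 hS N) (Fin.natAdd m j)
          rwa [newz, Fin.append_right] at this
        refine ⟨Mono.mul hne h3 ih.1 (h2.zpos j).le ih.2, ?_⟩
        rw [map_mul]
        exact mul_le_one' (h2.zpos j).le ih.2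
    have h3 := hz'M Finset.univ
    have h4 : Mono V (locV V (newA A₂ z (bet b g₂ z' S N))) (newz z z' (bet b g₂ z' S N))
        (b * g₂ ^ S) := Mono.mul hne (hcM b (Or.inr hb) h1.bmem)
      (Mono.pow hne (hcM g₂ (Or.inl rfl) hg₂) hgV S) hbV (by
        rw [map_pow]; exact pow_le_one' hgV S)
    have h5 : Mono V (locV V (newA A₂ z (bet b g₂ z' S N))) (newz z z' (bet b g₂ z' S N))
        (b * g₂ ^ S * (∏ j, z' j) ^ N) :=
      Mono.mul hne h4 (Mono.pow hne h3.1 h3.2 N) (by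
        rw [map_mul, map_pow]; exact mul_le_one' hbV (pow_le_one' hgV S)) (by
        rw [map_pow]; exact pow_le_one' h3.2 N)
    exact h5
  -- elements of value one for `V₁`
  have h1M : ∀ t c d : K, t ∈ U → c ∈ A₁ → d ∈ A₁ → c ∈ U → d ∈ U → V₁.valuation c = 1 →
      V₁.valuation d = 1 → t = c / d → V.valuation t ≤ 1 →
      Mono V (locV V (newA A₂ z (bet b g₂ z' S N))) (newz z z' (bet b g₂ z' S N)) t := by
    intro t c d htU hcA hdA hcU hdU hc1 hd1 htcd ht1
    obtain ⟨wd, hwd, hwd1, hde⟩ := hci d (Or.inr hdU) hdA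
    have hd0 : d ≠ 0 := by rintro rfl; simp at hd1
    have htd : t * d = c := by rw [htcd]; exact div_mul_cancel₀ _ hd0
    obtain ⟨w', hw', hw1', he'⟩ := expand hle h1 h2 hS N (t := t) (d := d) (w := w t)
      (wd := wd) (e := e t) (ed := e d) (le_locV _ (hA12 hdA))
      (by rw [htd]; exact le_locV _ (hA12 hcA)) (hw t (Or.inr htU)) (hw1 t (Or.inr htU))
      (hpos t (Or.inr htU) ht1) (hcpos d (Or.inr hdU) hdA) (fun j => by
        have h3 := hN₀ t (Or.inr htU) j
        have h4 := hN₀ d (Or.inr hdU) j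
        omega) hwd hwd1 hde (hval t (Or.inr htU))
    exact mono_of_z' hw' hw1' he' (hpos t (Or.inr htU)) (hneg t (Or.inr htU))
  have hinv : ∀ f ∈ locV V (newA A₂ z (bet b g₂ z' S N)), V.valuation f = 1 →
      f⁻¹ ∈ locV V (newA A₂ z (bet b g₂ z' S N)) := fun f hf hf1 => locV_inv hf hf1
  have hTM : ∀ t, (t = g₁ ∨ t ∈ T) →
      Mono V (locV V (newA A₂ z (bet b g₂ z' S N))) (newz z z' (bet b g₂ z' S N)) t := by
    intro t ht
    obtain ⟨f, c, hcA, d, hdA, hcU, hdU, hc1, hd1, htf, hf1, hf2⟩ := hU t ht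
    have hc0 : c ≠ 0 := by rintro rfl; simp at hc1
    have hd0 : d ≠ 0 := by rintro rfl; simp at hd1
    have ht0 : t ≠ 0 := by
      rw [htf]
      exact mul_ne_zero (Finset.prod_ne_zero_iff.2 fun i _ => zpow_ne_zero _ (h1.zne i))
        (div_ne_zero hc0 hd0)
    by_cases ht1 : V₁.valuation t = 1
    · obtain ⟨htU, htU'⟩ := hU' t ht ht1
      have hf0 : ∀ i, f i = 0 := fun i => le_antisymm (hf2 ht1.ge i) (hf1 ht1.le i)
      have htcd : t = c / d := by
        rw [htf]
        simp [hf0]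
      rcases le_total (V.valuation t) 1 with hv | hv
      · exact h1M t c d htU hcA hdA hcU hdU hc1 hd1 htcd hv
      · have h3 : V.valuation t⁻¹ ≤ 1 := by
          rw [map_inv₀]
          exact inv_le_one_of_one_le₀ hv
        have h4 := h1M t⁻¹ d c htU' hdA hcA hdU hcU hd1 hc1 (by rw [htcd, inv_div]) h3
        have h5 := Mono.inv hinv h4
        rwa [inv_inv] at h5
    · obtain ⟨wc, hwc, hwc1, hce⟩ := hci c (Or.inr hcU) hcA
      obtain ⟨wd, hwd, hwd1, hde⟩ := hci d (Or.inr hdU) hdA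
      have hβ0 := bet_ne h1 h2 S N
      obtain ⟨hs1, hs2⟩ := unit_zpow_mem hwβ hwβ1 (∑ i, f i)
      refine ⟨Fin.append f (fun j => (∑ i, f i) * (e b j + S * e g₂ j + N) + (e c j - e d j)),
        (wb * wg ^ S) ^ (∑ i, f i) * (wc * wd⁻¹), ?_, ?_, ?_, ?_, ?_⟩
      · exact Subalgebra.mul_mem _ hs1 (Subalgebra.mul_mem _ hwc (hinv wd hwd hwd1))
      · rw [map_mul, hs2, map_mul, map_inv₀, hwc1, hwd1, inv_one, one_mul, one_mul]
      · rw [prod_newz, prod_zpow_add hz'ne]
        have h3 : ∏ i, z i ^ f i = (∏ i, (z i / bet b g₂ z' S N) ^ f i) *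
            (bet b g₂ z' S N) ^ (∑ i, f i) := by
          rw [← prod_zpow_sum hβ0, ← Finset.prod_mul_distrib]
          refine Finset.prod_congr rfl fun i _ => ?_
          rw [← mul_zpow, div_mul_cancel₀ _ hβ0]
        have h4 : (bet b g₂ z' S N) ^ (∑ i, f i) =
            (∏ j, z' j ^ ((∑ i, f i) * (e b j + S * e g₂ j + N))) *
              (wb * wg ^ S) ^ (∑ i, f i) := by
          nth_rewrite 1 [hβ]
          rw [mul_zpow, ← Finset.prod_zpow]
          congr 1
          refine Finset.prod_congr rfl fun j _ => ?_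
          rw [← zpow_mul, mul_comm]
        have h5 : ∏ j, z' j ^ (e c j - e d j) = (∏ j, z' j ^ e c j) / ∏ j, z' j ^ e d j := by
          rw [← Finset.prod_div_distrib]
          exact Finset.prod_congr rfl fun j _ => zpow_sub₀ (hz'ne j) _ _
        have h6 : c / d = (∏ j, z' j ^ (e c j - e d j)) * (wc * wd⁻¹) := by
          rw [h5]
          nth_rewrite 1 [hce]
          nth_rewrite 1 [hde]
          rw [mul_div_mul_comm, div_eq_mul_inv wc wd]
        rw [htf, h3, h4, h6]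
        ring
      · intro hv i
        have hv1 : V₁.valuation t ≤ 1 := val_le_one_of_le hle hv
        have hf := hf1 hv1
        refine Fin.addCases (fun i => ?_) (fun j => ?_) i
        · rw [Fin.append_left]
          exact hf i
        · rw [Fin.append_right]
          have hs : 1 ≤ ∑ i, f i := by
            by_contra hs
            have hs0 : ∑ i, f i = 0 := le_antisymm (by omega)
              (Finset.sum_nonneg fun i _ => hf i)
            have hf0 : ∀ i, f i = 0 := fun i =>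
              (Finset.sum_eq_zero_iff_of_nonneg fun i _ => hf i).1 hs0 i (Finset.mem_univ i)
            apply ht1
            rw [htf]
            simp [hf0, hc1, hd1]
          have h3 := hB0 j
          have h4 := hcpos c (Or.inr hcU) hcA j
          have h5 := hN₀ d (Or.inr hdU) j
          nlinarith
      · intro hv i
        have hv1 : 1 ≤ V₁.valuation t := by
          have h3 : V.valuation t⁻¹ ≤ 1 := by
            rw [map_inv₀]
            exact inv_le_one_of_one_le₀ hv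
          have h4 := val_le_one_of_le hle h3
          rw [map_inv₀, inv_le_one₀ (by rwa [Valuation.pos_iff])] at h4
          exact h4
        have hf := hf2 hv1
        refine Fin.addCases (fun i => ?_) (fun j => ?_) i
        · rw [Fin.append_left]
          exact hf i
        · rw [Fin.append_right]
          have hs : ∑ i, f i ≤ -1 := by
            by_contra hs
            have hs0 : ∑ i, f i = 0 := le_antisymm
              (Finset.sum_nonpos fun i _ => hf i) (by omega)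
            have hf0 : ∀ i, f i = 0 := fun i =>
              (Finset.sum_eq_zero_iff_of_nonpos fun i _ => hf i).1 hs0 i (Finset.mem_univ i)
            apply ht1
            rw [htf]
            simp [hf0, hc1, hd1]
          have h3 := hB0 j
          have h4 := hcpos d (Or.inr hdU) hdA j
          have h5 := hN₀ c (Or.inr hcU) j
          nlinarith
  -- assembly
  have h3 : LUat V A₂ (insert g₂ (insert g₁ T)) := by
    refine ⟨_, _, isChart_new hle h1 h2 N, m + m', _, isPar_new hle h1 h2 hS N, hβM, ?_⟩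
    intro t ht
    rcases Finset.mem_insert.1 ht with rfl | ht
    · exact hcM t (Or.inl rfl) hg₂
    · exact hTM t (by simpa using ht)
  have h4 : LUat V A₁ (insert g₁ T) := LUat.of_chart h1.le h2.chart
    (Finset.mem_insert_self _ _) (fun t ht => Finset.mem_insert_of_mem ht) h3
  have hA : ∀ a ∈ A, a ∈ V := fun a ha => h1.le a (h1.chart.le ha)
  exact LUat.of_chart hA h1.chart (Finset.mem_insert_self _ _)
    (fun t ht => Finset.mem_insert_of_mem ht) h4

end

end Pool.Agent.LU2
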