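import Pool.Agent.Lib.LU2_h15.Stages

/-! # LU2, C2: stage 1 -/

set_option autoImplicit false

namespace Pool.Agent.LU2

universe u

variable {k K : Type u} [Field k] [Field K] [Algebra k K]

namespace C2

/-- Common denominators. -/
theorem exists_den {V₁ : ValuationSubring K} {S : Subalgebra k K} (F : Finset K)
    (hF : ∀ f ∈ F, f ∈ locV V₁ S) :
    ∃ b ∈ S, V₁.valuation b = 1 ∧ ∀ f ∈ F, b * f ∈ S := by
  classical
  induction F using Finset.induction_on with
  | empty => exact ⟨1, S.one_mem, map_one _, fun f hf => absurd hf (Finset.notMem_empty _)⟩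
  | insert x F hx ih =>
    obtain ⟨b, hb, hb1, hbF⟩ := ih fun f hf => hF f (Finset.mem_insert_of_mem hf)
    obtain ⟨a, ha, d, hd, hd1, rfl⟩ := hF x (Finset.mem_insert_self _ _)
    have hd0 : d ≠ 0 := by rintro rfl; simp at hd1
    refine ⟨b * d, S.mul_mem hb hd, by rw [map_mul, hb1, hd1, one_mul], fun f hf => ?_⟩
    rcases Finset.mem_insert.1 hf with rfl | hf
    · have h1 : b * d * (a / d) = b * a := by
        field_simp
      rw [h1]
      exact S.mul_mem hb ha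
    · have h1 : b * d * f = d * (b * f) := by ring
      rw [h1]
      exact S.mul_mem hd (hbF f hf)

/-- Units of `locV` and powers. -/
theorem zpow_mem {V₁ : ValuationSubring K} {S : Subalgebra k K} {d : K} (hd : d ∈ locV V₁ S)
    (hd1 : V₁.valuation d = 1) (e : ℤ) : d ^ e ∈ locV V₁ S := by
  cases e with
  | ofNat n =>
    rw [Int.ofNat_eq_natCast, zpow_natCast]
    exact (locV V₁ S).pow_mem hd n
  | negSucc n =>
    rw [zpow_negSucc, ← inv_pow]
    exact (locV V₁ S).pow_mem (locV_inv hd hd1) _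

/-- Change of the parameters by units, and of the monomial by a unit. -/
theorem mono_conv {V₁ : ValuationSubring K} {S : Subalgebra k K} {m : ℕ} {z z' d : Fin m → K}
    (hz : ∀ i, z i ≠ 0) (hd : ∀ i, d i ∈ S) (hd1 : ∀ i, V₁.valuation (d i) = 1)
    (hz' : ∀ i, z' i = z i * d i) {t s u : K} (hu : u ∈ locV V₁ S) (hu1 : V₁.valuation u = 1)
    (hs : s = t * u) (ht : Mono V₁ (locV V₁ S) z t) :
    ∃ e : Fin m → ℤ, ∃ c ∈ S, ∃ q ∈ S, V₁.valuation c = 1 ∧
      V₁.valuation q = 1 ∧ s = (∏ i, z' i ^ e i) * (c / q) ∧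
      (V₁.valuation s ≤ 1 → ∀ i, 0 ≤ e i) ∧ (1 ≤ V₁.valuation s → ∀ i, e i ≤ 0) := by
  obtain ⟨e, w, hw, hw1, htw, h1, h2⟩ := ht
  have hd0 : ∀ i, d i ≠ 0 := by
    intro i h
    have := hd1 i
    rw [h] at this
    simp at this
  have hval : V₁.valuation s = V₁.valuation t := by rw [hs, map_mul, hu1, mul_one]
  have hprod : (∏ i, d i ^ (-e i)) ∈ locV V₁ S :=
    (locV V₁ S).prod_mem fun i _ => zpow_mem (le_locV S (hd i)) (hd1 i) _
  have hprod1 : V₁.valuation (∏ i, d i ^ (-e i)) = 1 := by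
    rw [map_prod]
    refine Finset.prod_eq_one fun i _ => ?_
    rw [map_zpow₀, hd1 i, one_zpow]
  obtain ⟨c, hc, q, hq, hq1, hcq⟩ := (locV V₁ S).mul_mem ((locV V₁ S).mul_mem hprod hw) hu
  have hcq1 : V₁.valuation (c / q) = 1 := by
    rw [← hcq, map_mul, map_mul, hprod1, hw1, hu1, one_mul, one_mul]
  refine ⟨e, c, hc, q, hq, ?_, hq1, ?_, ?_, ?_⟩
  · rwa [map_div₀, hq1, div_one] at hcq1
  · rw [← hcq, hs, htw]
    have h3 : ∏ i, z' i ^ e i = (∏ i, z i ^ e i) * ∏ i, d i ^ e i := by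
      rw [← Finset.prod_mul_distrib]
      refine Finset.prod_congr rfl fun i _ => ?_
      rw [hz' i, mul_zpow]
    have h4 : (∏ i, d i ^ e i) * (∏ i, d i ^ (-e i)) = 1 := by
      rw [← Finset.prod_mul_distrib]
      refine Finset.prod_eq_one fun i _ => ?_
      rw [zpow_neg, mul_inv_cancel₀ (zpow_ne_zero _ (hd0 i))]
    rw [h3]
    calc (∏ i, z i ^ e i) * w * u
        = (∏ i, z i ^ e i) * ((∏ i, d i ^ e i) * (∏ i, d i ^ (-e i))) * w * u := by
          rw [h4, mul_one]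
      _ = _ := by ring
  · rw [hval]
    exact h1
  · rw [hval]
    exact h2

end C2

/-- Stage 1 exists. (`IsChart.refine`; clear the denominators of the parameters; `b` from a finite
set of generators of the ideal of positive `V₁`-value of the noetherian ring `A₁`.) -/
theorem exists_stage1 {V V₁ : ValuationSubring K} (hle : V ≤ V₁) (h₁ : LU k V₁)
    (A : Subalgebra k K) (hfg : A.FG) (hA : ∀ a ∈ A, a ∈ V) (hfrac : IsFrac A) (T : Finset K)
    (hT : ∀ t ∈ T, t ≠ 0) :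
    ∃ (A₁ : Subalgebra k K) (g₁ : K) (m : ℕ) (z : Fin m → K) (b : K),
      Stage1 V V₁ A A₁ T g₁ z b := by
  classical
  obtain ⟨A', g, hch, m, z, hpar, hg, hmT⟩ := h₁ A hfg (fun a ha => hle (hA a ha)) hfrac T hT
  obtain ⟨A₁, g₁, hch₁, hloc, hgg, hgg1⟩ := hch.refine hle
  rw [← hloc] at hpar hg hgg hmT
  have hA₁fg : A₁.FG := hch₁.fg hfg
  have hA₁V : ∀ a ∈ A₁, a ∈ V := hch₁.mem hA
  have hA₁V₁ : ∀ a ∈ A₁, a ∈ V₁ := fun a ha => hle (hA₁V a ha)
  -- the parameters
  have hz1 := hpar.mem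
  choose a ha d hd hd1 hzad using hz1
  have hd0 : ∀ i, d i ≠ 0 := by
    intro i h
    have := hd1 i
    rw [h] at this
    simp at this
  have hza : ∀ i, a i = z i * d i := by
    intro i
    rw [hzad i, div_mul_cancel₀ _ (hd0 i)]
  -- the ideal of positive value
  have hft : Algebra.FiniteType k A₁ := (Subalgebra.fg_iff_finiteType _).1 hA₁fg
  have hnoe : IsNoetherianRing A₁ := Algebra.FiniteType.isNoetherianRing k A₁
  obtain ⟨P, hP⟩ := (isNoetherianRing_iff_ideal_fg A₁).1 hnoe (PI V₁ A₁ hA₁V₁)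
  have hPpos : ∀ f ∈ P, V₁.valuation (f : K) < 1 := by
    intro f hf
    have h1 : f ∈ PI V₁ A₁ hA₁V₁ := by
      rw [← hP]
      exact Ideal.subset_span hf
    exact h1
  have hex : ∀ f : A₁, ∃ q : Fin m → K, f ∈ P → (∀ i, q i ∈ locV V₁ A₁) ∧
      (f : K) = ∑ i, q i * a i := by
    intro f
    by_cases hf : f ∈ P
    · obtain ⟨q, hq, hqf⟩ := hpar.gen (f : K) (le_locV A₁ f.2) (hPpos f hf)
      refine ⟨fun i => q i * (d i)⁻¹, fun _ => ⟨fun i => ?_, ?_⟩⟩
      · exact (locV V₁ A₁).mul_mem (hq i) (locV_inv (le_locV A₁ (hd i)) (hd1 i))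
      · rw [hqf]
        refine Finset.sum_congr rfl fun i _ => ?_
        rw [hza i]
        have := hd0 i
        field_simp
    · exact ⟨fun _ => 0, fun h => absurd h hf⟩
  choose q hq using hex
  obtain ⟨b, hb, hb1, hbF⟩ := C2.exists_den (V₁ := V₁) (S := A₁)
    (P.biUnion fun f => Finset.univ.image (q f)) (by
      intro x hx
      obtain ⟨f, hf, hx⟩ := Finset.mem_biUnion.1 hx
      obtain ⟨i, -, rfl⟩ := Finset.mem_image.1 hx
      exact (hq f hf).1 i)
  have hbq : ∀ f ∈ P, ∀ i, b * q f i ∈ A₁ := fun f hf i =>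
    hbF _ (Finset.mem_biUnion.2 ⟨f, hf, Finset.mem_image_of_mem _ (Finset.mem_univ i)⟩)
  have hbgen : ∀ f : A₁, f ∈ Ideal.span (P : Set A₁) →
      ∃ a' : Fin m → K, (∀ i, a' i ∈ A₁) ∧ b * (f : K) = ∑ i, a' i * a i := by
    intro f hf
    refine Submodule.span_induction ?_ ?_ ?_ ?_ hf
    · intro x hx
      refine ⟨fun i => b * q x i, fun i => hbq x hx i, ?_⟩
      rw [(hq x hx).2, Finset.mul_sum]
      refine Finset.sum_congr rfl fun i _ => ?_
      ring
    · exact ⟨fun _ => 0, fun _ => A₁.zero_mem, by simp⟩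
    · rintro x y _ _ ⟨a₁, h1, h2⟩ ⟨a₂, h3, h4⟩
      refine ⟨fun i => a₁ i + a₂ i, fun i => A₁.add_mem (h1 i) (h3 i), ?_⟩
      push_cast
      rw [mul_add, h2, h4, ← Finset.sum_add_distrib]
      refine Finset.sum_congr rfl fun i _ => ?_
      ring
    · rintro c x _ ⟨a₁, h1, h2⟩
      refine ⟨fun i => (c : K) * a₁ i, fun i => A₁.mul_mem c.2 (h1 i), ?_⟩
      rw [smul_eq_mul]
      push_cast
      calc b * ((c : K) * (x : K)) = (c : K) * (b * (x : K)) := by ring
        _ = _ := by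
          rw [h2, Finset.mul_sum]
          refine Finset.sum_congr rfl fun i _ => ?_
          ring
  refine ⟨A₁, g₁, m, a, b, hA₁fg, hA₁V, hch₁, ha, ?_, ?_, hpar.dim, hb, hb1, ?_, ?_⟩
  · intro i
    rw [hza i]
    exact mul_ne_zero (hpar.ne i) (hd0 i)
  · intro i
    rw [hza i, map_mul, hd1 i, mul_one]
    exact hpar.pos i
  · intro f hf hf1
    refine hbgen ⟨f, hf⟩ ?_
    have h1 : (⟨f, hf⟩ : A₁) ∈ PI V₁ A₁ hA₁V₁ := hf1
    rw [← hP] at h1
    exact h1
  · rintro t (rfl | ht)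
    · have hg0 : g ≠ 0 := by
        rintro rfl
        rw [zero_div, map_zero] at hgg1
        exact zero_ne_one hgg1
      refine C2.mono_conv hpar.ne hd hd1 hza (locV_inv hgg hgg1) (by
        rw [map_inv₀, hgg1, inv_one]) ?_ hg
      rw [inv_div]
      field_simp
    · refine C2.mono_conv hpar.ne hd hd1 hza (locV V₁ A₁).one_mem (map_one _) ?_ (hmT t ht)
      rw [mul_one]

end Pool.Agent.LU2
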