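import Pool.Agent.Lib.LU2_h15.Stages

/-! # LU2, C3: stage 2 -/

set_option autoImplicit false

namespace Pool.Agent.LU2

universe u

namespace Stage2Aux

/-- The value is one exactly for the units. -/
theorem val_eq_one_iff {F : Type*} [Field F] (W : ValuationSubring F) {x : F} (hx : x ≠ 0) :
    W.valuation x = 1 ↔ x ∈ W ∧ x⁻¹ ∈ W := by
  rw [← W.valuation_le_one_iff, ← W.valuation_le_one_iff, map_inv₀]
  have h0 : W.valuation x ≠ 0 := (Valuation.ne_zero_iff _).2 hx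
  constructor
  · intro h
    rw [h, inv_one]
    exact ⟨le_rfl, le_rfl⟩
  · rintro ⟨h1, h2⟩
    refine le_antisymm h1 ?_
    exact (inv_le_one₀ (zero_lt_iff.2 h0)).1 h2

section

variable {k K : Type u} [Field k] [Field K]
variable {V V₁ : ValuationSubring K} {K₁ : Type u} [Field K₁] [Algebra k K₁]
  {φ : V₁ →+* K₁} {V₂ : ValuationSubring K₁} {L : IntermediateField k K₁}

/-- `f` reduces to `l`. -/
def Rel (φ : V₁ →+* K₁) (L : IntermediateField k K₁) (f : K) (l : L) : Prop :=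
  ∃ h : f ∈ V₁, φ ⟨f, h⟩ = (l : K₁)

theorem Rel.add {f g : K} {c d : L} (h1 : Rel φ L f c) (h2 : Rel φ L g d) :
    Rel φ L (f + g) (c + d) := by
  obtain ⟨hf, e1⟩ := h1
  obtain ⟨hg, e2⟩ := h2
  refine ⟨V₁.add_mem _ _ hf hg, ?_⟩
  have : (⟨f + g, V₁.add_mem _ _ hf hg⟩ : V₁) = ⟨f, hf⟩ + ⟨g, hg⟩ := rfl
  rw [this, map_add, e1, e2]
  rfl

theorem Rel.mul {f g : K} {c d : L} (h1 : Rel φ L f c) (h2 : Rel φ L g d) :
    Rel φ L (f * g) (c * d) := by
  obtain ⟨hf, e1⟩ := h1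
  obtain ⟨hg, e2⟩ := h2
  refine ⟨V₁.mul_mem _ _ hf hg, ?_⟩
  have : (⟨f * g, V₁.mul_mem _ _ hf hg⟩ : V₁) = ⟨f, hf⟩ * ⟨g, hg⟩ := rfl
  rw [this, map_mul, e1, e2]
  rfl

theorem Rel.neg {f : K} {c : L} (h1 : Rel φ L f c) : Rel φ L (-f) (-c) := by
  obtain ⟨hf, e1⟩ := h1
  refine ⟨V₁.neg_mem _ hf, ?_⟩
  have : (⟨-f, V₁.neg_mem _ hf⟩ : V₁) = -⟨f, hf⟩ := rfl
  rw [this, map_neg, e1]
  rfl

theorem Rel.sub {f g : K} {c d : L} (h1 : Rel φ L f c) (h2 : Rel φ L g d) :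
    Rel φ L (f - g) (c - d) := by
  rw [sub_eq_add_neg, sub_eq_add_neg]
  exact h1.add h2.neg

theorem Rel.zero : Rel φ L 0 0 := by
  refine ⟨V₁.zero_mem, ?_⟩
  have : (⟨0, V₁.zero_mem⟩ : V₁) = 0 := rfl
  rw [this, map_zero]
  rfl

theorem Rel.one : Rel φ L 1 1 := by
  refine ⟨V₁.one_mem, ?_⟩
  have : (⟨1, V₁.one_mem⟩ : V₁) = 1 := rfl
  rw [this, map_one]
  rfl

theorem Rel.sum {ι : Type*} (s : Finset ι) {f : ι → K} {c : ι → L}
    (h : ∀ i ∈ s, Rel φ L (f i) (c i)) : Rel φ L (∑ i ∈ s, f i) (∑ i ∈ s, c i) := by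
  classical
  induction s using Finset.induction_on with
  | empty => simpa using Rel.zero
  | insert a s ha ih =>
    rw [Finset.sum_insert ha, Finset.sum_insert ha]
    exact (h a (Finset.mem_insert_self _ _)).add
      (ih fun i hi => h i (Finset.mem_insert_of_mem hi))

theorem Rel.prod {ι : Type*} (s : Finset ι) {f : ι → K} {c : ι → L}
    (h : ∀ i ∈ s, Rel φ L (f i) (c i)) : Rel φ L (∏ i ∈ s, f i) (∏ i ∈ s, c i) := by
  classical
  induction s using Finset.induction_on with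
  | empty => simpa using Rel.one
  | insert a s ha ih =>
    rw [Finset.prod_insert ha, Finset.prod_insert ha]
    exact (h a (Finset.mem_insert_self _ _)).mul
      (ih fun i hi => h i (Finset.mem_insert_of_mem hi))

theorem ker_iff (hsurj : Function.Surjective φ) {f : K} (hf : f ∈ V₁) :
    φ ⟨f, hf⟩ = 0 ↔ V₁.valuation f < 1 := by
  constructor
  · intro h
    rcases lt_or_eq_of_le ((V₁.valuation_le_one_iff f).2 hf) with h1 | h1
    · exact h1
    · exfalso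
      have hf0 : f ≠ 0 := by rintro rfl; simp at h1
      have h2 := ((val_eq_one_iff V₁ hf0).1 h1).2
      have h3 : (⟨f, hf⟩ : V₁) * ⟨f⁻¹, h2⟩ = 1 := Subtype.ext (mul_inv_cancel₀ hf0)
      have h4 := congrArg φ h3
      rw [map_mul, h, zero_mul, map_one] at h4
      exact zero_ne_one h4
  · intro h
    by_contra h1
    obtain ⟨y, hy⟩ := hsurj (φ ⟨f, hf⟩)⁻¹
    have h2 : φ (⟨f, hf⟩ * y - 1) = 0 := by
      rw [map_sub, map_mul, hy, mul_inv_cancel₀ h1, map_one, sub_self]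
    have h3 : V₁.valuation (f * (y : K)) < 1 := by
      rw [map_mul]
      exact mul_lt_one_of_lt_of_le h ((V₁.valuation_le_one_iff _).2 y.2)
    -- `f y - 1` is a unit
    have h5 : V₁.valuation (((⟨f, hf⟩ * y - 1 : V₁) : K)) = 1 := by
      change V₁.valuation (f * (y : K) - 1) = 1
      rw [Valuation.map_sub_swap]
      exact Valuation.map_one_sub_of_lt _ h3
    have h6 : (((⟨f, hf⟩ * y - 1 : V₁) : K)) ≠ 0 := by
      intro h7
      rw [h7] at h5
      simp at h5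
    have h8 := ((val_eq_one_iff V₁ h6).1 h5).2
    have h9 : (⟨f, hf⟩ * y - 1 : V₁) * ⟨_, h8⟩ = 1 := Subtype.ext (mul_inv_cancel₀ h6)
    have h10 := congrArg φ h9
    rw [map_mul, h2, zero_mul, map_one] at h10
    exact zero_ne_one h10

theorem Rel.lt_one (hsurj : Function.Surjective φ) {f : K} {c : L} (h : Rel φ L f c) :
    V₁.valuation f < 1 ↔ c = 0 := by
  obtain ⟨hf, e⟩ := h
  rw [← ker_iff hsurj hf, e]
  exact ⟨fun h => Subtype.ext h, fun h => by rw [h]; rfl⟩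

theorem Rel.eq_one (hsurj : Function.Surjective φ) {f : K} {c : L} (h : Rel φ L f c)
    (hc : c ≠ 0) : V₁.valuation f = 1 := by
  rcases lt_or_eq_of_le ((V₁.valuation_le_one_iff f).2 h.1) with h1 | h1
  · exact absurd ((h.lt_one hsurj).1 h1) hc
  · exact h1

theorem Rel.ne_zero {f : K} {c : L} (h : Rel φ L f c) (hc : c ≠ 0) : f ≠ 0 := by
  rintro rfl
  obtain ⟨hf, e⟩ := h
  apply hc
  apply Subtype.ext
  rw [← e]
  exact map_zero φ

theorem Rel.inv (hsurj : Function.Surjective φ) {f : K} {c : L} (h : Rel φ L f c)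
    (hc : c ≠ 0) : Rel φ L f⁻¹ c⁻¹ := by
  have h0 := h.ne_zero hc
  have h1 := ((val_eq_one_iff V₁ h0).1 (h.eq_one hsurj hc)).2
  refine ⟨h1, ?_⟩
  obtain ⟨hf, e⟩ := h
  have h3 : (⟨f, hf⟩ : V₁) * ⟨f⁻¹, h1⟩ = 1 := Subtype.ext (mul_inv_cancel₀ h0)
  have h4 := congrArg φ h3
  rw [map_mul, e, map_one] at h4
  have h5 : φ ⟨f⁻¹, h1⟩ = (c : K₁)⁻¹ := eq_inv_of_mul_eq_one_right h4
  rw [h5]
  rfl

theorem Rel.div (hsurj : Function.Surjective φ) {f g : K} {c d : L} (h : Rel φ L f c)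
    (h' : Rel φ L g d) (hd : d ≠ 0) : Rel φ L (f / g) (c / d) := by
  rw [div_eq_mul_inv, div_eq_mul_inv]
  exact h.mul (h'.inv hsurj hd)

theorem Rel.pow {f : K} {c : L} (h : Rel φ L f c) (n : ℕ) : Rel φ L (f ^ n) (c ^ n) := by
  induction n with
  | zero => simpa using Rel.one
  | succ n ih => rw [pow_succ, pow_succ]; exact ih.mul h

theorem Rel.zpow (hsurj : Function.Surjective φ) {f : K} {c : L} (h : Rel φ L f c)
    (hc : c ≠ 0) (n : ℤ) : Rel φ L (f ^ n) (c ^ n) := by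
  obtain ⟨n, rfl | rfl⟩ := n.eq_nat_or_neg
  · rw [zpow_natCast, zpow_natCast]
    exact h.pow n
  · rw [zpow_neg, zpow_neg, zpow_natCast, zpow_natCast]
    exact (h.pow n).inv hsurj (pow_ne_zero n hc)

theorem Rel.unique {f : K} {c d : L} (h : Rel φ L f c) (h' : Rel φ L f d) : c = d := by
  obtain ⟨hf, e⟩ := h
  obtain ⟨_, e'⟩ := h'
  exact Subtype.ext (e.symm.trans e')

theorem mem_comap {l : L} : l ∈ V₂.comap (algebraMap L K₁) ↔ (l : K₁) ∈ V₂ := Iff.rfl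

end

section

variable {k K : Type u} [Field k] [Field K] [Algebra k K]
variable {V V₁ : ValuationSubring K} {K₁ : Type u} [Field K₁] [Algebra k K₁]
  {φ : V₁ →+* K₁} {V₂ : ValuationSubring K₁} {L : IntermediateField k K₁}

theorem Rel.const (hres : IsRes (k := k) V V₁ φ V₂) (c : k) :
    Rel φ L (algebraMap k K c) (algebraMap k L c) :=
  ⟨hres.le (hres.const c), hres.map_const c _⟩

theorem Rel.mem (hres : IsRes (k := k) V V₁ φ V₂) {f : K} {c : L} (h : Rel φ L f c) :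
    f ∈ V ↔ c ∈ V₂.comap (algebraMap L K₁) := by
  obtain ⟨hf, e⟩ := h
  rw [mem_comap, ← e]
  exact (hres.mem ⟨f, hf⟩).symm

theorem Rel.val_le (hres : IsRes (k := k) V V₁ φ V₂) {f : K} {c : L} (h : Rel φ L f c) :
    V.valuation f ≤ 1 ↔ (V₂.comap (algebraMap L K₁)).valuation c ≤ 1 := by
  rw [V.valuation_le_one_iff, ValuationSubring.valuation_le_one_iff]
  exact h.mem hres

theorem Rel.val_eq (hres : IsRes (k := k) V V₁ φ V₂) {f : K} {c : L} (h : Rel φ L f c) :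
    V.valuation f = 1 ↔ (V₂.comap (algebraMap L K₁)).valuation c = 1 := by
  by_cases hc : c = 0
  · have h1 : V₁.valuation f < 1 := (h.lt_one hres.surj).2 hc
    have h2 := val_lt_one_of_le hres.le h1
    constructor
    · intro h3
      exact absurd h3 h2.ne
    · intro h3
      rw [hc] at h3
      simp at h3
  · rw [val_eq_one_iff _ (h.ne_zero hc), val_eq_one_iff _ hc, h.mem hres,
      (h.inv hres.surj hc).mem hres]

theorem Rel.val_lt (hres : IsRes (k := k) V V₁ φ V₂) {f : K} {c : L} (h : Rel φ L f c) :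
    V.valuation f < 1 ↔ (V₂.comap (algebraMap L K₁)).valuation c < 1 := by
  rw [lt_iff_le_and_ne, lt_iff_le_and_ne, h.val_le hres, Ne, Ne, h.val_eq hres]

theorem Rel.one_le (hres : IsRes (k := k) V V₁ φ V₂) {f : K} {c : L} (h : Rel φ L f c) :
    1 ≤ V.valuation f ↔ 1 ≤ (V₂.comap (algebraMap L K₁)).valuation c := by
  rw [← not_lt, ← not_lt, h.val_lt hres]

/-- Elements of `A` and `B` correspond. -/
structure Corr (φ : V₁ →+* K₁) (L : IntermediateField k K₁) (A : Subalgebra k K)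
    (B : Subalgebra k L) : Prop where
  fwd : ∀ f ∈ A, ∃ c ∈ B, Rel φ L f c
  bwd : ∀ c ∈ B, ∃ f ∈ A, Rel φ L f c

theorem Corr.adjoin (hres : IsRes (k := k) V V₁ φ V₂) {A : Subalgebra k K} {B : Subalgebra k L}
    (h : Corr φ L A B) (S : Set K) (T : Set L) (hST : ∀ f ∈ S, ∃ c ∈ T, Rel φ L f c)
    (hTS : ∀ c ∈ T, ∃ f ∈ S, Rel φ L f c) :
    Corr φ L (Algebra.adjoin k ((A : Set K) ∪ S)) (Algebra.adjoin k ((B : Set L) ∪ T)) := by
  constructor
  · intro f hf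
    induction hf using Algebra.adjoin_induction with
    | mem x hx =>
      rcases hx with hx | hx
      · obtain ⟨c, hc, h1⟩ := h.fwd x hx
        exact ⟨c, Algebra.subset_adjoin (Or.inl hc), h1⟩
      · obtain ⟨c, hc, h1⟩ := hST x hx
        exact ⟨c, Algebra.subset_adjoin (Or.inr hc), h1⟩
    | algebraMap r => exact ⟨algebraMap k L r, Subalgebra.algebraMap_mem _ r, Rel.const hres r⟩
    | add x y _ _ hx hy =>
      obtain ⟨c, hc, h1⟩ := hx
      obtain ⟨d, hd, h2⟩ := hy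
      exact ⟨c + d, Subalgebra.add_mem _ hc hd, h1.add h2⟩
    | mul x y _ _ hx hy =>
      obtain ⟨c, hc, h1⟩ := hx
      obtain ⟨d, hd, h2⟩ := hy
      exact ⟨c * d, Subalgebra.mul_mem _ hc hd, h1.mul h2⟩
  · intro f hf
    induction hf using Algebra.adjoin_induction with
    | mem x hx =>
      rcases hx with hx | hx
      · obtain ⟨c, hc, h1⟩ := h.bwd x hx
        exact ⟨c, Algebra.subset_adjoin (Or.inl hc), h1⟩
      · obtain ⟨c, hc, h1⟩ := hTS x hx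
        exact ⟨c, Algebra.subset_adjoin (Or.inr hc), h1⟩
    | algebraMap r => exact ⟨algebraMap k K r, Subalgebra.algebraMap_mem _ r, Rel.const hres r⟩
    | add x y _ _ hx hy =>
      obtain ⟨c, hc, h1⟩ := hx
      obtain ⟨d, hd, h2⟩ := hy
      exact ⟨c + d, Subalgebra.add_mem _ hc hd, h1.add h2⟩
    | mul x y _ _ hx hy =>
      obtain ⟨c, hc, h1⟩ := hx
      obtain ⟨d, hd, h2⟩ := hy
      exact ⟨c * d, Subalgebra.mul_mem _ hc hd, h1.mul h2⟩

theorem Corr.locV (hres : IsRes (k := k) V V₁ φ V₂) {A : Subalgebra k K} {B : Subalgebra k L}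
    (h : Corr φ L A B) :
    Corr φ L (locV V A) (locV (V₂.comap (algebraMap L K₁)) B) := by
  constructor
  · rintro f ⟨a, ha, b, hb, hv, rfl⟩
    obtain ⟨c, hc, h1⟩ := h.fwd a ha
    obtain ⟨d, hd, h2⟩ := h.fwd b hb
    have hd1 := (h2.val_eq hres).1 hv
    have hd0 : d ≠ 0 := by rintro rfl; simp at hd1
    exact ⟨c / d, ⟨c, hc, d, hd, hd1, rfl⟩, h1.div hres.surj h2 hd0⟩
  · rintro f ⟨c, hc, d, hd, hv, rfl⟩
    obtain ⟨a, ha, h1⟩ := h.bwd c hc
    obtain ⟨b, hb, h2⟩ := h.bwd d hd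
    have hd0 : d ≠ 0 := by rintro rfl; simp at hv
    exact ⟨a / b, ⟨a, ha, b, hb, (h2.val_eq hres).2 hv, rfl⟩, h1.div hres.surj h2 hd0⟩

theorem Corr.dim (hres : IsRes (k := k) V V₁ φ V₂) {A : Subalgebra k K} {B : Subalgebra k L}
    (h : Corr φ L A B) (hR : ∀ f ∈ A, f ∈ V₁) :
    ringKrullDim (A ⧸ PI V₁ A hR) = ringKrullDim B := by
  have hspec : ∀ f : A, ∃ c : B, Rel φ L (f : K) (c : L) := fun f => by
    obtain ⟨c, hc, h1⟩ := h.fwd f f.2
    exact ⟨⟨c, hc⟩, h1⟩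
  choose g hg using hspec
  let θ : A →+* B :=
    { toFun := g
      map_one' := Subtype.ext ((hg 1).unique Rel.one)
      map_mul' := fun x y => Subtype.ext ((hg (x * y)).unique ((hg x).mul (hg y)))
      map_zero' := Subtype.ext ((hg 0).unique Rel.zero)
      map_add' := fun x y => Subtype.ext ((hg (x + y)).unique ((hg x).add (hg y))) }
  have hθ : Function.Surjective θ := by
    rintro ⟨c, hc⟩
    obtain ⟨f, hf, h1⟩ := h.bwd c hc
    exact ⟨⟨f, hf⟩, Subtype.ext ((hg ⟨f, hf⟩).unique h1)⟩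
  have hker : PI V₁ A hR = RingHom.ker θ := by
    ext x
    rw [RingHom.mem_ker]
    change V₁.valuation (x : K) < 1 ↔ g x = 0
    rw [(hg x).lt_one hres.surj]
    exact ⟨fun h => Subtype.ext h, fun h => by rw [h]; rfl⟩
  rw [hker]
  exact ringKrullDim_eq_of_ringEquiv (RingHom.quotientKerEquivOfSurjective hθ)

end

end Stage2Aux

open Stage2Aux

variable {k K : Type u} [Field k] [Field K] [Algebra k K]

/-- Stage 2 exists. (Apply `LU` to the field of fractions `L` of the image of `A₁` in `K₁`, lift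
the chart.) -/
theorem exists_stage2 {V V₁ : ValuationSubring K} {K₁ : Type u} [Field K₁] [Algebra k K₁]
    {φ : V₁ →+* K₁} {V₂ : ValuationSubring K₁} (hres : IsRes (k := k) V V₁ φ V₂)
    (A₁ : Subalgebra k K) (hfg : A₁.FG) (hA : ∀ a ∈ A₁, a ∈ V)
    (L : IntermediateField k K₁)
    (hL : L = IntermediateField.adjoin k {c : K₁ | ∃ a : V₁, (a : K) ∈ A₁ ∧ φ a = c})
    (h₂ : LU k (V₂.comap (algebraMap L K₁))) (U : Finset K)
    (hU : ∀ t ∈ U, ∃ c ∈ A₁, ∃ d ∈ A₁, V₁.valuation c = 1 ∧ V₁.valuation d = 1 ∧ t = c / d) :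
    ∃ (A₂ : Subalgebra k K) (g₂ : K) (m : ℕ) (z : Fin m → K), g₂ ∈ A₁ ∧
      Stage2 V V₁ A₁ A₂ U g₂ z := by
  classical
  have hsurj := hres.surj
  -- the reduction of `A₁`
  have hmemL : ∀ a : K, ∀ ha : a ∈ A₁, φ ⟨a, hres.le (hA a ha)⟩ ∈ L := by
    intro a ha
    rw [hL]
    exact IntermediateField.subset_adjoin _ _ ⟨⟨a, hres.le (hA a ha)⟩, ha, rfl⟩
  let ψ : A₁ →ₐ[k] L :=
    { toFun := fun a => ⟨φ ⟨a, hres.le (hA a a.2)⟩, hmemL a a.2⟩
      map_one' := Subtype.ext (map_one φ)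
      map_mul' := fun x y => Subtype.ext (map_mul φ ⟨x, hres.le (hA x x.2)⟩
        ⟨y, hres.le (hA y y.2)⟩)
      map_zero' := Subtype.ext (map_zero φ)
      map_add' := fun x y => Subtype.ext (map_add φ ⟨x, hres.le (hA x x.2)⟩
        ⟨y, hres.le (hA y y.2)⟩)
      commutes' := fun c => Subtype.ext (hres.map_const c _) }
  have hψ : ∀ a : A₁, Rel φ L (a : K) (ψ a) := fun a => ⟨hres.le (hA a a.2), rfl⟩
  set B : Subalgebra k L := ψ.range with hB
  have hcorr : Corr φ L A₁ B := by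
    constructor
    · intro f hf
      exact ⟨ψ ⟨f, hf⟩, ⟨⟨f, hf⟩, rfl⟩, hψ ⟨f, hf⟩⟩
    · rintro c ⟨a, rfl⟩
      exact ⟨a, a.2, hψ a⟩
  have hBfg : B.FG := by
    have h1 : (⊤ : Subalgebra k A₁).FG := (Subalgebra.fg_top A₁).2 hfg
    have h2 := h1.map ψ
    rwa [Algebra.map_top] at h2
  have hBV : ∀ c ∈ B, c ∈ V₂.comap (algebraMap L K₁) := by
    intro c hc
    obtain ⟨f, hf, h1⟩ := hcorr.bwd c hc
    exact (h1.mem hres).1 (hA f hf)
  have hfrac : IsFrac B := by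
    intro f
    have hf : (f : K₁) ∈ IntermediateField.adjoin k
        {c : K₁ | ∃ a : V₁, (a : K) ∈ A₁ ∧ φ a = c} := le_of_eq hL f.2
    rw [IntermediateField.mem_adjoin_iff_div] at hf
    obtain ⟨r, hr, s, hs, hrs⟩ := hf
    have key : ∀ x ∈ Algebra.adjoin k {c : K₁ | ∃ a : V₁, (a : K) ∈ A₁ ∧ φ a = c},
        ∃ c ∈ B, (c : K₁) = x := by
      intro x hx
      induction hx using Algebra.adjoin_induction with
      | mem x hx =>
        obtain ⟨a, ha, rfl⟩ := hx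
        exact ⟨ψ ⟨a, ha⟩, ⟨⟨a, ha⟩, rfl⟩, rfl⟩
      | algebraMap r => exact ⟨algebraMap k L r, B.algebraMap_mem r, rfl⟩
      | add x y _ _ hx hy =>
        obtain ⟨c, hc, rfl⟩ := hx
        obtain ⟨d, hd, rfl⟩ := hy
        exact ⟨c + d, B.add_mem hc hd, rfl⟩
      | mul x y _ _ hx hy =>
        obtain ⟨c, hc, rfl⟩ := hx
        obtain ⟨d, hd, rfl⟩ := hy
        exact ⟨c * d, B.mul_mem hc hd, rfl⟩
    obtain ⟨c, hc, h1⟩ := key r hr
    obtain ⟨d, hd, h2⟩ := key s hs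
    by_cases hd0 : d = 0
    · refine ⟨0, B.zero_mem, 1, B.one_mem, one_ne_zero, ?_⟩
      apply Subtype.ext
      rw [hrs, ← h2, hd0]
      simp
    · refine ⟨c, hc, d, hd, hd0, ?_⟩
      apply Subtype.ext
      rw [hrs, ← h1, ← h2]
      rfl
  -- reductions of the elements of `U`
  have hUred : ∀ t ∈ U, ∃ τ : L, τ ≠ 0 ∧ Rel φ L t τ := by
    intro t ht
    obtain ⟨c, hc, d, hd, hc1, hd1, rfl⟩ := hU t ht
    have hc0 : ψ ⟨c, hc⟩ ≠ 0 := by
      intro h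
      exact absurd (((hψ ⟨c, hc⟩).lt_one hsurj).2 h) (by rw [hc1]; exact lt_irrefl _)
    have hd0 : ψ ⟨d, hd⟩ ≠ 0 := by
      intro h
      exact absurd (((hψ ⟨d, hd⟩).lt_one hsurj).2 h) (by rw [hd1]; exact lt_irrefl _)
    exact ⟨ψ ⟨c, hc⟩ / ψ ⟨d, hd⟩, div_ne_zero hc0 hd0, (hψ ⟨c, hc⟩).div hsurj (hψ ⟨d, hd⟩) hd0⟩
  choose! red hred0 hred using hUred
  obtain ⟨B', γ, ⟨hγB, hγ0, G, hG, hB'⟩, n, ζ, hpar, hmγ, hmt⟩ :=
    h₂ B hBfg hBV hfrac (U.image red) (by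
      intro t ht
      obtain ⟨s, hs, rfl⟩ := Finset.mem_image.1 ht
      exact hred0 s hs)
  obtain ⟨g₂, hg₂, hrg⟩ := hcorr.bwd γ hγB
  have hg₂0 : g₂ ≠ 0 := hrg.ne_zero hγ0
  have hg₂1 : V₁.valuation g₂ = 1 := hrg.eq_one hsurj hγ0
  have hGl : ∀ x ∈ G, ∃ f ∈ A₁, Rel φ L f x := fun x hx => hcorr.bwd x (hG x hx).1
  choose! lft hlft1 hlft2 using hGl
  -- the chart
  set A₂ : Subalgebra k K :=
    Algebra.adjoin k ((A₁ : Set K) ∪ (fun x => x / g₂) '' ((G.image lft : Finset K) : Set K))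
    with hA₂
  have hchart : IsChart V A₁ A₂ g₂ := by
    refine ⟨hg₂, hg₂0, G.image lft, ?_, rfl⟩
    intro x hx
    obtain ⟨y, hy, rfl⟩ := Finset.mem_image.1 hx
    refine ⟨hlft1 y hy, ?_⟩
    have h1 : Rel φ L (lft y / g₂) (y / γ) := (hlft2 y hy).div hsurj hrg hγ0
    have h2 : (V₂.comap (algebraMap L K₁)).valuation (y / γ) ≤ 1 := by
      rw [map_div₀]
      exact div_le_one_of_le₀ (hG y hy).2 zero_le
    have h3 := (h1.val_le hres).2 h2
    rw [map_div₀] at h3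
    have h4 : 0 < V.valuation g₂ := by rwa [Valuation.pos_iff]
    exact (div_le_one₀ h4).1 h3
  have hcorr₂ : Corr φ L A₂ B' := by
    rw [hA₂, hB']
    refine hcorr.adjoin hres _ _ ?_ ?_
    · rintro _ ⟨x, hx, rfl⟩
      obtain ⟨y, hy, rfl⟩ := Finset.mem_image.1 (Finset.mem_coe.1 hx)
      exact ⟨y / γ, ⟨y, hy, rfl⟩, (hlft2 y hy).div hsurj hrg hγ0⟩
    · rintro _ ⟨y, hy, rfl⟩
      exact ⟨lft y / g₂, ⟨lft y, Finset.mem_coe.2 (Finset.mem_image_of_mem _ hy), rfl⟩,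
        (hlft2 y hy).div hsurj hrg hγ0⟩
  have hA₂V : ∀ a ∈ A₂, a ∈ V := hchart.mem hA
  have hcorrR := hcorr₂.locV hres
  -- the parameters
  have hζ : ∀ j, ∃ α ∈ B', ∃ β ∈ B', (V₂.comap (algebraMap L K₁)).valuation β = 1 ∧
      ζ j = α / β := fun j => hpar.mem j
  choose α hα β hβ hβ1 hζ using hζ
  have hβ0 : ∀ j, β j ≠ 0 := fun j h => by
    have := hβ1 j
    rw [h] at this
    simp at this
  have hα0 : ∀ j, α j ≠ 0 := fun j h => hpar.ne j (by rw [hζ j, h, zero_div])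
  have hβR : ∀ j, β j ∈ locV (V₂.comap (algebraMap L K₁)) B' := fun j => le_locV B' (hβ j)
  have hβR' : ∀ j, (β j)⁻¹ ∈ locV (V₂.comap (algebraMap L K₁)) B' := fun j =>
    locV_inv (hβR j) (hβ1 j)
  have hαpos : ∀ j, (V₂.comap (algebraMap L K₁)).valuation (α j) < 1 := fun j => by
    have h1 := hpar.pos j
    rwa [hζ j, map_div₀, hβ1 j, div_one] at h1
  have hz : ∀ j, ∃ f ∈ A₂, Rel φ L f (α j) := fun j => hcorr₂.bwd _ (hα j)
  choose z hz hzr using hz
  refine ⟨A₂, g₂, n, z, hg₂, hchart, hg₂1, hz, fun j => (hzr j).eq_one hsurj (hα0 j),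
    fun j => ((hzr j).val_lt hres).2 (hαpos j), ?_, ?_, ?_⟩
  · -- generation
    intro f hf hf1
    obtain ⟨c, hc, h1⟩ := hcorr₂.fwd f hf
    obtain ⟨a, ha, hsum⟩ := hpar.gen c (le_locV B' hc) ((h1.val_lt hres).1 hf1)
    have hlift : ∀ j, ∃ f ∈ locV V A₂, Rel φ L f (a j * (β j)⁻¹) := fun j =>
      hcorrR.bwd _ (Subalgebra.mul_mem _ (ha j) (hβR' j))
    choose a' ha' hra' using hlift
    refine ⟨a', ha', ?_⟩
    rw [(h1.sub (Rel.sum Finset.univ fun j _ => (hra' j).mul (hzr j))).lt_one hsurj, sub_eq_zero,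
      hsum]
    refine Finset.sum_congr rfl fun j _ => ?_
    rw [hζ j]
    ring
  · -- dimension
    have hR : ∀ f ∈ locV V A₂, f ∈ V₁ := fun f hf => hres.le (locV_mem hA₂V f hf)
    refine ⟨hR, ?_⟩
    rw [hcorrR.dim hres hR]
    exact hpar.dim
  · -- monomials
    have key : ∀ t : K, ∀ τ : L, Rel φ L t τ →
        Mono (V₂.comap (algebraMap L K₁)) (locV (V₂.comap (algebraMap L K₁)) B') ζ τ →
        ∃ e : Fin n → ℤ, ∃ w ∈ locV V A₂, V.valuation w = 1 ∧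
          V₁.valuation (t - (∏ j, z j ^ e j) * w) < 1 ∧
          (V.valuation t ≤ 1 → ∀ j, 0 ≤ e j) ∧ (1 ≤ V.valuation t → ∀ j, e j ≤ 0) := by
      intro t τ hr hm
      obtain ⟨e, w, hw, hw1, hτ, hpos, hneg⟩ := hm
      have hunit : ∀ j, (β j) ^ (-e j) ∈ locV (V₂.comap (algebraMap L K₁)) B' := by
        intro j
        obtain ⟨m, hm | hm⟩ := (-e j).eq_nat_or_neg
        · rw [hm, zpow_natCast]
          exact Subalgebra.pow_mem _ (hβR j) m
        · rw [hm, zpow_neg, zpow_natCast, ← inv_pow]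
          exact Subalgebra.pow_mem _ (hβR' j) m
      have hw' : w * ∏ j, (β j) ^ (-e j) ∈ locV (V₂.comap (algebraMap L K₁)) B' :=
        Subalgebra.mul_mem _ hw (Subalgebra.prod_mem _ fun j _ => hunit j)
      have hw'1 : (V₂.comap (algebraMap L K₁)).valuation (w * ∏ j, (β j) ^ (-e j)) = 1 := by
        rw [map_mul, hw1, one_mul, map_prod]
        refine Finset.prod_eq_one fun j _ => ?_
        rw [map_zpow₀, hβ1 j, one_zpow]
      obtain ⟨w', hw'm, hrw⟩ := hcorrR.bwd _ hw'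
      refine ⟨e, w', hw'm, (hrw.val_eq hres).2 hw'1, ?_, fun h => hpos ((hr.val_le hres).1 h),
        fun h => hneg ((hr.one_le hres).1 h)⟩
      rw [(hr.sub ((Rel.prod Finset.univ fun j _ => (hzr j).zpow hsurj (hα0 j) (e j)).mul
        hrw)).lt_one hsurj, sub_eq_zero, hτ, mul_comm w, ← mul_assoc, ← Finset.prod_mul_distrib]
      congr 1
      refine Finset.prod_congr rfl fun j _ => ?_
      rw [hζ j, div_zpow, zpow_neg, div_eq_mul_inv]
    rintro t (rfl | ht)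
    · exact key _ γ hrg hmγ
    · exact key t (red t) (hred t ht) (hmt _ (Finset.mem_image_of_mem _ ht))

end Pool.Agent.LU2
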