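import Pool.Agent.Lib.LU2_h15.Stage1
import Pool.Agent.Lib.LU2_h15.Stage2
import Pool.Agent.Lib.LU2_h15.Stage3

/-! # LU2, C5: the composite step -/

set_option autoImplicit false

namespace Pool.Agent.LU2

universe u

variable {k K : Type u} [Field k] [Field K] [Algebra k K]

theorem IsFrac.mono {A A' : Subalgebra k K} (h : IsFrac A) (hle : A ≤ A') : IsFrac A' := by
  intro f
  obtain ⟨a, ha, b, hb, hb0, rfl⟩ := h f
  exact ⟨a, hle ha, b, hle hb, hb0, rfl⟩

/-- The field generated by the residues of a finitely generated algebra is finitely generated. -/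
theorem adjoin_res_fg {V V₁ : ValuationSubring K} {K₁ : Type u} [Field K₁] [Algebra k K₁]
    {φ : V₁ →+* K₁} {V₂ : ValuationSubring K₁} (hres : IsRes (k := k) V V₁ φ V₂)
    {A : Subalgebra k K} (hfg : A.FG) (hA : ∀ a ∈ A, a ∈ V) :
    (IntermediateField.adjoin k {c : K₁ | ∃ a : V₁, (a : K) ∈ A ∧ φ a = c}).FG := by
  classical
  obtain ⟨s, hs⟩ := hfg
  have hsA : ∀ x ∈ s, x ∈ A := fun x hx => by rw [← hs]; exact Algebra.subset_adjoin hx
  have hV : ∀ x ∈ A, x ∈ V₁ := fun x hx => hres.le (hA x hx)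
  let F : K → K₁ := fun x => if hx : x ∈ V₁ then φ ⟨x, hx⟩ else 0
  have hF : ∀ (x : K) (hx : x ∈ V₁), F x = φ ⟨x, hx⟩ := fun x hx => by
    simp only [F, dif_pos hx]
  refine ⟨s.image F, ?_⟩
  apply le_antisymm
  · rw [IntermediateField.adjoin_le_iff]
    intro c hc
    rw [Finset.mem_coe, Finset.mem_image] at hc
    obtain ⟨x, hx, rfl⟩ := hc
    apply IntermediateField.subset_adjoin
    exact ⟨⟨x, hV x (hsA x hx)⟩, hsA x hx, (hF x _).symm⟩
  · rw [IntermediateField.adjoin_le_iff]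
    rintro c ⟨a, ha, rfl⟩
    have key : ∀ x ∈ A, F x ∈ IntermediateField.adjoin k ((s.image F : Finset K₁) : Set K₁) := by
      intro x hx
      rw [← hs] at hx
      have hmem : ∀ y ∈ Algebra.adjoin k (s : Set K), y ∈ V₁ := fun y hy => by
        rw [hs] at hy; exact hV y hy
      induction hx using Algebra.adjoin_induction with
      | mem x hx =>
        apply IntermediateField.subset_adjoin
        rw [Finset.mem_coe, Finset.mem_image]
        exact ⟨x, hx, rfl⟩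
      | algebraMap c =>
        rw [hF _ (hres.le (hres.const c)), hres.map_const]
        exact IntermediateField.algebraMap_mem _ c
      | add x y hx hy h1 h2 =>
        rw [hF _ (hmem _ (add_mem hx hy))]
        have : (⟨x + y, hmem _ (add_mem hx hy)⟩ : V₁) = ⟨x, hmem x hx⟩ + ⟨y, hmem y hy⟩ := rfl
        rw [this, map_add, ← hF, ← hF]
        exact add_mem h1 h2
      | mul x y hx hy h1 h2 =>
        rw [hF _ (hmem _ (mul_mem hx hy))]
        have : (⟨x * y, hmem _ (mul_mem hx hy)⟩ : V₁) = ⟨x, hmem x hx⟩ * ⟨y, hmem y hy⟩ := rfl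
        rw [this, map_mul, ← hF, ← hF]
        exact mul_mem h1 h2
    have := key a ha
    rwa [hF _ a.2] at this

/-- Reduction to the components of a composite valuation. -/
theorem composite {V V₁ : ValuationSubring K} {K₁ : Type u} [Field K₁] [Algebra k K₁]
    {φ : V₁ →+* K₁} {V₂ : ValuationSubring K₁} (hres : IsRes (k := k) V V₁ φ V₂)
    (hfin : ∃ τ : Finset K₁, Algebra.IsAlgebraic (IntermediateField.adjoin k (τ : Set K₁)) K₁)
    (h₁ : LU k V₁)
    (h₂ : ∀ L : IntermediateField k K₁, L.FG → Algebra.IsAlgebraic L K₁ →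
      LU k (V₂.comap (algebraMap L K₁))) : LU k V := by
  classical
  intro A hfg hA hfrac T hT
  obtain ⟨τ, hτ⟩ := hfin
  -- lift of the generators
  have hlift : ∀ c : K₁, ∃ x : K, x ∈ V ∧ ∃ hx : x ∈ V₁, φ ⟨x, hx⟩ = c ∨ φ ⟨x, hx⟩ = c⁻¹ := by
    intro c
    rcases V₂.mem_or_inv_mem c with h | h
    · obtain ⟨y, hy⟩ := hres.surj c
      refine ⟨y, ?_, y.2, Or.inl hy⟩
      rw [← hres.mem, hy]; exact h
    · obtain ⟨y, hy⟩ := hres.surj c⁻¹
      refine ⟨y, ?_, y.2, Or.inr hy⟩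
      rw [← hres.mem, hy]; exact h
  choose ℓ hℓV hℓ1 hℓ using hlift
  obtain ⟨A', g, hch, hSA⟩ := exists_chart_mem hA hfrac (τ.image ℓ) (by
    intro f hf
    rw [Finset.mem_image] at hf
    obtain ⟨c, -, rfl⟩ := hf
    exact hℓV c)
  refine LUat.of_chart hA hch (T' := insert g T) (Finset.mem_insert_self _ _)
    (fun t ht => Finset.mem_insert_of_mem ht) ?_
  have hA' := hch.mem hA
  have hfg' := hch.fg hfg
  have hfrac' : IsFrac A' := hfrac.mono hch.le
  have hT' : ∀ t ∈ insert g T, t ≠ 0 := by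
    intro t ht
    rcases Finset.mem_insert.1 ht with rfl | h
    · exact hch.2.1
    · exact hT t h
  generalize insert g T = T' at hT'
  obtain ⟨A₁, g₁, m, z, b, hs1⟩ := exists_stage1 hres.le h₁ A' hfg' hA' hfrac' T' hT'
  -- the set U
  have hmono := hs1.mono
  have hmono' : ∀ t : K, ∃ (e : Fin m → ℤ) (c d : K), (t = g₁ ∨ t ∈ T') → c ∈ A₁ ∧ d ∈ A₁ ∧
      V₁.valuation c = 1 ∧
      V₁.valuation d = 1 ∧ t = (∏ i, z i ^ e i) * (c / d) ∧
      (V₁.valuation t ≤ 1 → ∀ i, 0 ≤ e i) ∧ (1 ≤ V₁.valuation t → ∀ i, e i ≤ 0) := by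
    intro t
    by_cases ht : t = g₁ ∨ t ∈ T'
    · obtain ⟨e, c, hc, d, hd, h1, h2, h3, h4, h5⟩ := hmono t ht
      exact ⟨e, c, d, fun _ => ⟨hc, hd, h1, h2, h3, h4, h5⟩⟩
    · exact ⟨0, 0, 0, fun h => absurd h ht⟩
  choose e c d hcd using hmono'
  let T1 : Finset K := insert g₁ T'
  have hT1 : ∀ t, t ∈ T1 ↔ (t = g₁ ∨ t ∈ T') := fun t => Finset.mem_insert
  let T2 : Finset K := T1.filter fun t => V₁.valuation t = 1
  let U : Finset K := insert b (T1.image c ∪ T1.image d ∪ (T2 ∪ T2.image fun t => t⁻¹))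
  have hbU : b ∈ U := Finset.mem_insert_self _ _
  have hcU : ∀ t ∈ T1, c t ∈ U := fun t ht => by
    simp only [U, Finset.mem_insert, Finset.mem_union, Finset.mem_image]
    exact Or.inr (Or.inl (Or.inl ⟨t, ht, rfl⟩))
  have hdU : ∀ t ∈ T1, d t ∈ U := fun t ht => by
    simp only [U, Finset.mem_insert, Finset.mem_union, Finset.mem_image]
    exact Or.inr (Or.inl (Or.inr ⟨t, ht, rfl⟩))
  have htU : ∀ t ∈ T1, V₁.valuation t = 1 → t ∈ U ∧ t⁻¹ ∈ U := fun t ht h1 => by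
    have h2 : t ∈ T2 := Finset.mem_filter.2 ⟨ht, h1⟩
    simp only [U, Finset.mem_insert, Finset.mem_union, Finset.mem_image]
    exact ⟨Or.inr (Or.inr (Or.inl h2)), Or.inr (Or.inr (Or.inr ⟨t, h2, rfl⟩))⟩
  have hquot : ∀ t ∈ T1, V₁.valuation t = 1 → t = c t / d t := by
    intro t ht h1
    obtain ⟨-, -, -, -, h3, h4, h5⟩ := hcd t ((hT1 t).1 ht)
    have he : ∀ i, e t i = 0 := fun i => le_antisymm (h5 h1.ge i) (h4 h1.le i)
    have : (∏ i, z i ^ e t i) = 1 := Finset.prod_eq_one fun i _ => by rw [he i, zpow_zero]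
    rw [this, one_mul] at h3
    exact h3
  have hU : ∀ t ∈ U, ∃ c ∈ A₁, ∃ d ∈ A₁, V₁.valuation c = 1 ∧ V₁.valuation d = 1 ∧
      t = c / d := by
    intro t ht
    simp only [U, Finset.mem_insert, Finset.mem_union, Finset.mem_image] at ht
    rcases ht with rfl | (⟨s, hs, rfl⟩ | ⟨s, hs, rfl⟩) | h2 | ⟨s, hs, rfl⟩
    · exact ⟨t, hs1.bmem, 1, A₁.one_mem, hs1.bval, map_one _, by rw [div_one]⟩
    · obtain ⟨h1, h2, h3, h4, -⟩ := hcd s ((hT1 s).1 hs)
      exact ⟨_, h1, 1, A₁.one_mem, h3, map_one _, by rw [div_one]⟩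
    · obtain ⟨h1, h2, h3, h4, -⟩ := hcd s ((hT1 s).1 hs)
      exact ⟨_, h2, 1, A₁.one_mem, h4, map_one _, by rw [div_one]⟩
    · obtain ⟨h3, h4⟩ := Finset.mem_filter.1 h2
      obtain ⟨h5, h6, h7, h8, -⟩ := hcd t ((hT1 t).1 h3)
      exact ⟨_, h5, _, h6, h7, h8, hquot t h3 h4⟩
    · obtain ⟨h3, h4⟩ := Finset.mem_filter.1 hs
      obtain ⟨h5, h6, h7, h8, -⟩ := hcd s ((hT1 s).1 h3)
      refine ⟨_, h6, _, h5, h8, h7, ?_⟩
      conv_lhs => rw [hquot s h3 h4]
      rw [inv_div]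
  -- the residue field
  let L : IntermediateField k K₁ :=
    IntermediateField.adjoin k {c : K₁ | ∃ a : V₁, (a : K) ∈ A₁ ∧ φ a = c}
  have hLfg : L.FG := adjoin_res_fg hres hs1.fg hs1.le
  have hτL : IntermediateField.adjoin k (τ : Set K₁) ≤ L := by
    rw [IntermediateField.adjoin_le_iff]
    intro x hx
    have h1 : ℓ x ∈ A₁ := hs1.chart.le (hSA _ (Finset.mem_image.2 ⟨x, hx, rfl⟩))
    have h2 : φ ⟨ℓ x, hℓ1 x⟩ ∈ L :=
      IntermediateField.subset_adjoin _ _ ⟨⟨ℓ x, hℓ1 x⟩, h1, rfl⟩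
    rcases hℓ x with h3 | h3
    · rwa [h3] at h2
    · rw [h3] at h2
      have := L.inv_mem h2
      rwa [inv_inv] at this
  have hLalg : Algebra.IsAlgebraic L K₁ := by
    refine ⟨fun x => ?_⟩
    have h1 := hτ.isAlgebraic x
    obtain ⟨p, hp0, hp⟩ := h1
    let ι : IntermediateField.adjoin k (τ : Set K₁) →+* L :=
      (IntermediateField.inclusion hτL).toRingHom
    refine ⟨p.map ι, ?_, ?_⟩
    · rwa [Ne, Polynomial.map_eq_zero_iff ι.injective]
    · rw [Polynomial.aeval_def, Polynomial.eval₂_map]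
      rw [Polynomial.aeval_def] at hp
      exact hp
  obtain ⟨A₂, g₂, m', z', hg₂, hs2⟩ := exists_stage2 hres A₁ hs1.fg hs1.le L rfl
    (h₂ L hLfg hLalg) U hU
  refine stage3 hres.le hs1 hs2 hbU ?_ ?_ hg₂
  · intro t ht
    have ht1 : t ∈ T1 := (hT1 t).2 ht
    obtain ⟨h5, h6, h7, h8, h9, h10, h11⟩ := hcd t ht
    exact ⟨e t, c t, h5, d t, h6, hcU t ht1, hdU t ht1, h7, h8, h9, h10, h11⟩
  · intro t ht h1
    exact htU t ((hT1 t).2 ht) h1

end Pool.Agent.LU2
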