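import Pool.Agent.Lib.LU2_h15.RankOneA
import Pool.Agent.Lib.JM_H15.Basic

/-! # LU2, C7b, C7c: real valuations from rank one valuation rings, residue maps -/

set_option autoImplicit false

namespace Pool.Agent.LU2

open Pool.Agent.H15JM (RVal)

universe u

variable {k K : Type u} [Field k] [Field K] [Algebra k K]


/-- The elements of value bounded by a power of a given value. -/
def archSub (V : ValuationSubring K) (f₀ : K) (h : 1 < V.valuation f₀) : ValuationSubring K where
  carrier := {f | ∃ n : ℕ, V.valuation f ≤ V.valuation f₀ ^ n}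
  mul_mem' := by
    rintro a b ⟨n, hn⟩ ⟨m, hm⟩
    refine ⟨n + m, ?_⟩
    rw [map_mul, pow_add]
    exact mul_le_mul' hn hm
  one_mem' := ⟨0, by simp⟩
  add_mem' := by
    rintro a b ⟨n, hn⟩ ⟨m, hm⟩
    refine ⟨max n m, (V.valuation.map_add a b).trans (max_le (hn.trans ?_) (hm.trans ?_))⟩
    · exact pow_le_pow_right₀ h.le (le_max_left _ _)
    · exact pow_le_pow_right₀ h.le (le_max_right _ _)
  zero_mem' := ⟨0, by simp⟩
  neg_mem' := by
    rintro a ⟨n, hn⟩
    exact ⟨n, by rwa [Valuation.map_neg]⟩
  mem_or_inv_mem' := by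
    intro x
    rcases V.mem_or_inv_mem x with h1 | h1
    · exact Or.inl ⟨0, by simpa using (V.valuation_le_one_iff _).2 h1⟩
    · exact Or.inr ⟨0, by simpa using (V.valuation_le_one_iff _).2 h1⟩

theorem IsR1.arch {V : ValuationSubring K} (h : IsR1 V) {f₀ : K} (h0 : 1 < V.valuation f₀)
    (f : K) : ∃ n : ℕ, V.valuation f ≤ V.valuation f₀ ^ n := by
  have hle : V ≤ archSub V f₀ h0 := fun x hx =>
    ⟨0, by simpa using (V.valuation_le_one_iff _).2 hx⟩
  rcases h.2 _ hle with h1 | h1
  · exfalso
    have h2 : f₀ ∈ archSub V f₀ h0 := ⟨1, by simp⟩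
    rw [h1, ← V.valuation_le_one_iff] at h2
    exact absurd h0 (not_lt.2 h2)
  · have h2 : f ∈ archSub V f₀ h0 := by rw [h1]; exact ValuationSubring.mem_top f
    exact h2

theorem IsR1.mulArch {V : ValuationSubring K} (h : IsR1 V) : MulArchimedean V.ValueGroupˣ := by
  refine ⟨fun x y hy => ?_⟩
  obtain ⟨f, hf⟩ := V.valuation_surjective (x : V.ValueGroup)
  obtain ⟨f₀, hf₀⟩ := V.valuation_surjective (y : V.ValueGroup)
  have h0 : 1 < V.valuation f₀ := by rw [hf₀]; exact_mod_cast hy
  obtain ⟨n, hn⟩ := h.arch h0 f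
  refine ⟨n, ?_⟩
  rw [hf, hf₀] at hn
  exact_mod_cast hn

/-- A valuation ring of rank one comes from a real valuation. -/
theorem IsR1.exists_real {V : ValuationSubring K} (h : IsR1 V) :
    ∃ v : RVal K, (∀ f : K, f ≠ 0 → (f ∈ V ↔ 0 ≤ v f)) ∧ ∃ f : K, f ≠ 0 ∧ 0 < v f := by
  classical
  have := h.mulArch
  obtain ⟨F, hF⟩ := Archimedean.exists_orderAddMonoidHom_real_injective (Additive V.ValueGroupˣ)
  have hFm : StrictMono F := F.monotone'.strictMono_of_injective hF
  have hne : ∀ f : K, f ≠ 0 → V.valuation f ≠ 0 := fun f hf => (Valuation.ne_zero_iff _).2 hf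
  let w : K → ℝ := fun f => if hf : f = 0 then 0 else
    - F (Additive.ofMul (Units.mk0 (V.valuation f) (hne f hf)))
  have hw : ∀ (f : K) (hf : f ≠ 0),
      w f = - F (Additive.ofMul (Units.mk0 (V.valuation f) (hne f hf))) := by
    intro f hf
    simp only [w, dif_neg hf]
  have hmono : ∀ f g : K, f ≠ 0 → g ≠ 0 → V.valuation f ≤ V.valuation g → w g ≤ w f := by
    intro f g hf hg hle
    rw [hw f hf, hw g hg, neg_le_neg_iff]
    exact hFm.monotone (by exact_mod_cast hle)
  have hmono' : ∀ f g : K, f ≠ 0 → g ≠ 0 → V.valuation f < V.valuation g → w g < w f := by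
    intro f g hf hg hle
    rw [hw f hf, hw g hg, neg_lt_neg_iff]
    exact hFm (by exact_mod_cast hle)
  have hone : w 1 = 0 := by
    rw [hw 1 one_ne_zero]
    have : Units.mk0 (V.valuation (1 : K)) (hne 1 one_ne_zero) = 1 := by
      ext; simp
    rw [this, ofMul_one, map_zero, neg_zero]
  let v : RVal K :=
    { toFun := w
      map_mul' := by
        intro x y hx hy
        rw [hw x hx, hw y hy, hw (x * y) (mul_ne_zero hx hy)]
        have : Units.mk0 (V.valuation (x * y)) (hne _ (mul_ne_zero hx hy)) =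
            Units.mk0 (V.valuation x) (hne x hx) * Units.mk0 (V.valuation y) (hne y hy) := by
          ext; simp
        rw [this, ofMul_mul, map_add]
        ring
      map_add' := by
        intro x y hx hy hxy
        have h1 := V.valuation.map_add x y
        rcases le_max_iff.1 h1 with h2 | h2
        · exact (min_le_left _ _).trans (hmono _ _ hxy hx h2)
        · exact (min_le_right _ _).trans (hmono _ _ hxy hy h2) }
  refine ⟨v, ?_, ?_⟩
  · intro f hf
    change f ∈ V ↔ 0 ≤ w f
    rw [← V.valuation_le_one_iff]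
    constructor
    · intro h1
      rw [← hone]
      exact hmono f 1 hf one_ne_zero (by rwa [map_one])
    · intro h1
      by_contra h2
      push Not at h2
      have := hmono' 1 f one_ne_zero hf (by rwa [map_one])
      rw [hone] at this
      linarith
  · obtain ⟨f, hf⟩ : ∃ f : K, f ∉ V := by
      by_contra h1
      push Not at h1
      exact h.1 (top_le_iff.1 fun x _ => h1 x)
    have hf0 : f ≠ 0 := by rintro rfl; exact hf (V.zero_mem)
    rw [← V.valuation_le_one_iff, not_le] at hf
    refine ⟨f⁻¹, inv_ne_zero hf0, ?_⟩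
    change 0 < w f⁻¹
    rw [← hone]
    refine hmono' f⁻¹ 1 (inv_ne_zero hf0) one_ne_zero ?_
    rw [map_inv₀, map_one]
    exact inv_lt_one_of_one_lt₀ hf

/-- The image of `V` in the residue field of a coarser valuation ring. -/
noncomputable def imgV {V V₁ : ValuationSubring K} (hle : V ≤ V₁) :
    ValuationSubring (IsLocalRing.ResidueField V₁) where
  toSubring := ((IsLocalRing.residue V₁).comp (V.inclusion V₁ hle)).range
  mem_or_inv_mem' := by
    intro c
    obtain ⟨x, rfl⟩ := IsLocalRing.residue_surjective (R := V₁) c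
    by_cases hx : IsUnit x
    · obtain ⟨y, hy⟩ := hx.exists_right_inv
      have hxy : (x : K) * (y : K) = 1 := by
        have := congrArg (fun z : V₁ => (z : K)) hy
        simpa using this
      have hy1 : (y : K) = (x : K)⁻¹ := eq_inv_of_mul_eq_one_right hxy
      rcases V.mem_or_inv_mem (x : K) with h1 | h1
      · exact Or.inl ⟨⟨x, h1⟩, rfl⟩
      · refine Or.inr ⟨⟨(x : K)⁻¹, h1⟩, ?_⟩
        have h2 : V.inclusion V₁ hle ⟨(x : K)⁻¹, h1⟩ = y := Subtype.ext hy1.symm
        rw [RingHom.comp_apply, h2]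
        refine eq_inv_of_mul_eq_one_right ?_
        rw [← map_mul, hy, map_one]
    · left
      have : IsLocalRing.residue V₁ x = 0 := by
        rw [IsLocalRing.residue_eq_zero_iff]
        exact hx
      rw [this]
      exact Subring.zero_mem _

/-- Existence of the residue map. -/
theorem exists_isRes {V V₁ : ValuationSubring K} (hle : V ≤ V₁)
    (hk : ∀ c : k, algebraMap k K c ∈ V) :
    ∃ (K₁ : Type u) (_ : Field K₁) (_ : Algebra k K₁) (φ : V₁ →+* K₁) (V₂ : ValuationSubring K₁),
      IsRes (k := k) V V₁ φ V₂ := by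
  let ψ : k →+* V₁ := (algebraMap k K).codRestrict V₁.toSubring (fun c => hle (hk c))
  let alg : Algebra k (IsLocalRing.ResidueField V₁) :=
    ((IsLocalRing.residue V₁).comp ψ).toAlgebra
  refine ⟨IsLocalRing.ResidueField V₁, inferInstance, alg, IsLocalRing.residue V₁, imgV hle, ?_⟩
  refine ⟨hle, hk, IsLocalRing.residue_surjective, fun c h => rfl, fun x => ?_⟩
  constructor
  · rintro ⟨y, hy⟩
    rw [RingHom.comp_apply] at hy
    have h1 : IsLocalRing.residue V₁ (x - V.inclusion V₁ hle y) = 0 := by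
      rw [map_sub, hy, sub_self]
    rw [IsLocalRing.residue_eq_zero_iff, V₁.valuation_lt_one_iff] at h1
    have h2 : V.valuation ((x - V.inclusion V₁ hle y : V₁) : K) < 1 :=
      val_lt_one_of_le hle h1
    have h3 : ((x - V.inclusion V₁ hle y : V₁) : K) ∈ V := (V.valuation_le_one_iff _).1 h2.le
    have h4 : (x : K) = ((x - V.inclusion V₁ hle y : V₁) : K) + (y : K) := by
      have : ((V.inclusion V₁ hle y : V₁) : K) = (y : K) := rfl
      push_cast
      rw [this]
      ring
    rw [h4]
    exact V.add_mem _ _ h3 y.2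
  · intro hx
    exact ⟨⟨x, hx⟩, rfl⟩

end Pool.Agent.LU2
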