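import Pool.Agent.Lib.LU2_h15.Composite
import Pool.Agent.Lib.LU2_h15.RankOne

/-! # LU2, C8: reduction to the real case -/

set_option autoImplicit false

namespace Pool.Agent.LU2

universe u

/-- The real case, for all function fields over `k`. -/
def RealCase (k : Type u) [Field k] : Prop :=
  ∀ (K : Type u) [Field K] [Algebra k K], (⊤ : IntermediateField k K).FG →
    ∀ V : ValuationSubring K, (∀ c : k, algebraMap k K c ∈ V) → IsR1 V → DefLE k V 1 → LU k V

/-- All nonzero elements have value one for the trivial valuation ring. -/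
theorem val_top {K : Type u} [Field K] {f : K} (hf : f ≠ 0) :
    (⊤ : ValuationSubring K).valuation f = 1 := by
  refine le_antisymm ?_ ?_
  · rw [ValuationSubring.valuation_le_one_iff]
    exact ValuationSubring.mem_top f
  · have h : (⊤ : ValuationSubring K).valuation f⁻¹ ≤ 1 := by
      rw [ValuationSubring.valuation_le_one_iff]
      exact ValuationSubring.mem_top _
    rw [map_inv₀] at h
    by_contra h6
    push Not at h6
    have := mul_lt_of_lt_of_le_one h6 h
    rw [mul_inv_cancel₀ ((Valuation.ne_zero_iff _).2 hf)] at this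
    exact lt_irrefl _ this

theorem mem_locV_top {k K : Type u} [Field k] [Field K] [Algebra k K] {A : Subalgebra k K}
    (hA : IsFrac A) (f : K) : f ∈ locV (⊤ : ValuationSubring K) A := by
  obtain ⟨a, ha, b, hb, hb0, rfl⟩ := hA f
  exact ⟨a, ha, b, hb, val_top hb0, rfl⟩

theorem lu_top {k K : Type u} [Field k] [Field K] [Algebra k K] :
    LU k (⊤ : ValuationSubring K) := by
  intro A _ _ hfrac T hT
  have hmono : ∀ t : K, t ≠ 0 →
      Mono (⊤ : ValuationSubring K) (locV (⊤ : ValuationSubring K) A) (Fin.elim0 : Fin 0 → K) t := by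
    intro t ht
    exact ⟨fun i => 0, t, mem_locV_top hfrac t, val_top ht, by simp, fun _ i => i.elim0,
      fun _ i => i.elim0⟩
  refine ⟨A, 1, IsChart.refl _ A, 0, Fin.elim0, ⟨fun i => i.elim0, fun i => i.elim0,
    fun i => i.elim0, ?_, ?_⟩, hmono 1 one_ne_zero, fun t ht => hmono t (hT t ht)⟩
  · intro f _ hf
    refine ⟨Fin.elim0, fun i => i.elim0, ?_⟩
    by_contra h0
    rw [Finset.univ_eq_empty, Finset.sum_empty] at h0
    rw [val_top h0] at hf
    exact lt_irrefl _ hf
  · have hfield : IsField (locV (⊤ : ValuationSubring K) A) := by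
      refine ⟨⟨0, 1, zero_ne_one⟩, mul_comm, ?_⟩
      intro a ha
      have ha0 : (a : K) ≠ 0 := fun h => ha (Subtype.ext h)
      exact ⟨⟨(a : K)⁻¹, mem_locV_top hfrac _⟩, Subtype.ext (mul_inv_cancel₀ ha0)⟩
    rw [ringKrullDim_eq_zero_of_isField hfield]
    rfl

theorem lu_all_aux {k : Type u} [Field k] (hreal : RealCase k) (n : ℕ) :
    ∀ (K : Type u) [Field K] [Algebra k K], (⊤ : IntermediateField k K).FG →
      Algebra.trdeg k K < (n : Cardinal) → ∀ V : ValuationSubring K,
      (∀ c : k, algebraMap k K c ∈ V) → DefLE k V 1 → LU k V := by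
  induction n with
  | zero =>
    intro K _ _ _ h
    exact absurd h (by simp)
  | succ n ih =>
    intro K _ _ hK hn V hk hV
    by_cases htop : V = ⊤
    · subst htop
      exact lu_top
    have hfin : Algebra.trdeg k K < Cardinal.aleph0 := hn.trans (Cardinal.natCast_lt_aleph0)
    obtain ⟨V₁, hle, hR1⟩ := exists_isR1 hk htop hfin
    obtain ⟨K₁, _, _, φ, V₂, hres⟩ := exists_isRes hle hk
    obtain ⟨δ₁, δ₂, hδ, hD₁, hD₂⟩ := DefLE.split hres hV
    have hlt := trdeg_res_lt hres hR1.1 hfin
    have hfin₁ : Algebra.trdeg k K₁ < Cardinal.aleph0 := hlt.trans hfin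
    have hle₁ : Algebra.trdeg k K₁ < (n : Cardinal) := by
      have h1 : Algebra.trdeg k K₁ < Algebra.trdeg k K := hlt
      have h2 : Algebra.trdeg k K ≤ (n : Cardinal) := by
        have h3 : Algebra.trdeg k K < Order.succ (n : Cardinal) := by
          rw [Cardinal.succ_natCast]
          exact_mod_cast hn
        exact Order.lt_succ_iff.1 h3
      exact lt_of_lt_of_le h1 h2
    have hk₂ : ∀ c : k, algebraMap k K₁ c ∈ V₂ := by
      intro c
      have hc : algebraMap k K c ∈ V₁ := hle (hk c)
      rw [← hres.map_const c hc, hres.mem]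
      exact hk c
    refine composite hres ?_ (hreal K hK V₁ (fun c => hle (hk c)) hR1 (hD₁.mono (by omega))) ?_
    · have := FinTrdeg.of_trdeg hfin₁
      obtain ⟨s, hs⟩ := exists_finset_isTranscendenceBasis k K₁
      refine ⟨s, ?_⟩
      have h := hs.isAlgebraic_field
      rwa [Subtype.range_coe_subtype, Finset.setOfPred_mem] at h
    · intro L hL halg
      have hLtop : (⊤ : IntermediateField k L).FG := by
        rw [← IntermediateField.essFiniteType_iff] at hL
        rw [IntermediateField.fg_top_iff]
        exact hL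
      have htr : Algebra.trdeg k L < (n : Cardinal) := by
        refine lt_of_le_of_lt ?_ hle₁
        exact trdeg_le_of_injective (Algebra.ofId L K₁ |>.restrictScalars k)
          (algebraMap L K₁).injective
      have := halg
      refine ih L hLtop htr _ ?_ (DefLE.comap hk₂ L (hD₂.mono (by omega)))
      intro c
      rw [ValuationSubring.mem_comap]
      have h := hk₂ c
      rwa [IsScalarTower.algebraMap_apply k L K₁] at h

theorem lu_all {k : Type u} [Field k] (hreal : RealCase k) (K : Type u) [Field K] [Algebra k K]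
    (hK : (⊤ : IntermediateField k K).FG) (V : ValuationSubring K)
    (hk : ∀ c : k, algebraMap k K c ∈ V) (hV : DefLE k V 1) : LU k V := by
  have : Algebra.EssFiniteType k K := IntermediateField.fg_top_iff.1 hK
  obtain ⟨n, hn⟩ := Cardinal.lt_aleph0.1 (trdeg_lt_aleph0 k K)
  refine lu_all_aux hreal (n + 1) K hK ?_ V hk hV
  rw [hn]
  exact_mod_cast Nat.lt_succ_self n

end Pool.Agent.LU2
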