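import Pool.Agent.Lib.LU2_h15.AbhA

/-! # LU2, C6b: the defect is additive for composite valuations -/

set_option autoImplicit false

namespace Pool.Agent.LU2

universe u

variable {k K : Type u} [Field k] [Field K] [Algebra k K]

/-- The valuation as a linear map over the integers. -/
noncomputable def nu (V : ValuationSubring K) : Additive Kˣ →ₗ[ℤ] Additive (V.ValueGroup)ˣ :=
  (MonoidHom.toAdditive (Units.map (V.valuation : K →* V.ValueGroup))).toIntLinearMap

theorem nu_eq_zero {V : ValuationSubring K} (a : Additive Kˣ) :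
    nu V a = 0 ↔ V.valuation ((Additive.toMul a : Kˣ) : K) = 1 := by
  constructor
  · intro h
    have h1 : Additive.toMul (nu V a) = 1 := congrArg Additive.toMul h
    have h2 := congrArg (fun u : (V.ValueGroup)ˣ => (u : V.ValueGroup)) h1
    exact h2
  · intro h
    refine Additive.toMul.injective ?_
    refine Units.ext ?_
    exact h

theorem coe_comb {ι : Type*} (y : ι → Additive Kˣ) (l : ι →₀ ℤ) :
    ((Additive.toMul (Finsupp.linearCombination ℤ y l) : Kˣ) : K) =
      l.prod fun i n => ((Additive.toMul (y i) : Kˣ) : K) ^ n := by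
  rw [Finsupp.linearCombination_apply, Finsupp.sum, toMul_sum, Units.coe_prod, Finsupp.prod]
  refine Finset.prod_congr rfl fun i _ => ?_
  rw [toMul_zsmul, Units.val_zpow_eq_zpow_val]

theorem indVal_iff {V : ValuationSubring K} {ι : Type*} (y : ι → Additive Kˣ) :
    IndVal V (fun i => ((Additive.toMul (y i) : Kˣ) : K)) ↔
      LinearIndependent ℤ (fun i => nu V (y i)) := by
  rw [linearIndependent_iff]
  have h : ∀ l : ι →₀ ℤ, Finsupp.linearCombination ℤ (fun i => nu V (y i)) l = 0 ↔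
      V.valuation (l.prod fun i n => ((Additive.toMul (y i) : Kˣ) : K) ^ n) = 1 := by
    intro l
    have h0 := Finsupp.apply_linearCombination ℤ (nu V) y l
    rw [← coe_comb, ← nu_eq_zero, h0]
    rfl
  constructor
  · intro h1 l hl
    exact h1.2 l ((h l).1 hl)
  · intro h1
    exact ⟨fun i => Units.ne_zero _, fun l hl => h1 l ((h l).2 hl)⟩

/-- Independent values for a composite valuation. -/
theorem split_val {V V₁ : ValuationSubring K} {r : ℕ} {x : Fin r → K} (hx : IndVal V x) :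
    ∃ r₁ r₂ : ℕ, r₁ + r₂ = r ∧ (∃ w : Fin r₁ → K, IndVal V₁ w) ∧
      ∃ y : Fin r₂ → K, (∀ i, V₁.valuation (y i) = 1) ∧ IndVal V y := by
  let X : Fin r → Additive Kˣ := fun i => Additive.ofMul (Units.mk0 (x i) (hx.1 i))
  have hX : LinearIndependent ℤ (fun i => nu V (X i)) := (indVal_iff X).1 hx
  let C : (Fin r → ℤ) →ₗ[ℤ] Additive Kˣ := Fintype.linearCombination ℤ X
  let T : (Fin r → ℤ) →ₗ[ℤ] Additive (V₁.ValueGroup)ˣ := (nu V₁).comp C
  have hrank : Module.finrank ℤ (LinearMap.range T) + Module.finrank ℤ (LinearMap.ker T) = r := by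
    rw [← (LinearMap.quotKerEquivRange T).finrank_eq, Submodule.finrank_quotient_add_finrank]
    simp
  refine ⟨Module.finrank ℤ (LinearMap.range T), Module.finrank ℤ (LinearMap.ker T), hrank, ?_, ?_⟩
  · obtain ⟨f, hf⟩ := exists_linearIndependent_of_le_finrank
      (le_refl (Module.finrank ℤ (LinearMap.range T)))
    choose g hg using fun i => (f i).2
    refine ⟨fun i => ((Additive.toMul (C (g i)) : Kˣ) : K), (indVal_iff fun i => C (g i)).2 ?_⟩
    have h1 := hf.map' (LinearMap.range T).subtype (Submodule.ker_subtype _)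
    have h2 : (fun i => nu V₁ (C (g i))) = (LinearMap.range T).subtype ∘ f := funext hg
    rw [h2]
    exact h1
  · obtain ⟨f, hf⟩ := exists_linearIndependent_of_le_finrank
      (le_refl (Module.finrank ℤ (LinearMap.ker T)))
    refine ⟨fun i => ((Additive.toMul (C (f i)) : Kˣ) : K), ?_,
      (indVal_iff fun i => C (f i)).2 ?_⟩
    · intro i
      rw [← nu_eq_zero]
      exact (f i).2
    · have h1 := hf.map' (LinearMap.ker T).subtype (Submodule.ker_subtype _)
      have h3 : LinearMap.ker ((nu V).comp C) = ⊥ := by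
        rw [LinearMap.ker_eq_bot']
        intro m hm
        have h4 := Fintype.linearIndependent_iff.1 hX m (by
          have h5 : (nu V).comp C m = ∑ i, m i • nu V (X i) := by
            rw [LinearMap.comp_apply]
            show nu V (Fintype.linearCombination ℤ X m) = _
            rw [Fintype.linearCombination_apply, map_sum]
            refine Finset.sum_congr rfl fun i _ => ?_
            rw [map_smul]
          rw [← h5]
          exact hm)
        exact funext h4
      have h6 := h1.map' ((nu V).comp C) h3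
      have h7 : (fun i => nu V (C (f i))) =
          (nu V).comp C ∘ ((LinearMap.ker T).subtype ∘ f) := rfl
      rw [h7]
      exact h6

theorem IsRes.trdeg_le {V V₁ : ValuationSubring K} {K₁ : Type u} [Field K₁] [Algebra k K₁]
    {φ : V₁ →+* K₁} {V₂ : ValuationSubring K₁} (hres : IsRes (k := k) V V₁ φ V₂) {n r : ℕ}
    (hn : Algebra.trdeg k K = n) {x : Fin r → K} (hx : IndVal V₁ x) :
    ∃ n₁ : ℕ, Algebra.trdeg k K₁ = n₁ ∧ r + n₁ ≤ n ∧ ∃ z : Fin n₁ → K, IndRes k V₁ z := by
  have key : ∀ m : ℕ, (m : Cardinal) ≤ Algebra.trdeg k K₁ →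
      r + m ≤ n ∧ ∃ z : Fin m → K, IndRes k V₁ z := by
    intro m hm
    obtain ⟨y, hy⟩ := exists_algInd hm
    choose z hz using fun i => hres.surj (y i)
    have hy' : AlgebraicIndependent k (fun i => φ (z i)) := by
      have : (fun i => φ (z i)) = y := funext hz
      rw [this]
      exact hy
    have h2 := abhyankar hres.const₁ hx (hres.indRes z hy')
    rw [hn] at h2
    exact ⟨by exact_mod_cast h2, _, hres.indRes z hy'⟩
  have hfin : Algebra.trdeg k K₁ < Cardinal.aleph0 := by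
    by_contra h
    push Not at h
    have h1 := (key (n + 1) ((Cardinal.natCast_le_aleph0).trans h)).1
    omega
  obtain ⟨n₁, hn₁⟩ := Cardinal.lt_aleph0.1 hfin
  obtain ⟨h1, h2⟩ := key n₁ hn₁.ge
  exact ⟨n₁, hn₁, h1, h2⟩

theorem IsRes.indVal₂ {V V₁ : ValuationSubring K} {K₁ : Type u} [Field K₁] [Algebra k K₁]
    {φ : V₁ →+* K₁} {V₂ : ValuationSubring K₁} (hres : IsRes (k := k) V V₁ φ V₂) {ι : Type*}
    {y : ι → V₁} (h1 : ∀ i, V₁.valuation (y i : K) = 1) (h : IndVal V (fun i => (y i : K))) :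
    IndVal V₂ (fun i => φ (y i)) := by
  refine ⟨fun i => (hres.ne_zero_iff _).2 (h1 i), ?_⟩
  intro e he
  have hu : ∀ i, IsUnit (y i) := by
    intro i
    exact (V₁.valuation_eq_one_iff _).2 (h1 i)
  choose u hu' using hu
  let P : V₁ˣ := e.prod fun i n => u i ^ n
  have hP1 : ((P : V₁) : K) = e.prod fun i n => (y i : K) ^ n := by
    have h2 : ((P : V₁) : K) = ((Units.map (V₁.subtype : V₁ →* K) P : Kˣ) : K) := rfl
    rw [h2]
    show ((Units.map (V₁.subtype : V₁ →* K) (e.prod fun i n => u i ^ n) : Kˣ) : K) = _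
    rw [map_finsuppProd, Finsupp.prod, Units.coe_prod, Finsupp.prod]
    refine Finset.prod_congr rfl fun i _ => ?_
    rw [map_zpow, Units.val_zpow_eq_zpow_val, ← hu' i]
    rfl
  have hP2 : φ (P : V₁) = e.prod fun i n => φ (y i) ^ n := by
    have h2 : φ (P : V₁) = ((Units.map (φ : V₁ →* K₁) P : K₁ˣ) : K₁) := rfl
    rw [h2]
    show ((Units.map (φ : V₁ →* K₁) (e.prod fun i n => u i ^ n) : K₁ˣ) : K₁) = _
    rw [map_finsuppProd, Finsupp.prod, Units.coe_prod, Finsupp.prod]
    refine Finset.prod_congr rfl fun i _ => ?_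
    rw [map_zpow, Units.val_zpow_eq_zpow_val, ← hu' i]
    rfl
  have hP3 : V₁.valuation ((P : V₁) : K) = 1 := by
    exact (V₁.valuation_eq_one_iff _).1 P.isUnit
  rw [← hP2, hres.val_eq_iff _ hP3, hP1] at he
  exact h.2 e he

/-- The defect is additive for composite valuations. -/
theorem DefLE.split {V V₁ : ValuationSubring K} {K₁ : Type u} [Field K₁] [Algebra k K₁]
    {φ : V₁ →+* K₁} {V₂ : ValuationSubring K₁} (hres : IsRes (k := k) V V₁ φ V₂) {δ : ℕ}
    (h : DefLE k V δ) :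
    ∃ δ₁ δ₂ : ℕ, δ₁ + δ₂ ≤ δ ∧ DefLE k V₁ δ₁ ∧ DefLE k V₂ δ₂ := by
  obtain ⟨r, d, h1, ⟨x, hx⟩, z, hz⟩ := h
  obtain ⟨n, hn⟩ := Cardinal.lt_aleph0.1 (h1.trans_lt Cardinal.natCast_lt_aleph0)
  have hn' : n ≤ r + d + δ := by
    rw [hn] at h1
    exact_mod_cast h1
  obtain ⟨r₁, r₂, hr, ⟨w, hw⟩, y, hy1, hy2⟩ := split_val (V₁ := V₁) hx
  obtain ⟨n₁, hn₁, hle₁, z₁, hz₁⟩ := hres.trdeg_le hn hw
  let Y : Fin r₂ → V₁ := fun i => ⟨y i, (V₁.valuation_le_one_iff _).1 (hy1 i).le⟩
  have hY : IndVal V₂ (fun i => φ (Y i)) := hres.indVal₂ (y := Y) hy1 hy2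
  let Z : Fin d → V₁ := fun i => ⟨z i, hres.le (hz.1 i)⟩
  have hZ : IndRes k V₂ (fun i => φ (Z i)) := hres.indRes₂ Z hz
  have hle₂ : r₂ + d ≤ n₁ := by
    have h2 := abhyankar hres.const₂ hY hZ
    rw [hn₁] at h2
    exact_mod_cast h2
  refine ⟨n - (r₁ + n₁), n₁ - (r₂ + d), by omega, ⟨r₁, n₁, ?_, ⟨w, hw⟩, z₁, hz₁⟩,
    ⟨r₂, d, ?_, ⟨_, hY⟩, _, hZ⟩⟩
  · rw [hn]
    exact_mod_cast (by omega : n ≤ r₁ + n₁ + (n - (r₁ + n₁)))
  · rw [hn₁]
    exact_mod_cast (by omega : n₁ ≤ r₂ + d + (n₁ - (r₂ + d)))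

end Pool.Agent.LU2
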