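import Pool.Agent.Lib.LU2_h15.Defs

/-!
# LU2, C1: charts, local rings, monomials
-/

set_option autoImplicit false

namespace Pool.Agent.LU2

universe u

variable {k K : Type u} [Field k] [Field K] [Algebra k K] {V V₁ : ValuationSubring K}

/-! ### `locV` -/

theorem le_locV (S : Subalgebra k K) : S ≤ locV V S := fun f hf =>
  ⟨f, hf, 1, S.one_mem, map_one _, by rw [div_one]⟩

theorem locV_mono {S T : Subalgebra k K} (h : S ≤ T) : locV V S ≤ locV V T := by
  rintro f ⟨a, ha, b, hb, h1, rfl⟩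
  exact ⟨a, h ha, b, h hb, h1, rfl⟩

theorem locV_le {S R : Subalgebra k K} (h : S ≤ R)
    (hR : ∀ f ∈ R, V.valuation f = 1 → f⁻¹ ∈ R) : locV V S ≤ R := by
  rintro f ⟨a, ha, b, hb, h1, rfl⟩
  rw [div_eq_mul_inv]
  exact R.mul_mem (h ha) (hR b (h hb) h1)

theorem locV_inv {S : Subalgebra k K} {f : K} (hf : f ∈ locV V S) (h1 : V.valuation f = 1) :
    f⁻¹ ∈ locV V S := by
  obtain ⟨a, ha, b, hb, hvb, rfl⟩ := hf
  refine ⟨b, hb, a, ha, ?_, by rw [inv_div]⟩
  rwa [map_div₀, hvb, div_one] at h1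

theorem locV_mem {S : Subalgebra k K} (hS : ∀ f ∈ S, f ∈ V) : ∀ f ∈ locV V S, f ∈ V := by
  rintro f ⟨a, ha, b, hb, h1, rfl⟩
  rw [← V.valuation_le_one_iff, map_div₀, h1, div_one, V.valuation_le_one_iff]
  exact hS a ha

theorem locV_locV (S : Subalgebra k K) : locV V (locV V S) = locV V S :=
  le_antisymm (locV_le le_rfl fun _ hf h1 => locV_inv hf h1) (le_locV _)

/-- `V ≤ V₁` in terms of the valuations. -/
theorem val_le_one_of_le (hle : V ≤ V₁) {f : K} (h : V.valuation f ≤ 1) :
    V₁.valuation f ≤ 1 := by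
  rw [V₁.valuation_le_one_iff]
  exact hle ((V.valuation_le_one_iff f).1 h)

theorem val_lt_one_of_le (hle : V ≤ V₁) {f : K} (h : V₁.valuation f < 1) :
    V.valuation f < 1 := by
  by_contra h1
  push Not at h1
  have h0 : f ≠ 0 := by rintro rfl; simp at h1
  have h2 : V.valuation f⁻¹ ≤ 1 := by rw [map_inv₀]; exact inv_le_one_of_one_le₀ h1
  have h3 := val_le_one_of_le hle h2
  rw [map_inv₀] at h3
  have h4 : 0 < V₁.valuation f := by rwa [Valuation.pos_iff]
  have h5 : 1 ≤ V₁.valuation f := by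
    by_contra h6
    push Not at h6
    have := mul_lt_of_lt_of_le_one h6 h3
    rw [mul_inv_cancel₀ h4.ne'] at this
    exact lt_irrefl _ this
  exact absurd h (not_lt.2 h5)

theorem val_eq_one_of_le (hle : V ≤ V₁) {f : K} (h : V.valuation f = 1) :
    V₁.valuation f = 1 := by
  refine le_antisymm (val_le_one_of_le hle h.le) ?_
  have h2 : V.valuation f⁻¹ ≤ 1 := by rw [map_inv₀, h, inv_one]
  have h3 := val_le_one_of_le hle h2
  have h0 : f ≠ 0 := by rintro rfl; simp at h
  rw [map_inv₀] at h3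
  by_contra h6
  push Not at h6
  have := mul_lt_of_lt_of_le_one h6 h3
  rw [mul_inv_cancel₀ ((Valuation.ne_zero_iff _).2 h0)] at this
  exact lt_irrefl _ this

/-! ### charts -/

theorem IsChart.le {A A' : Subalgebra k K} {g : K} (h : IsChart V A A' g) : A ≤ A' := by
  obtain ⟨_, _, G, _, rfl⟩ := h
  exact fun a ha => Algebra.subset_adjoin (Or.inl ha)

theorem IsChart.mem {A A' : Subalgebra k K} {g : K} (h : IsChart V A A' g)
    (hA : ∀ a ∈ A, a ∈ V) : ∀ a ∈ A', a ∈ V := by
  obtain ⟨hg, hg0, G, hG, rfl⟩ := h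
  intro a ha
  induction ha using Algebra.adjoin_induction with
  | mem x hx =>
    rcases hx with hx | ⟨y, hy, rfl⟩
    · exact hA x hx
    · have h1 := (hG y hy).2
      rw [← V.valuation_le_one_iff]
      simp only [map_div₀]
      exact div_le_one_of_le₀ h1 zero_le
  | algebraMap c => exact hA _ (A.algebraMap_mem c)
  | add x y _ _ hx hy => exact V.add_mem _ _ hx hy
  | mul x y _ _ hx hy => exact V.mul_mem _ _ hx hy

theorem IsChart.fg {A A' : Subalgebra k K} {g : K} (h : IsChart V A A' g) (hA : A.FG) :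
    A'.FG := by
  obtain ⟨hg, hg0, G, hG, rfl⟩ := h
  rw [Algebra.adjoin_union, Algebra.adjoin_eq]
  exact hA.sup (Subalgebra.fg_def.2 ⟨_, G.finite_toSet.image _, rfl⟩)

theorem IsChart.refl (V : ValuationSubring K) (A : Subalgebra k K) : IsChart V A A 1 := by
  refine ⟨A.one_mem, one_ne_zero, ∅, by simp, ?_⟩
  simp [Algebra.adjoin_eq]

/-- A power of `g` clears the denominators. -/
theorem IsChart.exists_pow {A A' : Subalgebra k K} {g : K} (h : IsChart V A A' g) {f : K}
    (hf : f ∈ A') : ∃ n : ℕ, g ^ n * f ∈ A := by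
  obtain ⟨hg, hg0, G, hG, rfl⟩ := h
  induction hf using Algebra.adjoin_induction with
  | mem x hx =>
    rcases hx with hx | ⟨y, hy, rfl⟩
    · exact ⟨0, by simpa using hx⟩
    · refine ⟨1, ?_⟩
      simp only [pow_one]
      rw [mul_div_cancel₀ _ hg0]
      exact (hG y hy).1
  | algebraMap c => exact ⟨0, by simp⟩
  | add x y _ _ hx hy =>
    obtain ⟨n, hn⟩ := hx
    obtain ⟨m, hm⟩ := hy
    refine ⟨n + m, ?_⟩
    have : g ^ (n + m) * (x + y) = g ^ m * (g ^ n * x) + g ^ n * (g ^ m * y) := by ring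
    rw [this]
    exact A.add_mem (A.mul_mem (A.pow_mem hg _) hn) (A.mul_mem (A.pow_mem hg _) hm)
  | mul x y _ _ hx hy =>
    obtain ⟨n, hn⟩ := hx
    obtain ⟨m, hm⟩ := hy
    refine ⟨n + m, ?_⟩
    have : g ^ (n + m) * (x * y) = (g ^ n * x) * (g ^ m * y) := by ring
    rw [this]
    exact A.mul_mem hn hm

/-- A blowing up of a blowing up is a blowing up. -/
theorem IsChart.trans {A A' A'' : Subalgebra k K} {g g' : K} (h : IsChart V A A' g)
    (h' : IsChart V A' A'' g') : ∃ n : ℕ, IsChart V A A'' (g ^ n * g') := by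
  classical
  have hle := h.le
  have hpow := fun f (hf : f ∈ A') => h.exists_pow hf
  obtain ⟨hg, hg0, G, hG, rfl⟩ := h
  obtain ⟨hg', hg0', G', hG', rfl⟩ := h'
  have hmono : ∀ (f : K) (n m : ℕ), n ≤ m → g ^ n * f ∈ A → g ^ m * f ∈ A := by
    intro f n m hnm hf
    obtain ⟨j, rfl⟩ := Nat.exists_eq_add_of_le hnm
    have : g ^ (n + j) * f = g ^ j * (g ^ n * f) := by ring
    rw [this]
    exact A.mul_mem (A.pow_mem hg _) hf
  have hN : ∃ N : ℕ, ∀ x ∈ insert g' G', g ^ N * x ∈ A := by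
    have hmem : ∀ x ∈ insert g' G', ∃ n : ℕ, g ^ n * x ∈ A := by
      intro x hx
      rcases Finset.mem_insert.1 hx with rfl | hx
      · exact hpow _ hg'
      · exact hpow _ (hG' x hx).1
    choose! n hn using hmem
    refine ⟨(insert g' G').sup n, fun x hx => hmono x _ _ (Finset.le_sup hx) (hn x hx)⟩
  obtain ⟨N, hN⟩ := hN
  have hgN0 : g ^ N ≠ 0 := pow_ne_zero _ hg0
  refine ⟨N + 1, ?_, mul_ne_zero (pow_ne_zero _ hg0) hg0',
    G'.image (fun x => g ^ (N + 1) * x) ∪ G.image (fun x => g ^ N * x * g'), ?_, ?_⟩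
  · exact hmono _ _ _ (Nat.le_succ N) (hN g' (Finset.mem_insert_self _ _))
  · intro x hx
    rcases Finset.mem_union.1 hx with hx | hx
    · obtain ⟨y, hy, rfl⟩ := Finset.mem_image.1 hx
      refine ⟨hmono _ _ _ (Nat.le_succ N) (hN y (Finset.mem_insert_of_mem hy)), ?_⟩
      rw [map_mul, map_mul]
      exact mul_le_mul_right (hG' y hy).2 _
    · obtain ⟨y, hy, rfl⟩ := Finset.mem_image.1 hx
      constructor
      · have : g ^ N * y * g' = y * (g ^ N * g') := by ring
        rw [this]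
        exact A.mul_mem (hG y hy).1 (hN g' (Finset.mem_insert_self _ _))
      · rw [pow_succ, map_mul, map_mul, map_mul, map_mul]
        exact mul_le_mul_left (mul_le_mul_right (hG y hy).2 _) _
  · refine le_antisymm (Algebra.adjoin_le ?_) (Algebra.adjoin_le ?_)
    · rintro x (hx | ⟨y, hy, rfl⟩)
      · refine Algebra.adjoin_mono ?_ hx
        rintro w (hw | ⟨y, hy, rfl⟩)
        · exact Or.inl hw
        · refine Or.inr ⟨g ^ N * y * g', ?_, ?_⟩
          · simp only [Finset.coe_union, Finset.coe_image]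
            exact Or.inr ⟨y, hy, rfl⟩
          · simp only
            field_simp
            ring
      · refine Algebra.subset_adjoin (Or.inr ⟨g ^ (N + 1) * y, ?_, ?_⟩)
        · simp only [Finset.coe_union, Finset.coe_image]
          exact Or.inl ⟨y, hy, rfl⟩
        · simp only
          field_simp
    · rintro x (hx | ⟨y, hy, rfl⟩)
      · exact Algebra.subset_adjoin (Or.inl (hle hx))
      · simp only [Finset.coe_union, Finset.coe_image] at hy
        rcases hy with ⟨w, hw, rfl⟩ | ⟨w, hw, rfl⟩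
        · have : g ^ (N + 1) * w / (g ^ (N + 1) * g') = w / g' := by field_simp
          simp only
          rw [this]
          exact Algebra.subset_adjoin (Or.inr ⟨w, hw, rfl⟩)
        · have : g ^ N * w * g' / (g ^ (N + 1) * g') = w / g := by
            field_simp
            ring
          simp only
          rw [this]
          refine Algebra.subset_adjoin (Or.inl ?_)
          exact Algebra.subset_adjoin (Or.inr ⟨w, hw, rfl⟩)

/-- Adjoining a fraction `a / b ∈ V`. -/
theorem IsChart.adjoin {A : Subalgebra k K} {a b : K} (ha : a ∈ A) (hb : b ∈ A) (hb0 : b ≠ 0)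
    (h : V.valuation a ≤ V.valuation b) :
    IsChart V A (Algebra.adjoin k ((A : Set K) ∪ {a / b})) b := by
  exact ⟨hb, hb0, {a}, by simpa using ⟨ha, h⟩, by simp⟩

/-- If `g ∈ A` has value one for the coarser valuation ring `V₁`, the local ring of `V₁` is not
changed. -/
theorem IsChart.locV_eq {A A' : Subalgebra k K} {g : K} (h : IsChart V A A' g)
    (hg : V₁.valuation g = 1) : locV V₁ A' = locV V₁ A := by
  refine le_antisymm (locV_le ?_ fun _ hf h1 => locV_inv hf h1) (locV_mono h.le)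
  obtain ⟨hgA, hg0, G, hG, rfl⟩ := h
  refine Algebra.adjoin_le ?_
  rintro x (hx | ⟨y, hy, rfl⟩)
  · exact le_locV _ hx
  · exact ⟨y, (hG y hy).1, g, hgA, hg, rfl⟩

/-- For `V ≤ V₁`: a chart along `V₁` is, up to the choice of an element of least `V`-value and up
to localisation, a chart along `V`. -/
theorem IsChart.refine (hle : V ≤ V₁) {A A' : Subalgebra k K} {g : K} (h : IsChart V₁ A A' g) :
    ∃ (A₁ : Subalgebra k K) (g₁ : K), IsChart V A A₁ g₁ ∧ locV V₁ A₁ = locV V₁ A' ∧
      g / g₁ ∈ locV V₁ A' ∧ V₁.valuation (g / g₁) = 1 := by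
  classical
  have h' := h
  obtain ⟨hg, hg0, G, hG, rfl⟩ := h
  obtain ⟨g₁, hg₁, hmax⟩ := Finset.exists_max_image (insert g G) (fun x => V.valuation x)
    ⟨g, Finset.mem_insert_self _ _⟩
  have hg₁A : g₁ ∈ A := by
    rcases Finset.mem_insert.1 hg₁ with rfl | h1
    · exact hg
    · exact (hG _ h1).1
  have hvg : V.valuation g ≤ V.valuation g₁ := hmax g (Finset.mem_insert_self _ _)
  have hg₁0 : g₁ ≠ 0 := by
    rintro rfl
    rw [map_zero, le_zero_iff, Valuation.zero_iff] at hvg
    exact hg0 hvg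
  have hv1 : V₁.valuation g₁ ≤ V₁.valuation g := by
    rcases Finset.mem_insert.1 hg₁ with rfl | h1
    · exact le_rfl
    · exact (hG _ h1).2
  have hq : V₁.valuation (g / g₁) = 1 := by
    refine le_antisymm (val_le_one_of_le hle ?_) ?_
    · rw [map_div₀]
      exact div_le_one_of_le₀ hvg zero_le
    · rw [map_div₀]
      rwa [one_le_div₀ (by rwa [Valuation.pos_iff])]
  have hq' : V₁.valuation (g₁ / g) = 1 := by
    rw [← inv_div, map_inv₀, hq, inv_one]
  have hgg : g₁ / g ∈ Algebra.adjoin k ((A : Set K) ∪ (fun x => x / g) '' (G : Set K)) := by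
    rcases Finset.mem_insert.1 hg₁ with rfl | h1
    · rw [div_self hg0]
      exact Subalgebra.one_mem _
    · exact Algebra.subset_adjoin (Or.inr ⟨g₁, h1, rfl⟩)
  have hgl : g / g₁ ∈ locV V₁ (Algebra.adjoin k
      ((A : Set K) ∪ (fun x => x / g) '' (G : Set K))) := by
    rw [← inv_div]
    exact locV_inv (le_locV _ hgg) hq'
  have hch : IsChart V A (Algebra.adjoin k
      ((A : Set K) ∪ (fun x => x / g₁) '' ((insert g G : Finset K) : Set K))) g₁ := by
    refine ⟨hg₁A, hg₁0, insert g G, ?_, rfl⟩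
    intro x hx
    refine ⟨?_, hmax x hx⟩
    rcases Finset.mem_insert.1 hx with rfl | h1
    · exact hg
    · exact (hG _ h1).1
  refine ⟨_, g₁, hch, ?_, hgl, hq⟩
  refine le_antisymm (locV_le (Algebra.adjoin_le ?_) fun _ hf h1 => locV_inv hf h1)
    (locV_le (Algebra.adjoin_le ?_) fun _ hf h1 => locV_inv hf h1)
  · rintro x (hx | ⟨y, hy, rfl⟩)
    · exact le_locV _ (Algebra.subset_adjoin (Or.inl hx))
    · have : y / g₁ = (y / g) * (g / g₁) := by field_simp
      simp only
      rw [this]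
      refine Subalgebra.mul_mem _ ?_ hgl
      rcases Finset.mem_insert.1 (by exact_mod_cast hy) with rfl | h1
      · rw [div_self hg0]
        exact Subalgebra.one_mem _
      · exact le_locV _ (Algebra.subset_adjoin (Or.inr ⟨y, h1, rfl⟩))
  · rintro x (hx | ⟨y, hy, rfl⟩)
    · exact le_locV _ (Algebra.subset_adjoin (Or.inl hx))
    · have : y / g = (y / g₁) * (g₁ / g) := by field_simp
      simp only
      rw [this]
      refine Subalgebra.mul_mem _ (le_locV _ (Algebra.subset_adjoin (Or.inr ⟨y, ?_, rfl⟩))) ?_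
      · rw [Finset.coe_insert]
        exact Or.inr hy
      · rw [← inv_div]
        refine locV_inv (le_locV _ (Algebra.subset_adjoin (Or.inr ⟨g, ?_, rfl⟩))) hq
        rw [Finset.coe_insert]
        exact Or.inl rfl

/-! ### monomials -/

theorem Mono.mul {R : Subalgebra k K} {n : ℕ} {z : Fin n → K} (hz : ∀ i, z i ≠ 0) {s t : K}
    (hs : Mono V R z s) (ht : Mono V R z t)
    (hs1 : V.valuation s ≤ 1) (ht1 : V.valuation t ≤ 1) : Mono V R z (s * t) := by
  obtain ⟨e, w, hw, hw1, hse, h1, h2⟩ := hs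
  obtain ⟨e', w', hw', hw1', hte, h1', h2'⟩ := ht
  refine ⟨e + e', w * w', R.mul_mem hw hw', by rw [map_mul, hw1, hw1', one_mul], ?_, ?_, ?_⟩
  · have : ∀ i, z i ^ (e + e') i = z i ^ e i * z i ^ e' i := fun i => by
      rw [Pi.add_apply, zpow_add₀ (hz i)]
    simp_rw [this]
    rw [Finset.prod_mul_distrib]
    rw [hse, hte]
    ring
  · intro _ i
    exact add_nonneg (h1 hs1 i) (h1' ht1 i)
  · intro h i
    rw [map_mul] at h
    have hs2 : 1 ≤ V.valuation s := by
      by_contra h3
      push Not at h3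
      exact absurd (mul_lt_of_lt_of_le_one h3 ht1) (not_lt.2 h)
    have ht2 : 1 ≤ V.valuation t := by
      by_contra h3
      push Not at h3
      exact absurd (mul_lt_of_le_one_of_lt hs1 h3) (not_lt.2 h)
    exact add_nonpos (h2 hs2 i) (h2' ht2 i)

theorem Mono.pow {R : Subalgebra k K} {n : ℕ} {z : Fin n → K} (hz : ∀ i, z i ≠ 0) {s : K}
    (hs : Mono V R z s) (hs1 : V.valuation s ≤ 1) (N : ℕ) : Mono V R z (s ^ N) := by
  have hone : Mono V R z 1 := ⟨0, 1, R.one_mem, map_one _, by simp, by simp, by simp⟩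
  have h1 : ∀ N : ℕ, V.valuation (s ^ N) ≤ 1 := fun N => by
    rw [map_pow]
    exact pow_le_one' hs1 N
  induction N with
  | zero => simpa using hone
  | succ N ih =>
    rw [pow_succ]
    exact Mono.mul hz ih hs (h1 N) hs1

theorem Mono.inv {R : Subalgebra k K} (hR : ∀ f ∈ R, V.valuation f = 1 → f⁻¹ ∈ R) {n : ℕ}
    {z : Fin n → K} {s : K} (hs : Mono V R z s) : Mono V R z s⁻¹ := by
  by_cases h0 : s = 0
  · subst h0
    simpa using hs
  obtain ⟨e, w, hw, hw1, hse, h1, h2⟩ := hs
  have hv0 : 0 < V.valuation s := by rwa [Valuation.pos_iff]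
  refine ⟨-e, w⁻¹, hR w hw hw1, by rw [map_inv₀, hw1, inv_one], ?_, ?_, ?_⟩
  · rw [hse, mul_inv, ← Finset.prod_inv_distrib]
    congr 1
    refine Finset.prod_congr rfl fun i _ => ?_
    rw [Pi.neg_apply, zpow_neg]
  · intro h i
    rw [map_inv₀, inv_le_one₀ hv0] at h
    have := h2 h i
    simpa using this
  · intro h i
    rw [map_inv₀, one_le_inv₀ hv0] at h
    have := h1 h i
    simpa using this

theorem Mono.unit {R : Subalgebra k K} {n : ℕ} {z : Fin n → K} {w : K} (hw : w ∈ R)
    (h1 : V.valuation w = 1) : Mono V R z w := by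
  exact ⟨0, w, hw, h1, by simp, by simp, by simp⟩

theorem Mono.one {R : Subalgebra k K} {n : ℕ} {z : Fin n → K} : Mono V R z 1 := by
  exact ⟨0, 1, R.one_mem, map_one _, by simp, by simp, by simp⟩

theorem Mono.par {R : Subalgebra k K} {n : ℕ} {z : Fin n → K} (hz : IsPar V R z) (i : Fin n) :
    Mono V R z (z i) := by
  classical
  refine ⟨Pi.single i 1, 1, R.one_mem, map_one _, ?_, ?_, ?_⟩
  · rw [mul_one, Finset.prod_eq_single i]
    · simp
    · intro j _ hj
      simp [Pi.single_eq_of_ne hj]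
    · simp
  · intro _ j
    by_cases hj : j = i
    · subst hj
      simp
    · simp [Pi.single_eq_of_ne hj]
  · intro h
    exact absurd (hz.pos i) (not_lt.2 h)

/-- Pass to a chart first. -/
theorem LUat.of_chart {A A' : Subalgebra k K} {g : K} {T : Finset K} (hA : ∀ a ∈ A, a ∈ V)
    (h : IsChart V A A' g) {T' : Finset K} (hg : g ∈ T') (hT : ∀ t ∈ T, t ∈ T')
    (h' : LUat V A' T') : LUat V A T := by
  obtain ⟨A'', g', hch, n, z, hz, hg', hT'⟩ := h'
  obtain ⟨N, hN⟩ := h.trans hch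
  have hvg : V.valuation g ≤ 1 := (V.valuation_le_one_iff g).2 (hA g h.1)
  have hvg' : V.valuation g' ≤ 1 := (V.valuation_le_one_iff g').2 (h.mem hA g' hch.1)
  refine ⟨A'', _, hN, n, z, hz, ?_, fun t ht => hT' t (hT t ht)⟩
  refine Mono.mul hz.ne (Mono.pow hz.ne (hT' g hg) hvg N) hg' ?_ hvg'
  rw [map_pow]
  exact pow_le_one' hvg N

/-- Adjoin finitely many elements of `V`. -/
theorem exists_chart_mem {A : Subalgebra k K} (hA : ∀ a ∈ A, a ∈ V) (hfrac : IsFrac A)
    (S : Finset K) (hS : ∀ f ∈ S, f ∈ V) :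
    ∃ (A' : Subalgebra k K) (g : K), IsChart V A A' g ∧ ∀ f ∈ S, f ∈ A' := by
  classical
  induction S using Finset.induction_on with
  | empty => exact ⟨A, 1, IsChart.refl V A, by simp⟩
  | insert f S hfS ih =>
    obtain ⟨A', g, hch, hmem⟩ := ih fun x hx => hS x (Finset.mem_insert_of_mem hx)
    obtain ⟨a, ha, b, hb, hb0, hfab⟩ := hfrac f
    have hv : V.valuation a ≤ V.valuation b := by
      have h1 := (V.valuation_le_one_iff f).2 (hS f (Finset.mem_insert_self _ _))
      rw [hfab, map_div₀] at h1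
      rwa [div_le_one₀ (by rwa [Valuation.pos_iff])] at h1
    have hch2 := IsChart.adjoin (V := V) (hch.le ha) (hch.le hb) hb0 hv
    obtain ⟨N, hN⟩ := hch.trans hch2
    refine ⟨_, _, hN, ?_⟩
    intro x hx
    rcases Finset.mem_insert.1 hx with rfl | hx
    · rw [hfab]
      exact Algebra.subset_adjoin (Or.inr rfl)
    · exact Algebra.subset_adjoin (Or.inl (hmem x hx))

end Pool.Agent.LU2
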