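import Pool.Agent.Lib.LU2_h15.Abhyankar

/-! # LU2, C7a: coarsenings of rank one -/

set_option autoImplicit false

namespace Pool.Agent.LU2

universe u

variable {k K : Type u} [Field k] [Field K] [Algebra k K]

/-- `V` is a valuation ring of rank one. -/
def IsR1 (V : ValuationSubring K) : Prop := V ≠ ⊤ ∧ ∀ W, V ≤ W → W = V ∨ W = ⊤

namespace C7a

/-- A strict chain of coarsenings gives elements with independent values. -/
theorem indVal_of_chain {V : ValuationSubring K} (W : ℕ → ValuationSubring K)
    (hV : ∀ n, V ≤ W n) (hmono : Monotone W) (x : ℕ → K) (hx : ∀ n, x n ∈ W (n + 1))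
    (hx' : ∀ n, x n ∉ W n) (N : ℕ) : IndVal V (fun i : Fin N => x i) := by
  classical
  have hx0 : ∀ n, x n ≠ 0 := by
    intro n h
    apply hx' n
    rw [h]
    exact (W n).zero_mem
  refine ⟨fun i => hx0 i, fun e he => ?_⟩
  by_contra hne
  have hsupp : e.support.Nonempty := Finsupp.support_nonempty_iff.2 hne
  obtain ⟨i, hi, hmax⟩ := e.support.exists_maximal hsupp
  have h1 := val_eq_one_of_le (hV i) he
  rw [Finsupp.prod, map_prod, Finset.prod_eq_single i] at h1
  · rw [map_zpow₀] at h1
    have h2 : 1 < (W i).valuation (x i) := by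
      rw [← not_le, (W i).valuation_le_one_iff]
      exact hx' i
    have h3 : e i ≠ 0 := Finsupp.mem_support_iff.1 hi
    apply h3
    exact zpow_right_injective₀ (zero_lt_one.trans h2) h2.ne' (by
      simp only [h1, zpow_zero])
  · intro j hj hji
    have hlt : (j : ℕ) < i := by
      rcases lt_or_ge j i with h | h
      · exact h
      · exact absurd (le_antisymm (hmax hj h) h) (fun h => hji h)
    have h2 : (W i).valuation (x j) = 1 := by
      refine le_antisymm ?_ ?_
      · rw [(W i).valuation_le_one_iff]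
        exact hmono (show (j : ℕ) + 1 ≤ i by omega) (hx j)
      · have h3 : (x j)⁻¹ ∈ W i := by
          rcases (W j).mem_or_inv_mem (x j) with h | h
          · exact absurd h (hx' j)
          · exact hmono hlt.le h
        rw [← (W i).valuation_le_one_iff, map_inv₀] at h3
        by_contra h4
        push Not at h4
        have h5 := mul_lt_of_lt_of_le_one h4 h3
        rw [mul_inv_cancel₀ ((Valuation.ne_zero_iff _).2 (hx0 j))] at h5
        exact lt_irrefl _ h5
    rw [map_zpow₀, h2, one_zpow]
  · intro h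
    exact absurd hi h

theorem indRes_empty {V : ValuationSubring K} (hk : ∀ c : k, algebraMap k K c ∈ V)
    (z : Fin 0 → K) : IndRes k V z := by
  refine ⟨fun i => i.elim0, fun P hP => ?_⟩
  obtain ⟨c, rfl⟩ := MvPolynomial.C_surjective (Fin 0) P
  rw [MvPolynomial.aeval_C] at hP
  by_contra hc
  have hc0 : c ≠ 0 := by
    rintro rfl
    exact hc (map_zero _)
  have h1 := (V.valuation_le_one_iff _).2 (hk c⁻¹)
  rw [map_inv₀, map_inv₀] at h1
  have h2 : V.valuation (algebraMap k K c) ≠ 0 := by
    rw [Valuation.ne_zero_iff]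
    simpa using hc0
  have h5 := mul_lt_of_lt_of_le_one hP h1
  rw [mul_inv_cancel₀ h2] at h5
  exact lt_irrefl _ h5

end C7a

/-- A nontrivial valuation ring of a field of finite transcendence degree has a coarsening of rank
one. -/
theorem exists_isR1 {V : ValuationSubring K} (hk : ∀ c : k, algebraMap k K c ∈ V) (h1 : V ≠ ⊤)
    (hfin : Algebra.trdeg k K < Cardinal.aleph0) : ∃ V₁ : ValuationSubring K, V ≤ V₁ ∧ IsR1 V₁ := by
  by_contra hcon
  push Not at hcon
  have hnext : ∀ W : {W : ValuationSubring K // V ≤ W ∧ W ≠ ⊤},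
      ∃ W' : {W : ValuationSubring K // V ≤ W ∧ W ≠ ⊤}, W.1 ≤ W'.1 ∧ ∃ x ∈ W'.1, x ∉ W.1 := by
    rintro ⟨W, hVW, hW⟩
    have h2 := hcon W hVW
    unfold IsR1 at h2
    push Not at h2
    obtain ⟨W', hle, hne, hne'⟩ := h2 hW
    refine ⟨⟨W', hVW.trans hle, hne'⟩, hle, ?_⟩
    by_contra h3
    push Not at h3
    exact hne (le_antisymm h3 hle)
  choose nxt hnxt hx using hnext
  let W : ℕ → {W : ValuationSubring K // V ≤ W ∧ W ≠ ⊤} := fun n => nxt^[n] ⟨V, le_rfl, h1⟩
  have hW : ∀ n, W (n + 1) = nxt (W n) := fun n => Function.iterate_succ_apply' _ _ _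
  have hmono : Monotone fun n => (W n).1 := by
    refine monotone_nat_of_le_succ fun n => ?_
    change (W n).1 ≤ (W (n + 1)).1
    rw [hW]
    exact hnxt (W n)
  choose x hx1 hx2 using hx
  have hind : ∀ N : ℕ, IndVal V (fun i : Fin N => x (W i)) := fun N =>
    C7a.indVal_of_chain (fun n => (W n).1) (fun n => (W n).2.1) hmono (fun n => x (W n))
      (fun n => by
        change x (W n) ∈ (W (n + 1)).1
        rw [hW]
        exact hx1 (W n)) (fun n => hx2 (W n)) N
  obtain ⟨n, hn⟩ := Cardinal.lt_aleph0.1 hfin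
  have h2 := abhyankar hk (hind (n + 1)) (C7a.indRes_empty hk (fun i : Fin 0 => i.elim0))
  rw [hn] at h2
  have h3 : n + 1 + 0 ≤ n := by exact_mod_cast h2
  omega

end Pool.Agent.LU2
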