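import Pool.Agent.Lib.LU2_h15.Stages

/-! # LU2, C4a: stage 3, the new chart

`β = b g₂^S (∏ z'_j)^N`, `A₃ = A₂[z_i / β]`, parameters `z_i / β, z'_j`.
-/

set_option autoImplicit false

namespace Pool.Agent.LU2

universe u

variable {k K : Type u} [Field k] [Field K] [Algebra k K] {V V₁ : ValuationSubring K}
  {A A₁ A₂ : Subalgebra k K} {T U : Finset K} {g₁ g₂ b : K} {m m' : ℕ} {z : Fin m → K}
  {z' : Fin m' → K}

theorem Stage2.fg (h1 : Stage1 V V₁ A A₁ T g₁ z b) (h2 : Stage2 V V₁ A₁ A₂ U g₂ z') : A₂.FG :=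
  h2.chart.fg h1.fg

theorem Stage2.le₂ (h1 : Stage1 V V₁ A A₁ T g₁ z b) (h2 : Stage2 V V₁ A₁ A₂ U g₂ z') :
    ∀ f ∈ A₂, f ∈ V :=
  h2.chart.mem h1.le

/-- Elements of `A₂` of positive `V₁`-value. -/
theorem exists_S (hle : V ≤ V₁) (h1 : Stage1 V V₁ A A₁ T g₁ z b)
    (h2 : Stage2 V V₁ A₁ A₂ U g₂ z') :
    ∃ S : ℕ, ∀ f ∈ A₂, V₁.valuation f < 1 →
      ∃ a : Fin m → K, (∀ i, a i ∈ A₂) ∧ b * g₂ ^ S * f = ∑ i, a i * z i := by
  classical
  have hA₂ : ∀ f ∈ A₂, f ∈ V₁ := fun f hf => hle (Stage2.le₂ h1 h2 f hf)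
  have : Algebra.FiniteType k A₂ := (Subalgebra.fg_iff_finiteType A₂).1 (Stage2.fg h1 h2)
  have : IsNoetherianRing A₂ := Algebra.FiniteType.isNoetherianRing k A₂
  obtain ⟨s, hs⟩ := (isNoetherianRing_iff_ideal_fg A₂).1 inferInstance (PI V₁ A₂ hA₂)
  have hpow : ∀ f ∈ s, ∃ n : ℕ, g₂ ^ n * (f : K) ∈ A₁ := fun f _ => h2.chart.exists_pow f.2
  choose! n hn using hpow
  have hle12 := h2.chart.le
  have hg₂ : g₂ ∈ A₁ := h2.chart.1
  refine ⟨s.sup n, ?_⟩
  let J : Ideal A₂ :=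
    { carrier := {f | ∃ a : Fin m → K, (∀ i, a i ∈ A₂) ∧
        b * g₂ ^ (s.sup n) * (f : K) = ∑ i, a i * z i}
      zero_mem' := ⟨0, fun i => A₂.zero_mem, by simp⟩
      add_mem' := by
        rintro f g ⟨a, ha, hf⟩ ⟨c, hc, hg⟩
        refine ⟨a + c, fun i => A₂.add_mem (ha i) (hc i), ?_⟩
        push_cast
        rw [mul_add, hf, hg, ← Finset.sum_add_distrib]
        exact Finset.sum_congr rfl fun i _ => by rw [Pi.add_apply, add_mul]
      smul_mem' := by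
        rintro c f ⟨a, ha, hf⟩
        refine ⟨fun i => c * a i, fun i => A₂.mul_mem c.2 (ha i), ?_⟩
        simp only [smul_eq_mul, MulMemClass.coe_mul]
        rw [mul_left_comm, hf, Finset.mul_sum]
        exact Finset.sum_congr rfl fun i _ => by rw [mul_assoc] }
  have hJ : PI V₁ A₂ hA₂ ≤ J := by
    rw [← hs, Ideal.span_le]
    intro f hf
    have hfP : f ∈ PI V₁ A₂ hA₂ := hs ▸ Ideal.subset_span hf
    have hf1 : V₁.valuation (f : K) < 1 := hfP
    have hmem : g₂ ^ (s.sup n) * (f : K) ∈ A₁ := by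
      obtain ⟨j, hj⟩ := Nat.exists_eq_add_of_le (Finset.le_sup (f := n) hf)
      have : g₂ ^ (s.sup n) * (f : K) = g₂ ^ j * (g₂ ^ (n f) * (f : K)) := by rw [hj]; ring
      rw [this]
      exact A₁.mul_mem (A₁.pow_mem hg₂ _) (hn f hf)
    have hval : V₁.valuation (g₂ ^ (s.sup n) * (f : K)) < 1 := by
      rw [map_mul, map_pow, h2.gval, one_pow, one_mul]
      exact hf1
    obtain ⟨a, ha, he⟩ := h1.bgen _ hmem hval
    exact ⟨a, fun i => hle12 (ha i), by rw [mul_assoc, he]⟩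
  intro f hf hf1
  exact hJ (show (⟨f, hf⟩ : A₂) ∈ PI V₁ A₂ hA₂ from hf1)

/-- The new chart. -/
noncomputable def newA (A₂ : Subalgebra k K) (z : Fin m → K) (β : K) : Subalgebra k K :=
  Algebra.adjoin k ((A₂ : Set K) ∪ Set.range fun i => z i / β)

/-- The new parameters. -/
noncomputable def newz (z : Fin m → K) (z' : Fin m' → K) (β : K) : Fin (m + m') → K :=
  Fin.append (fun i => z i / β) z'

/-- The element `β`. -/
noncomputable def bet (b g₂ : K) (z' : Fin m' → K) (S N : ℕ) : K :=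
  b * g₂ ^ S * (∏ j, z' j) ^ N

section

theorem prodz_val (h2 : Stage2 V V₁ A₁ A₂ U g₂ z') : V₁.valuation (∏ j, z' j) = 1 := by
  rw [map_prod]
  exact Finset.prod_eq_one fun j _ => h2.zval j

theorem bet_val (h1 : Stage1 V V₁ A A₁ T g₁ z b) (h2 : Stage2 V V₁ A₁ A₂ U g₂ z') (S N : ℕ) :
    V₁.valuation (bet b g₂ z' S N) = 1 := by
  rw [bet, map_mul, map_mul, map_pow, map_pow, prodz_val h2, h1.bval, h2.gval]
  simp

theorem bet_mem (h1 : Stage1 V V₁ A A₁ T g₁ z b) (h2 : Stage2 V V₁ A₁ A₂ U g₂ z') (S N : ℕ) :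
    bet b g₂ z' S N ∈ A₂ :=
  A₂.mul_mem (A₂.mul_mem (h2.chart.le h1.bmem) (A₂.pow_mem (h2.chart.le h2.chart.1) _))
    (A₂.pow_mem (A₂.prod_mem fun j _ => h2.zmem j) _)

theorem bet_ne (h1 : Stage1 V V₁ A A₁ T g₁ z b) (h2 : Stage2 V V₁ A₁ A₂ U g₂ z') (S N : ℕ) :
    bet b g₂ z' S N ≠ 0 := by
  intro h
  have := bet_val h1 h2 S N
  rw [h, map_zero] at this
  exact zero_ne_one this

theorem zbet_lt₁ (h1 : Stage1 V V₁ A A₁ T g₁ z b) (h2 : Stage2 V V₁ A₁ A₂ U g₂ z') (S N : ℕ)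
    (i : Fin m) : V₁.valuation (z i / bet b g₂ z' S N) < 1 := by
  rw [map_div₀, bet_val h1 h2, div_one]
  exact h1.zpos i

theorem zbet_lt (hle : V ≤ V₁) (h1 : Stage1 V V₁ A A₁ T g₁ z b)
    (h2 : Stage2 V V₁ A₁ A₂ U g₂ z') (S N : ℕ) (i : Fin m) :
    V.valuation (z i / bet b g₂ z' S N) < 1 :=
  val_lt_one_of_le hle (zbet_lt₁ h1 h2 S N i)

variable (hle : V ≤ V₁) (h1 : Stage1 V V₁ A A₁ T g₁ z b) (h2 : Stage2 V V₁ A₁ A₂ U g₂ z')
  {S : ℕ} (hS : ∀ f ∈ A₂, V₁.valuation f < 1 →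
      ∃ a : Fin m → K, (∀ i, a i ∈ A₂) ∧ b * g₂ ^ S * f = ∑ i, a i * z i) (N : ℕ)

include hle h1 h2 in
theorem isChart_new : IsChart V A₂ (newA A₂ z (bet b g₂ z' S N)) (bet b g₂ z' S N) := by
  classical
  refine ⟨bet_mem h1 h2 S N, bet_ne h1 h2 S N, Finset.univ.image z, ?_, ?_⟩
  · intro x hx
    obtain ⟨i, _, rfl⟩ := Finset.mem_image.1 hx
    refine ⟨h2.chart.le (h1.zmem i), ?_⟩
    have := zbet_lt hle h1 h2 S N i
    rw [map_div₀] at this
    exact ((div_lt_one₀ (by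
      rw [Valuation.pos_iff]
      exact bet_ne h1 h2 S N)).1 this).le
  · rw [newA]
    congr 1
    congr 1
    ext x
    simp

theorem newA_le : A₂ ≤ newA A₂ z (bet b g₂ z' S N) := fun _ ha =>
  Algebra.subset_adjoin (Or.inl ha)

theorem zbet_mem (i : Fin m) : z i / bet b g₂ z' S N ∈ newA A₂ z (bet b g₂ z' S N) :=
  Algebra.subset_adjoin (Or.inr ⟨i, rfl⟩)

include hle h1 h2 in
theorem newA_mem : ∀ f ∈ newA A₂ z (bet b g₂ z' S N), f ∈ V :=
  (isChart_new hle h1 h2 N).mem (Stage2.le₂ h1 h2)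

include h1 h2 hS in
/-- Elements of `locV V A₂` of positive `V₁`-value are divisible by `(∏ z')^N` in the ideal
generated by the `z_i / β`. -/
theorem pos_new' (hle : V ≤ V₁) (f : K) (hf : f ∈ locV V A₂) (hf1 : V₁.valuation f < 1) :
    ∃ a : Fin m → K, (∀ i, a i ∈ locV V A₂) ∧
      f = (∏ j, z' j) ^ N * ∑ i, a i * (z i / bet b g₂ z' S N) := by
  obtain ⟨a, ha, c, hc, hc1, rfl⟩ := hf
  have hc1' : V₁.valuation c = 1 := val_eq_one_of_le hle hc1
  rw [map_div₀, hc1', div_one] at hf1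
  obtain ⟨e, he, hsum⟩ := hS a ha hf1
  have hc0 : c ≠ 0 := by rintro rfl; simp at hc1
  have hb0 : b ≠ 0 := by
    intro h
    have := h1.bval
    rw [h, map_zero] at this
    exact zero_ne_one this
  have hg0 : g₂ ≠ 0 := h2.chart.2.1
  have hp0 : (∏ j, z' j) ≠ 0 := by
    intro h
    have := prodz_val h2
    rw [h, map_zero] at this
    exact zero_ne_one this
  refine ⟨fun i => e i / c, fun i => ⟨e i, he i, c, hc, hc1, rfl⟩, ?_⟩
  have h3 : ∑ i, e i / c * (z i / bet b g₂ z' S N) =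
      (∑ i, e i * z i) / (c * bet b g₂ z' S N) := by
    rw [Finset.sum_div]
    exact Finset.sum_congr rfl fun i _ => by rw [div_mul_div_comm]
  rw [h3, ← hsum, bet]
  field_simp

include hle h1 h2 hS in
/-- Elements of `locV V A₂` of positive `V₁`-value are divisible by `(∏ z')^N` in the ideal
generated by the `z_i / β`. -/
theorem pos_new (f : K) (hf : f ∈ locV V A₂) (hf1 : V₁.valuation f < 1) :
    ∃ a : Fin m → K, (∀ i, a i ∈ locV V A₂) ∧
      f = (∏ j, z' j) ^ N * ∑ i, a i * (z i / bet b g₂ z' S N) :=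
  pos_new' h1 h2 hS N hle f hf hf1

/-- Every element of `A₃` is the sum of an element of `A₂` and a combination of the `z_i / β`. -/
theorem newA_split (β : K) (f : K) (hf : f ∈ newA A₂ z β) :
    ∃ r ∈ A₂, ∃ q : Fin m → K, (∀ i, q i ∈ newA A₂ z β) ∧ f = r + ∑ i, q i * (z i / β) := by
  have hz : ∀ i, z i / β ∈ newA A₂ z β := fun i => Algebra.subset_adjoin (Or.inr ⟨i, rfl⟩)
  have hA : A₂ ≤ newA A₂ z β := fun _ ha => Algebra.subset_adjoin (Or.inl ha)
  unfold newA at hf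
  induction hf using Algebra.adjoin_induction with
  | mem x hx =>
    classical
    rcases hx with hx | ⟨i, rfl⟩
    · exact ⟨x, hx, 0, fun i => Subalgebra.zero_mem _, by simp⟩
    · refine ⟨0, A₂.zero_mem, Pi.single i 1, ?_, ?_⟩
      · intro j
        by_cases hj : j = i
        · subst hj
          rw [Pi.single_eq_same]
          exact Subalgebra.one_mem _
        · rw [Pi.single_eq_of_ne hj]
          exact Subalgebra.zero_mem _
      · simp [Pi.single_apply]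
  | algebraMap c => exact ⟨_, A₂.algebraMap_mem c, 0, fun i => Subalgebra.zero_mem _, by simp⟩
  | add x y _ _ hx hy =>
    obtain ⟨r, hr, q, hq, h⟩ := hx
    obtain ⟨r', hr', q', hq', h'⟩ := hy
    refine ⟨r + r', A₂.add_mem hr hr', q + q', fun i => Subalgebra.add_mem _ (hq i) (hq' i), ?_⟩
    simp only [Pi.add_apply, add_mul, Finset.sum_add_distrib]
    rw [h, h']
    ring
  | mul x y hx0 hy0 hx hy =>
    obtain ⟨r, hr, q, hq, h⟩ := hx
    obtain ⟨r', hr', q', hq', h'⟩ := hy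
    refine ⟨r * r', A₂.mul_mem hr hr', fun i => q i * y + r * q' i,
      fun i => Subalgebra.add_mem _ (Subalgebra.mul_mem _ (hq i) hy0)
        (Subalgebra.mul_mem _ (hA hr) (hq' i)), ?_⟩
    have h3 : ∑ i, (q i * y + r * q' i) * (z i / β) =
        (∑ i, q i * (z i / β)) * y + r * ∑ i, q' i * (z i / β) := by
      rw [Finset.sum_mul, Finset.mul_sum, ← Finset.sum_add_distrib]
      exact Finset.sum_congr rfl fun i _ => by ring
    rw [h3]
    have h4 : x * y = (r + ∑ i, q i * (z i / β)) * y := by rw [← h]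
    rw [h4, add_mul]
    nth_rewrite 1 [h']
    ring

include hle h1 h2 hS in
theorem gen_new (f : K) (hf : f ∈ locV V (newA A₂ z (bet b g₂ z' S N)))
    (hf1 : V.valuation f < 1) :
    ∃ a : Fin (m + m') → K, (∀ i, a i ∈ locV V (newA A₂ z (bet b g₂ z' S N))) ∧
      f = ∑ i, a i * newz z z' (bet b g₂ z' S N) i := by
  obtain ⟨x, hx, c, hc, hc1, rfl⟩ := hf
  rw [map_div₀, hc1, div_one] at hf1
  have hc0 : c ≠ 0 := by rintro rfl; simp at hc1
  obtain ⟨r, hr, q, hq, hxr⟩ := newA_split (bet b g₂ z' S N) x hx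
  have hV := newA_mem (S := S) hle h1 h2 N
  have hsum : V.valuation (∑ i, q i * (z i / bet b g₂ z' S N)) < 1 := by
    refine Valuation.map_sum_lt _ one_ne_zero fun i _ => ?_
    rw [map_mul]
    exact mul_lt_of_le_one_of_lt ((V.valuation_le_one_iff _).2 (hV _ (hq i)))
      (zbet_lt hle h1 h2 S N i)
  have hr1 : V.valuation r < 1 := by
    have h3 : r = x - ∑ i, q i * (z i / bet b g₂ z' S N) := by rw [hxr]; ring
    rw [h3]
    exact Valuation.map_sub_lt _ hf1 hsum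
  obtain ⟨a', ha', hval⟩ := h2.gen r hr hr1
  have hmem' : r - ∑ j, a' j * z' j ∈ locV V A₂ :=
    Subalgebra.sub_mem _ (le_locV _ hr) (Subalgebra.sum_mem _ fun j _ =>
      Subalgebra.mul_mem _ (ha' j) (le_locV _ (h2.zmem j)))
  obtain ⟨e, he, hee⟩ := pos_new hle h1 h2 hS N _ hmem' hval
  have hmono : locV V A₂ ≤ locV V (newA A₂ z (bet b g₂ z' S N)) := locV_mono (newA_le N)
  have hcinv : c⁻¹ ∈ locV V (newA A₂ z (bet b g₂ z' S N)) := locV_inv (le_locV _ hc) hc1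
  refine ⟨Fin.append (fun i => c⁻¹ * (q i + (∏ j, z' j) ^ N * e i)) (fun j => c⁻¹ * a' j), ?_, ?_⟩
  · intro i
    refine Fin.addCases (fun i => ?_) (fun j => ?_) i
    · rw [Fin.append_left]
      exact Subalgebra.mul_mem _ hcinv (Subalgebra.add_mem _ (le_locV _ (hq i))
        (Subalgebra.mul_mem _ (Subalgebra.pow_mem _ (Subalgebra.prod_mem _ fun j _ =>
          hmono (le_locV _ (h2.zmem j))) _) (hmono (he i))))
    · rw [Fin.append_right]
      exact Subalgebra.mul_mem _ hcinv (hmono (ha' j))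
  · rw [Fin.sum_univ_add]
    simp only [newz, Fin.append_left, Fin.append_right]
    have h3 : ∑ i, c⁻¹ * (q i + (∏ j, z' j) ^ N * e i) * (z i / bet b g₂ z' S N) =
        c⁻¹ * (∑ i, q i * (z i / bet b g₂ z' S N) +
          (∏ j, z' j) ^ N * ∑ i, e i * (z i / bet b g₂ z' S N)) := by
      rw [Finset.mul_sum, ← Finset.sum_add_distrib, Finset.mul_sum]
      exact Finset.sum_congr rfl fun i _ => by ring
    have h4 : ∑ j, c⁻¹ * a' j * z' j = c⁻¹ * ∑ j, a' j * z' j := by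
      rw [Finset.mul_sum]
      exact Finset.sum_congr rfl fun i _ => by ring
    rw [h3, h4, ← hee]
    rw [div_eq_inv_mul]
    nth_rewrite 1 [hxr]
    ring

end

end Pool.Agent.LU2
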