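import Pool.Agent.Lib.LU2_h15.Basic

/-!
# LU2: the stages of the composite step (definitions)

`V ≤ V₁`, `φ : V₁ → K₁` the residue map of `V₁`, `V₂ ⊆ K₁` the image of `V`.
-/

set_option autoImplicit false

namespace Pool.Agent.LU2

universe u

variable {k K : Type u} [Field k] [Field K] [Algebra k K]

/-- `φ : V₁ → K₁` is the residue map of `V₁` (over `k`) and `V₂` is the image of `V`. -/
structure IsRes (V V₁ : ValuationSubring K) {K₁ : Type u} [Field K₁] [Algebra k K₁]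
    (φ : V₁ →+* K₁) (V₂ : ValuationSubring K₁) : Prop where
  le : V ≤ V₁
  const : ∀ c : k, algebraMap k K c ∈ V
  surj : Function.Surjective φ
  map_const : ∀ (c : k) (h : algebraMap k K c ∈ V₁), φ ⟨_, h⟩ = algebraMap k K₁ c
  mem : ∀ x : V₁, φ x ∈ V₂ ↔ (x : K) ∈ V

/-- The ideal of the elements of `R` of positive `V₁`-value. -/
def PI (V₁ : ValuationSubring K) (R : Subalgebra k K) (hR : ∀ f ∈ R, f ∈ V₁) : Ideal R where
  carrier := {f | V₁.valuation (f : K) < 1}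
  zero_mem' := by simp
  add_mem' := by
    intro a b ha hb
    exact lt_of_le_of_lt (V₁.valuation.map_add _ _) (max_lt ha hb)
  smul_mem' := by
    intro c x hx
    have h1 := (V₁.valuation_le_one_iff _).2 (hR c c.2)
    change V₁.valuation ((c : K) * x) < 1
    rw [map_mul]
    exact lt_of_le_of_lt (mul_le_of_le_one_left' h1) hx

/-- Stage 1: the local ring at the center of `V₁` is regular, and the elements of `T` are monomials
there. -/
structure Stage1 (V V₁ : ValuationSubring K) (A A₁ : Subalgebra k K) (T : Finset K) (g₁ : K)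
    {m : ℕ} (z : Fin m → K) (b : K) : Prop where
  fg : A₁.FG
  le : ∀ a ∈ A₁, a ∈ V
  chart : IsChart V A A₁ g₁
  zmem : ∀ i, z i ∈ A₁
  zne : ∀ i, z i ≠ 0
  zpos : ∀ i, V₁.valuation (z i) < 1
  dim : ringKrullDim (locV V₁ A₁) = m
  bmem : b ∈ A₁
  bval : V₁.valuation b = 1
  bgen : ∀ f ∈ A₁, V₁.valuation f < 1 →
    ∃ a : Fin m → K, (∀ i, a i ∈ A₁) ∧ b * f = ∑ i, a i * z i
  mono : ∀ t, (t = g₁ ∨ t ∈ T) → ∃ e : Fin m → ℤ, ∃ c ∈ A₁, ∃ d ∈ A₁, V₁.valuation c = 1 ∧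
    V₁.valuation d = 1 ∧ t = (∏ i, z i ^ e i) * (c / d) ∧
    (V₁.valuation t ≤ 1 → ∀ i, 0 ≤ e i) ∧ (1 ≤ V₁.valuation t → ∀ i, e i ≤ 0)

/-- Stage 2: the quotient by the ideal of positive `V₁`-value is regular, and the residues of the
elements of `U` (which are `V₁`-units) are monomials there. -/
structure Stage2 (V V₁ : ValuationSubring K) (A₁ A₂ : Subalgebra k K) (U : Finset K) (g₂ : K)
    {m : ℕ} (z : Fin m → K) : Prop where
  chart : IsChart V A₁ A₂ g₂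
  gval : V₁.valuation g₂ = 1
  zmem : ∀ j, z j ∈ A₂
  zval : ∀ j, V₁.valuation (z j) = 1
  zpos : ∀ j, V.valuation (z j) < 1
  gen : ∀ f ∈ A₂, V.valuation f < 1 → ∃ a : Fin m → K, (∀ j, a j ∈ locV V A₂) ∧
    V₁.valuation (f - ∑ j, a j * z j) < 1
  dim : ∃ hR : ∀ f ∈ locV V A₂, f ∈ V₁, ringKrullDim (locV V A₂ ⧸ PI V₁ (locV V A₂) hR) = m
  mono : ∀ t, (t = g₂ ∨ t ∈ U) → ∃ e : Fin m → ℤ, ∃ w ∈ locV V A₂, V.valuation w = 1 ∧
    V₁.valuation (t - (∏ j, z j ^ e j) * w) < 1 ∧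
    (V.valuation t ≤ 1 → ∀ j, 0 ≤ e j) ∧ (1 ≤ V.valuation t → ∀ j, e j ≤ 0)

end Pool.Agent.LU2
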