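import Pool.Agent.Lib.LU2_h15.StatementDefs
import Pool.Agent.Lib.LU2_h15.Defs

/-! # C9a: the hypotheses of the final statement -/

set_option autoImplicit false

namespace Pool.Agent.LU2

/-- Linearly independent elements of the value group are the values of elements with independent
values. -/
theorem exists_indVal {K : Type} [Field K] (V : ValuationSubring K) {r : ℕ}
    (hr : (r : Cardinal) ≤ Module.rank ℤ (Additive V.ValueGroupˣ)) :
    ∃ x : Fin r → K, IndVal V x := by
  obtain ⟨f, hf⟩ := _root_.exists_linearIndependent_of_le_rank hr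
  have hsurj : ∀ i, ∃ x : K, V.valuation x = ((Additive.toMul (f i) : V.ValueGroupˣ) :
      V.ValueGroup) := fun i => V.valuation_surjective _
  choose x hx using hsurj
  refine ⟨x, fun i h => ?_, fun e he => ?_⟩
  · have := hx i
    rw [h, map_zero] at this
    exact (Additive.toMul (f i)).ne_zero this.symm
  · refine linearIndependent_iff.1 hf e ?_
    have h1 : ((Additive.toMul (Finsupp.linearCombination ℤ f e) : V.ValueGroupˣ) :
        V.ValueGroup) = 1 := by
      rw [← he, Finsupp.linearCombination_apply, Finsupp.sum, Finsupp.prod, map_prod, toMul_sum,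
        Units.coe_prod]
      refine Finset.prod_congr rfl fun i _ => ?_
      rw [toMul_zsmul, Units.val_zpow_eq_zpow_val, map_zpow₀, hx i]
    have h2 : Additive.toMul (Finsupp.linearCombination ℤ f e) = 1 := Units.ext h1
    exact h2

/-- Algebraically independent elements of the residue field are the residues of elements with
independent residues. -/
theorem exists_indRes (k : Type) [Field k] (A : Type) [CommRing A] [IsDomain A] [Algebra k A]
    (V : ValuationSubring (FractionRing A))
    (hV : ∀ a : A, algebraMap A (FractionRing A) a ∈ V) {d : ℕ}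
    (hd : (d : Cardinal) ≤ residueDegree k V hV) :
    ∃ z : Fin d → FractionRing A, IndRes k V z := by
  let _ : Algebra k (IsLocalRing.ResidueField V) :=
    ((resHom V hV).comp (algebraMap k A)).toAlgebra
  have hinj : Function.Injective (algebraMap k (IsLocalRing.ResidueField V)) :=
    (algebraMap k (IsLocalRing.ResidueField V)).injective
  have : FaithfulSMul k (IsLocalRing.ResidueField V) :=
    (faithfulSMul_iff_algebraMap_injective k _).2 hinj
  obtain ⟨ι, y, hy⟩ := exists_isTranscendenceBasis' k (IsLocalRing.ResidueField V)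
  have hcard : (d : Cardinal) ≤ Cardinal.mk ι := by
    refine le_trans hd ?_
    rw [hy.cardinalMk_eq_trdeg]
    exact le_refl _
  have hcard' : Cardinal.mk (Fin d) ≤ Cardinal.mk ι := by
    rw [Cardinal.mk_fin]
    exact hcard
  obtain ⟨j⟩ := hcard'
  have hres : ∀ i, ∃ a : V, IsLocalRing.residue V a = y (j i) := fun i =>
    IsLocalRing.residue_surjective _
  choose z hz using hres
  have hind : AlgebraicIndependent k (fun i => y (j i)) := hy.1.comp _ j.injective
  refine ⟨fun i => (z i : FractionRing A), fun i => (z i).2, fun P hP => ?_⟩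
  -- the constants in `V`
  set φ : k →+* V := ((algebraMap A (FractionRing A)).codRestrict V hV).comp (algebraMap k A)
    with hφ
  have h1 : MvPolynomial.aeval (fun i => (z i : FractionRing A)) P =
      ((MvPolynomial.eval₂ φ z P : V) : FractionRing A) := by
    have h := MvPolynomial.map_eval₂Hom φ z V.subtype P
    rw [MvPolynomial.aeval_def]
    refine Eq.trans ?_ h.symm
    have hc : (V.subtype.comp φ) = algebraMap k (FractionRing A) := by
      ext c
      rw [IsScalarTower.algebraMap_apply k A (FractionRing A)]
      rfl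
    rw [MvPolynomial.coe_eval₂Hom, hc]
    rfl
  have h2 : IsLocalRing.residue V (MvPolynomial.eval₂ φ z P) = 0 := by
    rw [IsLocalRing.residue_eq_zero_iff, V.valuation_lt_one_iff, ← h1]
    exact hP
  have h3 : MvPolynomial.aeval (fun i => y (j i)) P = 0 := by
    rw [← h2]
    have h := MvPolynomial.map_eval₂Hom φ z (IsLocalRing.residue V) P
    rw [MvPolynomial.aeval_def]
    refine Eq.trans ?_ h.symm
    rw [MvPolynomial.coe_eval₂Hom]
    have : (fun i => y (j i)) = fun i => IsLocalRing.residue V (z i) := funext fun i => (hz i).symm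
    rw [this]
    rfl
  exact (injective_iff_map_eq_zero _).1 hind P h3

theorem exists_nat_split {T R D : Cardinal} {δ : ℕ} (hT : T < Cardinal.aleph0)
    (h : T ≤ R + D + δ) :
    ∃ r d : ℕ, (r : Cardinal) ≤ R ∧ (d : Cardinal) ≤ D ∧ T ≤ ((r + d + δ : ℕ) : Cardinal) := by
  obtain ⟨t, rfl⟩ := Cardinal.lt_aleph0.1 hT
  rcases le_or_gt Cardinal.aleph0 R with hR | hR
  · exact ⟨t, 0, (Cardinal.natCast_le_aleph0).trans hR, by simp, by norm_cast; omega⟩
  rcases le_or_gt Cardinal.aleph0 D with hD | hD
  · exact ⟨0, t, by simp, (Cardinal.natCast_le_aleph0).trans hD, by norm_cast; omega⟩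
  obtain ⟨r, rfl⟩ := Cardinal.lt_aleph0.1 hR
  obtain ⟨d, rfl⟩ := Cardinal.lt_aleph0.1 hD
  exact ⟨r, d, le_rfl, le_rfl, by exact_mod_cast h⟩

theorem defLE_of (k : Type) [Field k] (A : Type) [CommRing A] [IsDomain A] [Algebra k A]
    [Algebra.FiniteType k A] (V : ValuationSubring (FractionRing A))
    (hV : ∀ a : A, algebraMap A (FractionRing A) a ∈ V) (δ : ℕ)
    (hdef : Algebra.trdeg k A ≤ rationalRank V + residueDegree k V hV + δ) : DefLE k V δ := by
  have hinj : Function.Injective (algebraMap k A) := (algebraMap k A).injective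
  have : FaithfulSMul k A := (faithfulSMul_iff_algebraMap_injective k A).2 hinj
  have htr : Algebra.trdeg k (FractionRing A) = Algebra.trdeg k A := by
    have h := _root_.trdeg_add_eq k A (A := FractionRing A)
    have h0 : Algebra.trdeg A (FractionRing A) = 0 := by
      have : Algebra.IsAlgebraic A (FractionRing A) :=
        IsLocalization.isAlgebraic _ (nonZeroDivisors A)
      exact _root_.trdeg_eq_zero
    rw [h0, add_zero] at h
    exact h.symm
  have hfin : Algebra.trdeg k A < Cardinal.aleph0 := _root_.trdeg_lt_aleph0_of_finiteType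
  obtain ⟨r, d, hr, hd, hT⟩ := exists_nat_split hfin hdef
  exact ⟨r, d, htr ▸ hT, exists_indVal V hr, exists_indRes k A V hV hd⟩

end Pool.Agent.LU2
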