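import Pool.Agent.Lib.LU2_h15.StatementDefs
import Pool.Agent.Lib.LU2_h15.Stage3B

/-! # C9b: the conclusion of the final statement -/

set_option autoImplicit false

namespace Pool.Agent.LU2

namespace C9b

section Ring

variable {K : Type} [Field K]

/-- Two subalgebras with the same elements. -/
def equivOfMem {R1 R2 : Type} [CommRing R1] [CommRing R2] [Algebra R1 K] [Algebra R2 K]
    (S : Subalgebra R1 K) (S' : Subalgebra R2 K) (h : ∀ z, z ∈ S ↔ z ∈ S') : S ≃+* S' where
  toFun z := ⟨z, (h z).1 z.2⟩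
  invFun z := ⟨z, (h z).2 z.2⟩
  left_inv _ := rfl
  right_inv _ := rfl
  map_mul' _ _ := rfl
  map_add' _ _ := rfl

/-- A generator of an ideal has the least value. -/
theorem le_of_mem_span {A : Type} [CommRing A] [Algebra A K] (V : ValuationSubring K)
    (hV : ∀ a : A, algebraMap A K a ∈ V) (s : Set A) (m : V.ValueGroup)
    (hs : ∀ a ∈ s, V.valuation (algebraMap A K a) ≤ m) {a : A} (ha : a ∈ Ideal.span s) :
    V.valuation (algebraMap A K a) ≤ m := by
  refine Submodule.span_induction (fun x hx => hs x hx) ?_ ?_ ?_ ha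
  · rw [map_zero, map_zero]
    exact zero_le
  · intro x y _ _ hx hy
    rw [map_add]
    exact (V.valuation.map_add _ _).trans (max_le hx hy)
  · intro c x _ hx
    rw [smul_eq_mul, map_mul, map_mul]
    exact mul_le_of_le_one_of_le ((V.valuation_le_one_iff _).2 (hV c)) hx

theorem exists_least {A : Type} [CommRing A] [IsDomain A] [IsNoetherianRing A]
    [Algebra A K] [FaithfulSMul A K] (V : ValuationSubring K)
    (hV : ∀ a : A, algebraMap A K a ∈ V) (J : Ideal A) (hJ : J ≠ ⊥) :
    ∃ s : Finset A, Ideal.span (s : Set A) = J ∧ ∃ j ∈ s, j ≠ 0 ∧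
      ∀ a ∈ J, V.valuation (algebraMap A K a) ≤ V.valuation (algebraMap A K j) := by
  obtain ⟨s, hs⟩ := (isNoetherianRing_iff_ideal_fg A).1 inferInstance J
  have hne : s.Nonempty := by
    rw [Finset.nonempty_iff_ne_empty]
    rintro rfl
    apply hJ
    rw [← hs, Finset.coe_empty, Ideal.span_empty]
  obtain ⟨j, hj, hmin⟩ := s.exists_max_image (fun a => V.valuation (algebraMap A K a)) hne
  have hall : ∀ a ∈ J, V.valuation (algebraMap A K a) ≤ V.valuation (algebraMap A K j) := by
    intro a ha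
    rw [← hs] at ha
    exact le_of_mem_span V hV s _ (fun b hb => hmin b hb) ha
  refine ⟨s, hs, j, hj, ?_, hall⟩
  rintro rfl
  apply hJ
  rw [eq_bot_iff]
  intro a ha
  have h1 := hall a ha
  rw [map_zero, map_zero, le_zero_iff, Valuation.zero_iff] at h1
  rw [Ideal.mem_bot]
  exact (FaithfulSMul.algebraMap_injective A K) (by rw [h1, map_zero])

end Ring

section Mono

variable {k K : Type} [Field k] [Field K] [Algebra k K] {V : ValuationSubring K}

/-- A monomial of value at most one. -/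
theorem exists_nat {R : Subalgebra k K} {n : ℕ} {z : Fin n → K} {a : K}
    (ha : Mono V R z a) (hva : V.valuation a ≤ 1) :
    ∃ e : Fin n → ℕ, ∃ w : K, w ∈ R ∧ V.valuation w = 1 ∧ a = (∏ i, z i ^ e i) * w := by
  obtain ⟨e, w, hw, hw1, hae, h1, -⟩ := ha
  refine ⟨fun i => (e i).toNat, w, hw, hw1, ?_⟩
  rw [hae]
  congr 1
  refine Finset.prod_congr rfl fun i _ => ?_
  rw [← zpow_natCast, Int.toNat_of_nonneg (h1 hva i)]

/-- The maximal ideal and the regularity of the local ring. -/
theorem isRegular_locV {A' : Subalgebra k K} (hA' : ∀ f ∈ A', f ∈ V) (hfg : A'.FG) {n : ℕ}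
    {z : Fin n → K} (hz : IsPar V (locV V A') z) :
    ∃ _ : IsRegularLocalRing (locV V A'), IsLocalRing.maximalIdeal (locV V A') =
      Ideal.span (Set.range fun i => (⟨z i, hz.mem i⟩ : locV V A')) := by
  classical
  have hnoe := locV_noeth V A' hA' hfg
  have hloc := locV_local V A' hA'
  have hval : ∀ f : locV V A', f ∈ IsLocalRing.maximalIdeal (locV V A') →
      V.valuation (f : K) < 1 := by
    intro f hf
    rw [IsLocalRing.mem_maximalIdeal, mem_nonunits_iff] at hf
    by_contra h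
    apply hf
    have h1 : V.valuation (f : K) = 1 :=
      le_antisymm ((V.valuation_le_one_iff _).2 (locV_mem hA' f f.2)) (not_lt.1 h)
    have hf0 : (f : K) ≠ 0 := by
      intro h
      rw [h, map_zero] at h1
      exact zero_ne_one h1
    exact IsUnit.of_mul_eq_one ⟨_, locV_inv f.2 h1⟩ (Subtype.ext (mul_inv_cancel₀ hf0))
  let zz : Fin n → locV V A' := fun i => ⟨z i, hz.mem i⟩
  have hm : IsLocalRing.maximalIdeal (locV V A') ≤ Ideal.span (Set.range zz) := by
    intro f hf
    obtain ⟨a, ha, he⟩ := hz.gen f f.2 (hval f hf)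
    have : f = ∑ i, (⟨a i, ha i⟩ : locV V A') * zz i := by
      ext
      simp only [AddSubmonoidClass.coe_finsetSum, MulMemClass.coe_mul, zz]
      exact he
    rw [this]
    exact Ideal.sum_mem _ fun i _ => Ideal.mul_mem_left _ _ (Ideal.subset_span ⟨i, rfl⟩)
  have hm' : Ideal.span (Set.range zz) ≤ IsLocalRing.maximalIdeal (locV V A') := by
    rw [Ideal.span_le]
    rintro _ ⟨i, rfl⟩
    change zz i ∈ IsLocalRing.maximalIdeal (locV V A')
    rw [IsLocalRing.mem_maximalIdeal, mem_nonunits_iff]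
    intro hu
    obtain ⟨y, hy⟩ := hu.exists_right_inv
    have h1 : z i * (y : K) = 1 := congrArg (fun t : locV V A' => (t : K)) hy
    have h2 : V.valuation (z i * (y : K)) < 1 := by
      rw [map_mul]
      exact mul_lt_of_lt_of_le_one (hz.pos i)
        ((V.valuation_le_one_iff _).2 (locV_mem hA' y y.2))
    rw [h1, map_one] at h2
    exact lt_irrefl _ h2
  have hmm : IsLocalRing.maximalIdeal (locV V A') = Ideal.span (Set.range zz) :=
    le_antisymm hm hm'
  refine ⟨?_, hmm⟩
  apply IsRegularLocalRing.of_spanFinrank_maximalIdeal_le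
  rw [hz.dim, hmm]
  have hcard : (Set.range zz).ncard ≤ n := by
    rw [← Set.image_univ]
    refine (Set.ncard_image_le Set.finite_univ).trans ?_
    rw [Set.ncard_univ, Nat.card_eq_fintype_card, Fintype.card_fin]
  exact_mod_cast (Submodule.spanFinrank_span_le_ncard_of_finite (Set.finite_range zz)).trans hcard

end Mono

end C9b

theorem logUniformizable_of_LU (k : Type) [Field k] (A : Type) [CommRing A] [IsDomain A]
    [Algebra k A] [Algebra.FiniteType k A] (V : ValuationSubring (FractionRing A))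
    (hV : ∀ a : A, algebraMap A (FractionRing A) a ∈ V) (h : LU k V) : LogUniformizable V := by
  classical
  have hnoe : IsNoetherianRing A := Algebra.FiniteType.isNoetherianRing k A
  intro D hD J hJ
  obtain ⟨sD, hsD, d0, hd0, hd00, hdmin⟩ := C9b.exists_least V hV D hD
  obtain ⟨sJ, hsJ, j0, hj0, hj00, hjmin⟩ := C9b.exists_least V hV J hJ
  let φ : A →ₐ[k] FractionRing A := IsScalarTower.toAlgHom k A (FractionRing A)
  have hφ : Function.Injective φ := IsFractionRing.injective A (FractionRing A)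
  have hφ0 : ∀ a : A, a ≠ 0 → φ a ≠ 0 := fun a ha h => ha (hφ (by rw [h, map_zero]))
  have hφv : ∀ a : A, V.valuation (φ a) ≤ 1 := fun a => (V.valuation_le_one_iff _).2 (hV a)
  have hA0fg : (φ.range).FG := by
    rw [← Algebra.map_top]
    exact Subalgebra.FG.map φ (inferInstance : Algebra.FiniteType k A).out
  have hA0V : ∀ a ∈ φ.range, a ∈ V := by
    rintro _ ⟨a, rfl⟩
    exact hV a
  have hA0frac : IsFrac φ.range := by
    intro f
    obtain ⟨a, b, hb, hab⟩ := IsFractionRing.div_surjective (A := A) f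
    exact ⟨φ a, ⟨a, rfl⟩, φ b, ⟨b, rfl⟩, hφ0 b (nonZeroDivisors.ne_zero hb), hab.symm⟩
  obtain ⟨A', g, hch, r, z, hz, hgm, hT⟩ := h φ.range hA0fg hA0V hA0frac
    ((sD.image φ ∪ sJ.image φ ∪ (sD.image fun d => φ d / φ d0) ∪
      (sJ.image fun j => φ j / φ j0)).filter (· ≠ 0))
    (by
      intro t ht
      exact (Finset.mem_filter.1 ht).2)
  have hA'fg : A'.FG := hch.fg hA0fg
  have hA'V : ∀ a ∈ A', a ∈ V := hch.mem hA0V
  obtain ⟨hreg, hmax⟩ := C9b.isRegular_locV hA'V hA'fg hz
  have hle0 : φ.range ≤ A' := hch.le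
  obtain ⟨hg, hg0, G, hG, hA'⟩ := hch
  have hT' : ∀ t ∈ (sD.image φ ∪ sJ.image φ ∪ (sD.image fun d => φ d / φ d0) ∪
      (sJ.image fun j => φ j / φ j0)), t ≠ 0 → Mono V (locV V A') z t := fun t ht ht0 =>
    hT t (Finset.mem_filter.2 ⟨ht, ht0⟩)
  obtain ⟨gA, rfl⟩ := hg
  change φ gA ≠ 0 at hg0
  have hgA : gA ≠ 0 := by
    rintro rfl
    exact hg0 (map_zero φ)
  -- the ideal
  let GA : Finset A := insert gA (G.preimage φ hφ.injOn)
  let I : Ideal A := Ideal.span (GA : Set A)
  have hgI : gA ∈ I := Ideal.subset_span (Finset.mem_coe.2 (Finset.mem_insert_self _ _))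
  have hI : I ≠ ⊥ := by
    intro h
    rw [h, Ideal.mem_bot] at hgI
    exact hgA hgI
  have hGA : ∀ x ∈ GA, V.valuation (φ x) ≤ V.valuation (φ gA) := by
    intro x hx
    rcases Finset.mem_insert.1 hx with rfl | hx
    · exact le_rfl
    · exact (hG _ (Finset.mem_preimage.1 hx)).2
  have hImin : ∀ a ∈ I, V.valuation (φ a) ≤ V.valuation (φ gA) := fun a ha =>
    C9b.le_of_mem_span V hV (GA : Set A) _ (fun b hb => hGA b hb) ha
  have hj0J : j0 ∈ J := by
    rw [← hsJ]
    exact Ideal.subset_span hj0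
  have hd0D : d0 ∈ D := by
    rw [← hsD]
    exact Ideal.subset_span hd0
  have hj0' : φ j0 ≠ 0 := hφ0 j0 hj00
  have hd0' : φ d0 ≠ 0 := hφ0 d0 hd00
  -- membership in the local ring
  have hAR : ∀ a : A, φ a ∈ locV V A' := fun a => le_locV _ (hle0 ⟨a, rfl⟩)
  have hxR : ∀ x ∈ GA, φ x / φ gA ∈ locV V A' := by
    intro x hx
    rcases Finset.mem_insert.1 hx with rfl | hx
    · have h1 : φ x / φ x = 1 := div_self hg0
      rw [h1]
      exact Subalgebra.one_mem _
    · refine le_locV _ ?_
      rw [hA']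
      exact Algebra.subset_adjoin (Or.inr ⟨φ x, Finset.mem_preimage.1 hx, rfl⟩)
  have hmono : ∀ t : FractionRing A, Mono V (locV V A') z t → V.valuation t ≤ 1 →
      t ∈ locV V A' := by
    intro t ht ht1
    obtain ⟨e, w, hw, -, rfl⟩ := C9b.exists_nat ht ht1
    exact Subalgebra.mul_mem _ (Subalgebra.prod_mem _ fun i _ =>
      Subalgebra.pow_mem _ (hz.mem i) _) hw
  have hjR : ∀ j ∈ sJ, φ j / φ j0 ∈ locV V A' := by
    intro j hj
    by_cases hj1 : j = 0
    · rw [hj1, map_zero, zero_div]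
      exact Subalgebra.zero_mem _
    · have h1 : φ j / φ j0 ≠ 0 := div_ne_zero (hφ0 j hj1) hj0'
      refine hmono _ (hT' _ (Finset.mem_union_right _
        (Finset.mem_image_of_mem _ hj)) h1) ?_
      rw [map_div₀]
      exact div_le_one_of_le₀ (hjmin j (by rw [← hsJ]; exact Ideal.subset_span hj)) zero_le
  have hdR : ∀ d ∈ sD, φ d / φ d0 ∈ locV V A' := by
    intro j hj
    by_cases hj1 : j = 0
    · rw [hj1, map_zero, zero_div]
      exact Subalgebra.zero_mem _
    · have h1 : φ j / φ d0 ≠ 0 := div_ne_zero (hφ0 j hj1) hd0'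
      refine hmono _ (hT' _ (Finset.mem_union_left _ (Finset.mem_union_right _
        (Finset.mem_image_of_mem _ hj))) h1) ?_
      rw [map_div₀]
      exact div_le_one_of_le₀ (hdmin j (by rw [← hsD]; exact Ideal.subset_span hj)) zero_le
  -- quotients of elements of the ideals
  have hquot : ∀ (s : Finset A) (c : A), φ c ≠ 0 → (∀ x ∈ s, φ x / φ c ∈ locV V A') →
      ∀ a ∈ Ideal.span (s : Set A), φ a / φ c ∈ locV V A' := by
    intro s c _ hs a ha
    refine Submodule.span_induction (fun x hx => hs x hx) ?_ ?_ ?_ ha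
    · rw [map_zero, zero_div]
      exact Subalgebra.zero_mem _
    · intro x y _ _ hx hy
      rw [map_add, add_div]
      exact Subalgebra.add_mem _ hx hy
    · intro b x _ hx
      rw [smul_eq_mul, map_mul, mul_div_assoc]
      exact Subalgebra.mul_mem _ (hAR b) hx
  have hJR : ∀ a ∈ J, φ a / φ j0 ∈ locV V A' := by
    rw [← hsJ]
    exact hquot sJ j0 hj0' hjR
  have hDR : ∀ a ∈ D, φ a / φ d0 ∈ locV V A' := by
    rw [← hsD]
    exact hquot sD d0 hd0' hdR
  have hIR : ∀ a ∈ I, φ a / φ gA ∈ locV V A' := hquot GA gA hg0 hxR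
  have hJIR : ∀ a ∈ J * I, φ a / φ (j0 * gA) ∈ locV V A' := by
    intro a ha
    refine Submodule.mul_induction_on ha ?_ ?_
    · intro m hm n hn
      rw [map_mul, map_mul, ← div_mul_div_comm]
      exact Subalgebra.mul_mem _ (hJR m hm) (hIR n hn)
    · intro x y hx hy
      rw [map_add, add_div]
      exact Subalgebra.add_mem _ hx hy
  have hDJIR : ∀ a ∈ D * (J * I), φ a / φ (d0 * (j0 * gA)) ∈ locV V A' := by
    intro a ha
    refine Submodule.mul_induction_on ha ?_ ?_
    · intro m hm n hn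
      rw [map_mul, map_mul, ← div_mul_div_comm]
      exact Subalgebra.mul_mem _ (hDR m hm) (hJIR n hn)
    · intro x y hx hy
      rw [map_add, add_div]
      exact Subalgebra.add_mem _ hx hy
  have hg1 : j0 * gA ≠ 0 := mul_ne_zero hj00 hgA
  have hg1' : φ (j0 * gA) ≠ 0 := hφ0 _ hg1
  -- the two rings are equal
  have hSR : ∀ f ∈ chart (J * I) (j0 * gA), f ∈ locV V A' := by
    intro f hf
    refine Algebra.adjoin_induction (p := fun f _ => f ∈ locV V A') ?_ ?_ ?_ ?_ hf
    · rintro f ⟨a, ha, rfl⟩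
      exact hJIR a ha
    · intro a
      exact hAR a
    · intro x y _ _ hx hy
      exact Subalgebra.add_mem _ hx hy
    · intro x y _ _ hx hy
      exact Subalgebra.mul_mem _ hx hy
  have hS' : ∀ f ∈ A', f ∈ chart (J * I) (j0 * gA) := by
    intro f hf
    rw [hA'] at hf
    refine Algebra.adjoin_induction (p := fun f _ => f ∈ chart (J * I) (j0 * gA)) ?_ ?_ ?_ ?_ hf
    · rintro f (hf | ⟨x, hx, rfl⟩)
      · obtain ⟨a, rfl⟩ := hf
        exact (chart (J * I) (j0 * gA)).algebraMap_mem a
      · obtain ⟨h1, -⟩ := hG x hx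
        obtain ⟨a, rfl⟩ := h1
        have ha : a ∈ GA := Finset.mem_insert_of_mem (Finset.mem_preimage.2 hx)
        refine Algebra.subset_adjoin ⟨j0 * a, Ideal.mul_mem_mul hj0J (Ideal.subset_span ha), ?_⟩
        change φ a / φ gA = φ (j0 * a) / φ (j0 * gA)
        rw [map_mul, map_mul, mul_div_mul_left _ _ hj0']
    · intro c
      rw [IsScalarTower.algebraMap_apply k A (FractionRing A)]
      exact (chart (J * I) (j0 * gA)).algebraMap_mem _
    · intro x y _ _ hx hy
      exact (chart (J * I) (j0 * gA)).add_mem hx hy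
    · intro x y _ _ hx hy
      exact (chart (J * I) (j0 * gA)).mul_mem hx hy
  have hmem : ∀ f, f ∈ centerRing V (chart (J * I) (j0 * gA)) ↔ f ∈ locV V A' := by
    intro f
    constructor
    · rintro ⟨a, ha, b, hb, hvb, rfl⟩
      rw [div_eq_mul_inv]
      exact Subalgebra.mul_mem _ (hSR a ha) (locV_inv (hSR b hb) hvb)
    · rintro ⟨a, ha, b, hb, hvb, rfl⟩
      exact ⟨a, hS' a ha, b, hS' b hb, hvb, rfl⟩
  let e : centerRing V (chart (J * I) (j0 * gA)) ≃+* locV V A' := C9b.equivOfMem _ _ hmem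
  have hregO : IsRegularLocalRing (centerRing V (chart (J * I) (j0 * gA))) :=
    IsRegularLocalRing.of_ringEquiv e.symm
  -- the parameters
  let x : Fin r → centerRing V (chart (J * I) (j0 * gA)) := fun i => e.symm ⟨z i, hz.mem i⟩
  -- the monomial
  obtain ⟨n, u, hu, hu1, hn⟩ : ∃ n : Fin r → ℕ, ∃ u : FractionRing A, u ∈ locV V A' ∧
      V.valuation u = 1 ∧ φ (d0 * (j0 * gA)) = (∏ i, z i ^ n i) * u := by
    have h2 : Mono V (locV V A') z (φ (j0 * gA)) := by
      rw [map_mul]
      refine Mono.mul hz.ne (hT' _ ?_ hj0') hgm (hφv _) (hφv _)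
      exact Finset.mem_union_left _ (Finset.mem_union_left _ (Finset.mem_union_right _
        (Finset.mem_image_of_mem _ hj0)))
    have h1 : Mono V (locV V A') z (φ (d0 * (j0 * gA))) := by
      rw [map_mul]
      refine Mono.mul hz.ne (hT' _ ?_ hd0') h2 (hφv _) (hφv _)
      exact Finset.mem_union_left _ (Finset.mem_union_left _ (Finset.mem_union_left _
        (Finset.mem_image_of_mem _ hd0)))
    exact C9b.exists_nat h1 (hφv _)
  have hu0 : u ≠ 0 := by
    rintro rfl
    rw [map_zero] at hu1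
    exact zero_ne_one hu1
  have hu' : u⁻¹ ∈ locV V A' := locV_inv hu hu1
  let s : Finset (Fin r) := Finset.univ.filter fun i => n i ≠ 0
  refine ⟨I, hI, j0 * gA, Ideal.mul_mem_mul hj0J hgI, hg1, ?_, hregO, r, x, s, ?_, ?_, ?_⟩
  · intro a ha
    change V.valuation (φ a) ≤ V.valuation (φ (j0 * gA))
    rw [map_mul, map_mul]
    have h3 : V.valuation (φ j0) * V.valuation (φ gA) = V.valuation (φ (j0 * gA)) := by
      rw [map_mul, map_mul]
    rw [h3]
    refine Submodule.mul_induction_on ha ?_ ?_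
    · intro m hm l hl
      rw [map_mul, map_mul, ← h3]
      exact mul_le_mul' (hjmin m hm) (hImin l hl)
    · intro x y hx hy
      rw [map_add]
      exact (V.valuation.map_add _ _).trans (max_le hx hy)
  · rw [ringKrullDim_eq_of_ringEquiv e, hz.dim]
  · rw [← IsLocalRing.map_ringEquiv_maximalIdeal e.symm, hmax, Ideal.map_span]
    congr 1
    ext f
    constructor
    · rintro ⟨_, ⟨o, rfl⟩, rfl⟩
      exact ⟨o, rfl⟩
    · rintro ⟨i, rfl⟩
      exact ⟨_, ⟨i, rfl⟩, rfl⟩
  · ext P
    have hP := P.isPrime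
    rw [PrimeSpectrum.mem_zeroLocus, PrimeSpectrum.mem_zeroLocus, Set.singleton_subset_iff,
      SetLike.coe_subset_coe, Ideal.map_le_iff_le_comap, SetLike.mem_coe]
    let O := centerRing V (chart (J * I) (j0 * gA))
    let t : O := algebraMap A O (d0 * (j0 * gA))
    let U : O := e.symm ⟨u, hu⟩
    have hU : U ∉ P.asIdeal := by
      intro h1
      apply hP.ne_top
      rw [Ideal.eq_top_iff_one]
      have h2 : (1 : O) = U * e.symm ⟨u⁻¹, hu'⟩ := by
        apply Subtype.ext
        exact (mul_inv_cancel₀ hu0).symm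
      rw [h2]
      exact Ideal.mul_mem_right _ _ h1
    have ht : t = (∏ i, x i ^ n i) * U := by
      apply Subtype.ext
      change φ (d0 * (j0 * gA)) = _
      rw [hn]
      push_cast
      rfl
    have hA : D * (J * I) ≤ Ideal.comap (algebraMap A O) P.asIdeal ↔ t ∈ P.asIdeal := by
      constructor
      · intro h1
        exact h1 (Ideal.mul_mem_mul hd0D (Ideal.mul_mem_mul hj0J hgI))
      · intro h1 a ha
        rw [Ideal.mem_comap]
        have h2 : algebraMap A O a =
            t * (⟨φ a / φ (d0 * (j0 * gA)), (hmem _).2 (hDJIR a ha)⟩ : O) := by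
          apply Subtype.ext
          change φ a = φ (d0 * (j0 * gA)) * (φ a / φ (d0 * (j0 * gA)))
          rw [mul_div_cancel₀ _ (hφ0 _ (mul_ne_zero hd00 hg1))]
        rw [h2]
        exact Ideal.mul_mem_right _ _ h1
    rw [hA, ht]
    constructor
    · intro h1
      rcases hP.mem_or_mem h1 with h2 | h2
      · obtain ⟨i, -, h3⟩ := hP.prod_mem_iff.1 h2
        have hni : n i ≠ 0 := by
          intro h4
          rw [h4, pow_zero] at h3
          exact hP.ne_top ((Ideal.eq_top_iff_one _).2 h3)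
        exact hP.prod_mem_iff.2 ⟨i, Finset.mem_filter.2 ⟨Finset.mem_univ i, hni⟩,
          hP.mem_of_pow_mem _ h3⟩
      · exact absurd h2 hU
    · intro h1
      obtain ⟨i, hi, h3⟩ := hP.prod_mem_iff.1 h1
      refine Ideal.mul_mem_right _ _ (hP.prod_mem_iff.2 ⟨i, Finset.mem_univ i, ?_⟩)
      exact Ideal.pow_mem_of_mem _ h3 _ (Nat.pos_of_ne_zero (Finset.mem_filter.1 hi).2)

end Pool.Agent.LU2
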