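import Mathlib

/-!
# Log uniformization along a valuation ring: the definitions used in the final statement
-/

set_option autoImplicit false

namespace Pool.Agent.LU2

section Defs

variable {A : Type} [CommRing A] [IsDomain A]

/-- The coordinate ring `A[a / g : a ∈ I]` of the chart, of the blowing up of `Spec A` in the
ideal `I`, on which `g ∈ I` generates the exceptional ideal. -/
def chart (I : Ideal A) (g : A) : Subalgebra A (FractionRing A) :=
  Algebra.adjoin A {z | ∃ a ∈ I,
    z = algebraMap A (FractionRing A) a / algebraMap A (FractionRing A) g}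

/-- The ring of the quotients `a / b` with `a, b ∈ S`, `b` a unit of the valuation ring `V`: if `V`
contains `S`, this is the local ring of `Spec S` at the center of `V`. -/
def centerRing (V : ValuationSubring (FractionRing A)) (S : Subalgebra A (FractionRing A)) :
    Subalgebra A (FractionRing A) where
  carrier := {z | ∃ a ∈ S, ∃ b ∈ S, V.valuation b = 1 ∧ z = a / b}
  mul_mem' := by
    rintro f g ⟨a, ha, b, hb, hvb, rfl⟩ ⟨c, hc, d, hd, hvd, rfl⟩
    exact ⟨a * c, S.mul_mem ha hc, b * d, S.mul_mem hb hd, by rw [map_mul, hvb, hvd, one_mul],
      by rw [div_mul_div_comm]⟩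
  add_mem' := by
    rintro f g ⟨a, ha, b, hb, hvb, rfl⟩ ⟨c, hc, d, hd, hvd, rfl⟩
    have hb0 : b ≠ 0 := by rintro rfl; simp at hvb
    have hd0 : d ≠ 0 := by rintro rfl; simp at hvd
    exact ⟨a * d + b * c, S.add_mem (S.mul_mem ha hd) (S.mul_mem hb hc), b * d,
      S.mul_mem hb hd, by rw [map_mul, hvb, hvd, one_mul], by rw [div_add_div _ _ hb0 hd0]⟩
  algebraMap_mem' := by
    intro c
    exact ⟨_, S.algebraMap_mem c, 1, S.one_mem, map_one _, by rw [div_one]⟩

/-- The blowing up of `X = Spec A` in the ideal `I` is a log desingularization of `(X, V(D))` along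
the valuation ring `V`: if `g` is an element of `I` of least value, the local ring `O` of the
blowing up at the center of the lift of `V`, which is `centerRing V (chart I g)`, is regular, and in
`Spec O` the inverse image of `V(D) ∪ V(I)` is the zero set of the product of some of the elements
of a regular system of parameters. -/
def IsLogDesing (V : ValuationSubring (FractionRing A)) (D I : Ideal A) : Prop :=
  ∃ g ∈ I, g ≠ 0 ∧
    (∀ a ∈ I, V.valuation (algebraMap A (FractionRing A) a) ≤
      V.valuation (algebraMap A (FractionRing A) g)) ∧
    ∃ _ : IsRegularLocalRing (centerRing V (chart I g)),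
      ∃ (n : ℕ) (x : Fin n → centerRing V (chart I g)) (s : Finset (Fin n)),
        ringKrullDim (centerRing V (chart I g)) = n ∧
        IsLocalRing.maximalIdeal (centerRing V (chart I g)) = Ideal.span (Set.range x) ∧
        PrimeSpectrum.zeroLocus ((D * I).map (algebraMap A (centerRing V (chart I g))) : Set _) =
          PrimeSpectrum.zeroLocus {∏ i ∈ s, x i}

/-- The valuation ring `V` is log uniformizable on `X = Spec A`: for each closed subset
`V(D) ≠ X` and each blowing up of `X`, in an ideal `J ≠ 0`, some blowing up that dominates it, in
an ideal `J * I ≠ 0`, is a log desingularization of `(X, V(D))` along `V`. -/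
def LogUniformizable (V : ValuationSubring (FractionRing A)) : Prop :=
  ∀ D : Ideal A, D ≠ ⊥ → ∀ J : Ideal A, J ≠ ⊥ → ∃ I : Ideal A, I ≠ ⊥ ∧ IsLogDesing V D (J * I)

/-- The rational rank of the value group of `V`. -/
noncomputable def rationalRank (V : ValuationSubring (FractionRing A)) : Cardinal :=
  Module.rank ℤ (Additive V.ValueGroupˣ)

/-- The homomorphism from `A` to the residue field of `V`. -/
noncomputable def resHom (V : ValuationSubring (FractionRing A))
    (hV : ∀ a : A, algebraMap A (FractionRing A) a ∈ V) : A →+* IsLocalRing.ResidueField V :=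
  (IsLocalRing.residue V).comp ((algebraMap A (FractionRing A)).codRestrict V hV)

/-- The transcendence degree over `k` of the residue field of `V`. -/
noncomputable def residueDegree (k : Type) [Field k] [Algebra k A]
    (V : ValuationSubring (FractionRing A)) (hV : ∀ a : A, algebraMap A (FractionRing A) a ∈ V) :
    Cardinal :=
  @Algebra.trdeg k (IsLocalRing.ResidueField V) _ _ ((resHom V hV).comp (algebraMap k A)).toAlgebra

end Defs

end Pool.Agent.LU2
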